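import Pool.Agent.Q186.HT.Defs
import Pool.Agent.Q63.Hel.Can
import Pool.Agent.Q186.AMa

/-!
The production of the norm with the weight `|k|`: only the triads with modes of both helicities
contribute.
-/

open Set Filter Topology
open scoped ENNReal

namespace Q186.HT

open H459R3.NS hiding tt
open Pool.Agent.Q63 Pool.Agent.Q63.Win Pool.Agent.Q63.Hel

/-- the mixed products -/
noncomputable def mix (a b : K3 → ℝ) (z : K3 × K3) : ℝ :=
  a z.1 * a z.2 * b (-z.1 - z.2) + a z.1 * b z.2 * a (-z.1 - z.2) + b z.1 * a z.2 * a (-z.1 - z.2)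
  + b z.1 * b z.2 * a (-z.1 - z.2) + b z.1 * a z.2 * b (-z.1 - z.2) + a z.1 * b z.2 * b (-z.1 - z.2)

open scoped Classical in
noncomputable def MX (a b : K3 → ℝ) (z : K3 × K3) : ℝ :=
  if crossProduct z.1 z.2 ≠ 0 then mix a b z else 0

theorem mix_nonneg {a b : K3 → ℝ} (ha : ∀ k, 0 ≤ a k) (hb : ∀ k, 0 ≤ b k) (z : K3 × K3) :
    0 ≤ mix a b z := by
  have a1 := ha z.1
  have a2 := ha z.2
  have a3 := ha (-z.1 - z.2)
  have b1 := hb z.1
  have b2 := hb z.2
  have b3 := hb (-z.1 - z.2)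
  unfold mix
  positivity

theorem MX_nonneg {a b : K3 → ℝ} (ha : ∀ k, 0 ≤ a k) (hb : ∀ k, 0 ≤ b k) (z : K3 × K3) :
    0 ≤ MX a b z := by
  unfold MX
  split_ifs
  · exact mix_nonneg ha hb z
  · exact le_rfl

theorem cross_swap (p q : K3) : crossProduct q p ≠ 0 ↔ crossProduct p q ≠ 0 := by
  rw [← cross_anticomm p q]
  exact neg_ne_zero

theorem cross_rot (p q : K3) : crossProduct p (-p - q) ≠ 0 ↔ crossProduct p q ≠ 0 := by
  rw [map_sub, map_neg, cross_self, neg_zero, zero_sub]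
  exact neg_ne_zero

theorem MX_swap {a b : K3 → ℝ} (z : K3 × K3) : MX a b (z.2, z.1) = MX a b z := by
  unfold MX
  simp only
  by_cases h : crossProduct z.1 z.2 ≠ 0
  · rw [if_pos h, if_pos ((cross_swap _ _).2 h)]
    unfold mix
    simp only
    rw [show -z.2 - z.1 = -z.1 - z.2 by abel]
    ring
  · rw [if_neg h, if_neg fun h1 => h ((cross_swap _ _).1 h1)]

theorem MX_rot {a b : K3 → ℝ} (z : K3 × K3) : MX a b (z.1, -z.1 - z.2) = MX a b z := by
  unfold MX
  simp only
  by_cases h : crossProduct z.1 z.2 ≠ 0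
  · rw [if_pos h, if_pos ((cross_rot _ _).2 h)]
    unfold mix
    simp only
    rw [show -z.1 - (-z.1 - z.2) = z.2 by abel]
    ring
  · rw [if_neg h, if_neg fun h1 => h ((cross_rot _ _).1 h1)]

/-- the terms of collinear frequencies vanish -/
theorem tt_col {a : Fam} (ha : ∀ k, ∑ i, (k i : ℂ) * a k i = 0) (b d : Fam) {z : K3 × K3}
    (h0 : z.1 ≠ 0) (h : crossProduct z.1 z.2 = 0) : tt a b d z = 0 := by
  obtain ⟨i, hi⟩ : ∃ i, z.1 i ≠ 0 := by
    by_contra hcon
    push Not at hcon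
    exact h0 (funext hcon)
  have hc : ∀ i j, z.1 i * z.2 j = z.2 i * z.1 j := by
    have e0 := congrFun h 0
    have e1 := congrFun h 1
    have e2 := congrFun h 2
    simp only [crossProduct, LinearMap.mk₂_apply, Matrix.cons_val_zero, Matrix.cons_val_one,
      Matrix.cons_val_two, Matrix.head_cons, Matrix.tail_cons, Pi.zero_apply] at e0 e1 e2
    intro i j
    fin_cases i <;> fin_cases j <;> simp <;> first | ring1 | linarith
  have hz : ∑ j, a z.1 j * (z.2 j : ℂ) = 0 := by
    have h1 : (z.1 i : ℂ) * ∑ j, a z.1 j * (z.2 j : ℂ) = 0 := by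
      have h2 : (z.1 i : ℂ) * ∑ j, a z.1 j * (z.2 j : ℂ) = (z.2 i : ℂ) * ∑ j, (z.1 j : ℂ) * a z.1 j := by
        rw [Finset.mul_sum, Finset.mul_sum]
        refine Finset.sum_congr rfl fun j _ => ?_
        have h3 : (z.1 i : ℂ) * (z.2 j : ℂ) = (z.2 i : ℂ) * (z.1 j : ℂ) := by exact_mod_cast hc i j
        linear_combination a z.1 j * h3
      rw [h2, ha z.1, mul_zero]
    rcases mul_eq_zero.1 h1 with h2 | h2
    · exact absurd (by exact_mod_cast h2) hi
    · exact h2
  unfold tt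
  rw [hz, zero_mul]

/-- the mixed terms -/
theorem norm_tt_mix_le {c h e : Fam} (hce : ∀ k i, c k i = h k i + e k i)
    (hh : ∀ k, ∑ i, (k i : ℂ) * h k i = 0) (he : ∀ k, ∑ i, (k i : ℂ) * e k i = 0)
    {z : K3 × K3} (h0 : z.1 ≠ 0) :
    ‖tt c c c z - tt h h h z - tt e e e z‖ ≤ 2 * min (N z.2 : ℝ) (N (-z.1 - z.2)) *
      MX (amp h) (amp e) z := by
  have e1 : tt c c c z - tt h h h z - tt e e e z
      = tt h h e z + tt h e h z + tt e h h z + tt e e h z + tt e h e z + tt h e e z := by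
    unfold tt
    have f1 : ∑ j, c z.1 j * (z.2 j : ℂ) = ∑ j, h z.1 j * (z.2 j : ℂ) + ∑ j, e z.1 j * (z.2 j : ℂ) := by
      rw [← Finset.sum_add_distrib]
      exact Finset.sum_congr rfl fun j _ => by rw [hce]; ring
    have f2 : ∑ i, c z.2 i * c (-z.1 - z.2) i = ∑ i, h z.2 i * h (-z.1 - z.2) i
        + ∑ i, e z.2 i * e (-z.1 - z.2) i + ∑ i, h z.2 i * e (-z.1 - z.2) i
        + ∑ i, e z.2 i * h (-z.1 - z.2) i := by
      rw [← Finset.sum_add_distrib, ← Finset.sum_add_distrib, ← Finset.sum_add_distrib]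
      refine Finset.sum_congr rfl fun j _ => ?_
      rw [hce z.2, hce (-z.1 - z.2)]
      ring
    rw [f1, f2]
    ring
  rw [e1]
  unfold MX
  split_ifs with hc
  · have b1 := norm_tt_le hh h e z
    have b2 := norm_tt_le hh e h z
    have b3 := norm_tt_le he h h z
    have b4 := norm_tt_le he e h z
    have b5 := norm_tt_le he h e z
    have b6 := norm_tt_le hh e e z
    calc ‖tt h h e z + tt h e h z + tt e h h z + tt e e h z + tt e h e z + tt h e e z‖
        ≤ ‖tt h h e z‖ + ‖tt h e h z‖ + ‖tt e h h z‖ + ‖tt e e h z‖ + ‖tt e h e z‖ + ‖tt h e e z‖ := by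
          refine (norm_add_le _ _).trans (add_le_add_left ?_ _)
          refine (norm_add_le _ _).trans (add_le_add_left ?_ _)
          refine (norm_add_le _ _).trans (add_le_add_left ?_ _)
          exact norm_add₃_le
      _ ≤ _ := by
          unfold mix
          linarith
  · rw [not_not] at hc
    rw [tt_col hh h e h0 hc, tt_col hh e h h0 hc, tt_col he h h h0 hc, tt_col he e h h0 hc,
      tt_col he h e h0 hc, tt_col hh e e h0 hc]
    simp

/-- The production of the norm with the weight `|k|`. -/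
theorem prod_mix_le {c : Fam} (h : RapV c) (hreal : ∀ k i, c (-k) i = (starRingEnd ℂ) (c k i))
    (hdiv : ∀ k, ∑ i, (k i : ℂ) * c k i = 0) :
    ENNReal.ofReal |2 * Win.prod len c| ≤
      ∑' z, ENNReal.ofReal (26 * (KK z * MX (amp (hel 1 c)) (amp (hel (-1) c)) z)) := by
  classical
  have hone : (1 : ℝ) ^ 2 = 1 := by norm_num
  have hmone : (-1 : ℝ) ^ 2 = 1 := by norm_num
  have y0 : Sy fun _ : K3 × K3 => True := ⟨fun _ => Iff.rfl, fun _ => Iff.rfl⟩
  have c0 := lt_ct y0 h hdiv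
  have c1 := (lt_ct y0 (hel_rap hmone h) (hel_div (σ := -1) hdiv)).1
  have c2 := (lt_ct y0 (hel_rap hone h) (hel_div (σ := 1) hdiv)).1
  have z1 := hel_zero y0 h hdiv hmone
  have z2 := hel_zero y0 h hdiv hone
  -- the representation
  have e1 : ((2 * Win.prod len c : ℝ) : ℂ).re = (2 * Real.pi * Complex.I *
      ∑' z, (ct (fun _ => True) c z - ct (fun _ => True) (hel (-1) c) z
        - ct (fun _ => True) (hel 1 c) z)).re := by
    rw [(c0.1.sub c1).tsum_sub c2, c0.1.tsum_sub c1, z1, z2, sub_zero, sub_zero, ← c0.2,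
      Complex.ofReal_re, prod_eq pol_len h hreal]
    have sl := lt_summable (fun _ => True) h
    have e : 2 * (Real.pi : ℂ) * Complex.I * (2 * ∑' z, lt (fun _ => True) c z)
        = 2 * ∑' z, 2 * (Real.pi : ℂ) * Complex.I * lt (fun _ => True) c z := by
      rw [tsum_mul_left]
      ring
    rw [e]
    have e' : (2 * ∑' z, 2 * (Real.pi : ℂ) * Complex.I * lt (fun _ => True) c z).re
        = 2 * ∑' z, (2 * (Real.pi : ℂ) * Complex.I * lt (fun _ => True) c z).re := by
      rw [← Complex.re_tsum (sl.mul_left _)]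
      simp
    rw [e']
    congr 1
    refine tsum_congr fun z => ?_
    unfold lt
    rw [if_pos trivial, show len (z.1 + z.2) = len (-z.1 - z.2) by
      rw [← len_neg, show -(z.1 + z.2) = -z.1 - z.2 by abel]]
    rw [show 2 * (Real.pi : ℂ) * Complex.I * ((len (-z.1 - z.2) : ℂ) * tt c c c z)
      = ((len (-z.1 - z.2) : ℝ) : ℂ) * (2 * Real.pi * Complex.I * tt c c c z) by ring,
      Complex.re_ofReal_mul]
  rw [Complex.ofReal_re] at e1
  set D : K3 × K3 → ℂ := fun z =>
    ct (fun _ => True) c z - ct (fun _ => True) (hel (-1) c) z - ct (fun _ => True) (hel 1 c) z with hD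
  have sD : Summable D := (c0.1.sub c1).sub c2
  have h3 : ‖2 * (Real.pi : ℂ) * Complex.I‖ = 2 * Real.pi := by
    rw [norm_mul, norm_mul, Complex.norm_I, Complex.norm_real, Real.norm_eq_abs,
      abs_of_pos Real.pi_pos]
    simp
  have hpi : Real.pi ≤ 3.15 := Real.pi_lt_d2.le
  have hpi0 := Real.pi_pos
  -- pointwise
  have hpt : ∀ z, 2 * Real.pi * ‖D z‖ ≤
      26 * (KK z * MX (amp (hel 1 c)) (amp (hel (-1) c)) z) := by
    intro z
    have hlen : |len (-z.1 - z.2) - len z.2| ≤ 2 * N z.1 := by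
      refine (abs_len_sub _ _).trans ?_
      rw [show -z.1 - z.2 + z.2 = -z.1 by abel, len_neg]
      exact len_le_two z.1
    have hG := MX_nonneg (amp_nonneg (hel 1 c)) (amp_nonneg (hel (-1) c)) z
    have hm : (0 : ℝ) ≤ min (N z.2 : ℝ) (N (-z.1 - z.2)) :=
      le_min (Nat.cast_nonneg _) (Nat.cast_nonneg _)
    have hN1 : (0 : ℝ) ≤ N z.1 := Nat.cast_nonneg _
    have hnn : ‖((len (-z.1 - z.2) : ℂ) - len z.2)‖ = |len (-z.1 - z.2) - len z.2| := by
      rw [← Complex.ofReal_sub, Complex.norm_real, Real.norm_eq_abs]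
    have e : D z = ((len (-z.1 - z.2) : ℂ) - len z.2) * (tt c c c z
        - tt (hel 1 c) (hel 1 c) (hel 1 c) z - tt (hel (-1) c) (hel (-1) c) (hel (-1) c) z) := by
      rw [hD]
      simp only [ct]
      rw [if_pos trivial, if_pos trivial, if_pos trivial]
      ring
    have key : ‖D z‖ ≤ (2 * N z.1) * (2 * min (N z.2 : ℝ) (N (-z.1 - z.2)) *
        MX (amp (hel 1 c)) (amp (hel (-1) c)) z) := by
      rw [e, norm_mul, hnn]
      by_cases h0 : z.1 = 0
      · have : |len (-z.1 - z.2) - len z.2| = 0 := by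
          rw [h0, neg_zero, zero_sub, len_neg, sub_self, abs_zero]
        rw [this, zero_mul]
        positivity
      · refine mul_le_mul hlen ?_ (norm_nonneg _) (by positivity)
        exact norm_tt_mix_le (fun k i => (hel_add c k i).symm) (hel_div hdiv) (hel_div hdiv) h0
    calc 2 * Real.pi * ‖D z‖
        ≤ 2 * 3.15 * ((2 * N z.1) * (2 * min (N z.2 : ℝ) (N (-z.1 - z.2)) *
          MX (amp (hel 1 c)) (amp (hel (-1) c)) z)) := by
          gcongr
      _ = 25.2 * (KK z * MX (amp (hel 1 c)) (amp (hel (-1) c)) z) := by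
          unfold KK
          ring
      _ ≤ 26 * (KK z * MX (amp (hel 1 c)) (amp (hel (-1) c)) z) := by
          have := KK_nonneg z
          have : 0 ≤ KK z * MX (amp (hel 1 c)) (amp (hel (-1) c)) z := by positivity
          linarith
  have h5 : |2 * Win.prod len c| ≤ ∑' z, 2 * Real.pi * ‖D z‖ := by
    rw [e1]
    refine (Complex.abs_re_le_norm _).trans ?_
    rw [norm_mul, h3, tsum_mul_left]
    exact mul_le_mul_of_nonneg_left (norm_tsum_le_tsum_norm sD.norm) (by positivity)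
  calc ENNReal.ofReal |2 * Win.prod len c| ≤ ENNReal.ofReal (∑' z, 2 * Real.pi * ‖D z‖) :=
        ENNReal.ofReal_le_ofReal h5
    _ = ∑' z, ENNReal.ofReal (2 * Real.pi * ‖D z‖) :=
        ENNReal.ofReal_tsum_of_nonneg (fun z => by positivity) (sD.norm.mul_left _)
    _ ≤ _ := ENNReal.tsum_le_tsum fun z => ENNReal.ofReal_le_ofReal (hpt z)

end Q186.HT
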