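import Pool.Agent.Q186.HT.A

/-!
Reduction to ordered triads.
-/

open Set Filter Topology
open scoped ENNReal

namespace Q186.HT

open H459R3.NS hiding tt
open Pool.Agent.Q63 Pool.Agent.Q63.Win
open Pool.Agent.Q63.Hel

open scoped Classical in
/-- the majorant on the ordered triads -/
noncomputable def cG (G : K3 × K3 → ℝ) (z : K3 × K3) : ℝ≥0∞ :=
  if Can z then ENNReal.ofReal (N z.1 * N z.2 * G z) else 0

theorem cG_of {G : K3 × K3 → ℝ} {z : K3 × K3} (h : Can z) :
    cG G z = ENNReal.ofReal (N z.1 * N z.2 * G z) := by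
  unfold cG
  rw [if_pos h]

theorem KK_leG {G : K3 × K3 → ℝ} (hG0 : ∀ z, 0 ≤ G z) (hsw : ∀ z, G (z.2, z.1) = G z)
    (hrot : ∀ z, G (z.1, -z.1 - z.2) = G z) (z : K3 × K3) :
    ENNReal.ofReal (KK z * G z) ≤ cG G z + cG G (z.2, z.1)
      + cG G (z.1, -z.1 - z.2) + cG G (-z.1 - z.2, z.1)
      + cG G (z.2, -z.1 - z.2) + cG G (-z.1 - z.2, z.2) := by
  have hG := hG0 z
  have g1 : G (z.2, z.1) = G z := hsw z
  have g2 : G (z.1, -z.1 - z.2) = G z := hrot z
  have g3 : G (-z.1 - z.2, z.1) = G z := by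
    rw [← g2]
    exact hsw (z.1, -z.1 - z.2)
  have g4 : G (z.2, -z.1 - z.2) = G z := by
    rw [← g1]
    have := hrot (z.2, z.1)
    simp only at this
    rw [show -z.2 - z.1 = -z.1 - z.2 by abel] at this
    exact this
  have g5 : G (-z.1 - z.2, z.2) = G z := by
    rw [← g4]
    exact hsw (z.2, -z.1 - z.2)
  have r2 : -z.2 - z.1 = -z.1 - z.2 := by abel
  have r3 : -z.1 - (-z.1 - z.2) = z.2 := by abel
  have r4 : -(-z.1 - z.2) - z.1 = z.2 := by abel
  have r5 : -z.2 - (-z.1 - z.2) = z.1 := by abel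
  have r6 : -(-z.1 - z.2) - z.2 = z.1 := by abel
  set p := N z.1 with hp
  set q := N z.2 with hq
  set r := N (-z.1 - z.2) with hr
  have hK : KK z = p * min (q : ℝ) r := rfl
  have hpR : (0 : ℝ) ≤ p := Nat.cast_nonneg _
  have hqR : (0 : ℝ) ≤ q := Nat.cast_nonneg _
  have hrR : (0 : ℝ) ≤ r := Nat.cast_nonneg _
  rcases le_total p q with h1 | h1 <;> rcases le_total q r with h2 | h2 <;>
    rcases le_total p r with h3 | h3
  · -- p ≤ q ≤ r
    have hc : Can (z.1, -z.1 - z.2) := ⟨by simp only; rw [r3]; exact h1, by simp only; rw [r3]; exact h2⟩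
    refine le_trans ?_ (le_add_right (le_add_right (le_add_right (le_add_left le_rfl))))
    rw [cG_of hc, g2]
    apply ENNReal.ofReal_le_ofReal
    show KK z * _ ≤ (p : ℝ) * r * _
    rw [hK]
    gcongr
    exact min_le_right _ _
  · -- p ≤ q ≤ r, r ≤ p
    have hc : Can (z.1, -z.1 - z.2) := ⟨by simp only; rw [r3]; exact h1, by simp only; rw [r3]; exact h2⟩
    refine le_trans ?_ (le_add_right (le_add_right (le_add_right (le_add_left le_rfl))))
    rw [cG_of hc, g2]
    apply ENNReal.ofReal_le_ofReal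
    show KK z * _ ≤ (p : ℝ) * r * _
    rw [hK]
    gcongr
    exact min_le_right _ _
  · -- p ≤ r ≤ q
    have hc : Can z := ⟨h3, h2⟩
    refine le_trans ?_ (le_add_right (le_add_right (le_add_right (le_add_right (le_add_right le_rfl)))))
    rw [cG_of hc]
    apply ENNReal.ofReal_le_ofReal
    show KK z * _ ≤ (p : ℝ) * q * _
    rw [hK]
    gcongr
    exact min_le_left _ _
  · -- r ≤ p ≤ q
    have hc : Can (-z.1 - z.2, z.2) := ⟨by simp only; rw [r6]; exact h3, by simp only; rw [r6]; exact h1⟩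
    refine le_trans ?_ (le_add_left le_rfl)
    rw [cG_of hc, g5]
    apply ENNReal.ofReal_le_ofReal
    show KK z * _ ≤ (r : ℝ) * q * _
    rw [hK]
    have h1R : (p : ℝ) ≤ q := by exact_mod_cast h1
    have : (p : ℝ) * min (q : ℝ) r ≤ r * q := by
      calc (p : ℝ) * min (q : ℝ) r ≤ q * r := by
            gcongr
            exact min_le_right _ _
        _ = r * q := mul_comm _ _
    gcongr
  · -- q ≤ p, q ≤ r, p ≤ r
    have hc : Can (z.2, -z.1 - z.2) := ⟨by simp only; rw [r5]; exact h1, by simp only; rw [r5]; exact h3⟩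
    refine le_trans ?_ (le_add_right (le_add_left le_rfl))
    rw [cG_of hc, g4]
    apply ENNReal.ofReal_le_ofReal
    show KK z * _ ≤ (q : ℝ) * r * _
    rw [hK]
    have h1R : (p : ℝ) ≤ r := by exact_mod_cast h3
    have : (p : ℝ) * min (q : ℝ) r ≤ q * r := by
      calc (p : ℝ) * min (q : ℝ) r ≤ r * q := by
            gcongr
            exact min_le_left _ _
        _ = q * r := mul_comm _ _
    gcongr
  · -- q ≤ r ≤ p
    have hc : Can (z.2, z.1) := ⟨by simp only; rw [r2]; exact h2, by simp only; rw [r2]; exact h3⟩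
    refine le_trans ?_ (le_add_right (le_add_right (le_add_right (le_add_right (le_add_left le_rfl)))))
    rw [cG_of hc, g1]
    apply ENNReal.ofReal_le_ofReal
    show KK z * _ ≤ (q : ℝ) * p * _
    rw [hK]
    have : (p : ℝ) * min (q : ℝ) r ≤ q * p := by
      rw [mul_comm (q : ℝ)]
      gcongr
      exact min_le_left _ _
    gcongr
  · -- r ≤ q ≤ p, p ≤ r
    have hc : Can (-z.1 - z.2, z.1) := ⟨by simp only; rw [r4]; exact h2, by simp only; rw [r4]; exact h1⟩
    refine le_trans ?_ (le_add_right (le_add_right (le_add_left le_rfl)))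
    rw [cG_of hc, g3]
    apply ENNReal.ofReal_le_ofReal
    show KK z * _ ≤ (r : ℝ) * p * _
    rw [hK]
    have : (p : ℝ) * min (q : ℝ) r ≤ r * p := by
      rw [mul_comm (r : ℝ)]
      gcongr
      exact min_le_right _ _
    gcongr
  · -- r ≤ q ≤ p
    have hc : Can (-z.1 - z.2, z.1) := ⟨by simp only; rw [r4]; exact h2, by simp only; rw [r4]; exact h1⟩
    refine le_trans ?_ (le_add_right (le_add_right (le_add_left le_rfl)))
    rw [cG_of hc, g3]
    apply ENNReal.ofReal_le_ofReal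
    show KK z * _ ≤ (r : ℝ) * p * _
    rw [hK]
    have : (p : ℝ) * min (q : ℝ) r ≤ r * p := by
      rw [mul_comm (r : ℝ)]
      gcongr
      exact min_le_right _ _
    gcongr

theorem tsum_KK_leG {G : K3 × K3 → ℝ} (hG0 : ∀ z, 0 ≤ G z) (hsw : ∀ z, G (z.2, z.1) = G z)
    (hrot : ∀ z, G (z.1, -z.1 - z.2) = G z) :
    ∑' z, ENNReal.ofReal (KK z * G z) ≤ 6 * ∑' z, cG G z := by
  set Z := ∑' z, cG G z with hZ
  have t1 : ∑' z : K3 × K3, cG G (z.2, z.1) = Z := (Equiv.prodComm K3 K3).tsum_eq (cG G)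
  have t2 : ∑' z : K3 × K3, cG G (z.1, -z.1 - z.2) = Z := e2.tsum_eq (cG G)
  have t5 : ∑' z : K3 × K3, cG G (-z.1 - z.2, z.2) = Z := e3.tsum_eq (cG G)
  have t3 : ∑' z : K3 × K3, cG G (-z.1 - z.2, z.1) = Z := by
    rw [← t1]
    exact e2.tsum_eq (fun z => cG G (z.2, z.1))
  have t4 : ∑' z : K3 × K3, cG G (z.2, -z.1 - z.2) = Z := by
    rw [← t1]
    exact e3.tsum_eq (fun z => cG G (z.2, z.1))
  calc ∑' z, ENNReal.ofReal (KK z * G z)
      ≤ ∑' z, (cG G z + cG G (z.2, z.1)
      + cG G (z.1, -z.1 - z.2) + cG G (-z.1 - z.2, z.1)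
      + cG G (z.2, -z.1 - z.2) + cG G (-z.1 - z.2, z.2)) :=
        ENNReal.tsum_le_tsum fun z => KK_leG hG0 hsw hrot z
    _ = 6 * Z := by
        rw [ENNReal.tsum_add, ENNReal.tsum_add, ENNReal.tsum_add, ENNReal.tsum_add,
          ENNReal.tsum_add, t1, t2, t3, t4, t5]
        ring


/-- The production of the norm with the weight `|k|`, ordered triads. -/
theorem prod_can_le {c : Fam} (h : RapV c) (hreal : ∀ k i, c (-k) i = (starRingEnd ℂ) (c k i))
    (hdiv : ∀ k, ∑ i, (k i : ℂ) * c k i = 0) :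
    ENNReal.ofReal |2 * Win.prod len c| ≤
      156 * ∑' z, cG (MX (amp (hel 1 c)) (amp (hel (-1) c))) z := by
  have h1 := prod_mix_le h hreal hdiv
  have h2 := tsum_KK_leG (G := MX (amp (hel 1 c)) (amp (hel (-1) c)))
    (MX_nonneg (amp_nonneg _) (amp_nonneg _)) MX_swap MX_rot
  refine h1.trans ?_
  calc ∑' z, ENNReal.ofReal (26 * (KK z * MX (amp (hel 1 c)) (amp (hel (-1) c)) z))
      = 26 * ∑' z, ENNReal.ofReal (KK z * MX (amp (hel 1 c)) (amp (hel (-1) c)) z) := by
        rw [← ENNReal.tsum_mul_left]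
        refine tsum_congr fun z => ?_
        rw [ENNReal.ofReal_mul (by norm_num)]
        simp only [ENNReal.ofReal_ofNat]
    _ ≤ 26 * (6 * ∑' z, cG (MX (amp (hel 1 c)) (amp (hel (-1) c))) z) := by gcongr
    _ = _ := by
        rw [← mul_assoc]
        norm_num

end Q186.HT
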