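import Pool.Agent.Q186.HT.B
import Pool.Agent.Q186.AMb

/-!
The pointwise estimate on the ordered triads.
-/

open Set Filter Topology
open scoped ENNReal

namespace Q186.HT

open H459R3.NS hiding tt
open Pool.Agent.Q63 Pool.Agent.Q63.Win
open Pool.Agent.Q63.Hel

open scoped Classical in
noncomputable def sI (S : Set K3) (p : K3) : ℝ := if p ∈ S then 1 else 0

theorem sI_nonneg (S : Set K3) (p : K3) : 0 ≤ sI S p := by
  unfold sI
  split_ifs <;> norm_num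

theorem sI_of {S : Set K3} {p : K3} (h : p ∈ S) : sI S p = 1 := if_pos h

theorem term_le {x : Bool → K3 → ℝ} {w : K3 → ℝ} {A : Bool → Set K3} {S : Set K3} {κ : ℝ}
    (hκ : 0 ≤ κ) (hx0 : ∀ i k, 0 ≤ x i k) (hxw : ∀ i k, x i k ≤ w k)
    (hA : ∀ i k, k ≠ 0 → k ∉ A i → x i k ≤ κ / (N k : ℝ) ^ 2) {p q r : K3} (hp : p ≠ 0)
    (hq : q ≠ 0) (hr : r ≠ 0) (i j k : Bool)
    (hit : p ∈ A i → q ∈ A j → r ∈ A k → p ∈ S ∨ q ∈ S ∨ r ∈ S) :
    x i p * x j q * x k r ≤ κ / (N p : ℝ) ^ 2 * w q * w r + w p * (κ / (N q : ℝ) ^ 2) * w r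
      + w p * w q * (κ / (N r : ℝ) ^ 2) + (sI S p + sI S q + sI S r) * (w p * w q * w r) := by
  have a1 := hx0 i p
  have a2 := hx0 j q
  have a3 := hx0 k r
  have b1 := hxw i p
  have b2 := hxw j q
  have b3 := hxw k r
  have w1 : 0 ≤ w p := a1.trans b1
  have w2 : 0 ≤ w q := a2.trans b2
  have w3 : 0 ≤ w r := a3.trans b3
  have s1 := sI_nonneg S p
  have s2 := sI_nonneg S q
  have s3 := sI_nonneg S r
  have c1 : 0 ≤ κ / (N p : ℝ) ^ 2 := by positivity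
  have c2 : 0 ≤ κ / (N q : ℝ) ^ 2 := by positivity
  have c3 : 0 ≤ κ / (N r : ℝ) ^ 2 := by positivity
  have t1 : 0 ≤ κ / (N p : ℝ) ^ 2 * w q * w r := by positivity
  have t2 : 0 ≤ w p * (κ / (N q : ℝ) ^ 2) * w r := by positivity
  have t3 : 0 ≤ w p * w q * (κ / (N r : ℝ) ^ 2) := by positivity
  have hW : 0 ≤ w p * w q * w r := by positivity
  have t4 : 0 ≤ (sI S p + sI S q + sI S r) * (w p * w q * w r) := by positivity
  by_cases h1 : p ∈ A i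
  · by_cases h2 : q ∈ A j
    · by_cases h3 : r ∈ A k
      · have h4 : 1 ≤ sI S p + sI S q + sI S r := by
          rcases hit h1 h2 h3 with h | h | h
          · rw [sI_of h]; linarith
          · rw [sI_of h]; linarith
          · rw [sI_of h]; linarith
        have h5 : x i p * x j q * x k r ≤ w p * w q * w r := by gcongr
        have h6 : 1 * (w p * w q * w r) ≤ (sI S p + sI S q + sI S r) * (w p * w q * w r) := by
          gcongr
        linarith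
      · have h5 : x i p * x j q * x k r ≤ w p * w q * (κ / (N r : ℝ) ^ 2) := by
          have := hA k r hr h3
          gcongr
        linarith
    · have h5 : x i p * x j q * x k r ≤ w p * (κ / (N q : ℝ) ^ 2) * w r := by
        have := hA j q hq h2
        gcongr
      linarith
  · have h5 : x i p * x j q * x k r ≤ κ / (N p : ℝ) ^ 2 * w q * w r := by
      have := hA i p hp h1
      gcongr
    linarith

section real

variable {P Q R α : ℝ}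

theorem two_rpow_le {β : ℝ} (h1 : β ≤ 1) : (2 : ℝ) ^ β ≤ 2 := by
  calc (2 : ℝ) ^ β ≤ 2 ^ (1 : ℝ) := Real.rpow_le_rpow_of_exponent_le (by norm_num) h1
    _ = 2 := Real.rpow_one 2

theorem r1 (h0 : 0 < P) (h1 : P ≤ R) (h2 : R ≤ Q) (h3 : Q ≤ 2 * R) (ha0 : 0 ≤ α) (ha1 : α ≤ 1) :
    P * Q ≤ 2 * (P ^ α * Q ^ (1 - α / 2) * R ^ (1 - α / 2)) := by
  have hR : 0 < R := by linarith
  have hQ : 0 < Q := by linarith
  have e1 : P = P ^ α * P ^ (1 - α) := by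
    rw [← Real.rpow_add h0]
    norm_num
  have e2 : P ^ (1 - α) ≤ Q ^ (1 - α) := Real.rpow_le_rpow h0.le (by linarith) (by linarith)
  have e3 : Q ^ (1 - α) * Q = Q ^ (1 - α / 2) * Q ^ (1 - α / 2) := by
    rw [← Real.rpow_add_one hQ.ne', ← Real.rpow_add hQ]
    congr 1
    ring
  have e4 : Q ^ (1 - α / 2) ≤ 2 * R ^ (1 - α / 2) := by
    calc Q ^ (1 - α / 2) ≤ (2 * R) ^ (1 - α / 2) := Real.rpow_le_rpow hQ.le h3 (by linarith)
      _ = 2 ^ (1 - α / 2) * R ^ (1 - α / 2) := Real.mul_rpow (by norm_num) hR.le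
      _ ≤ 2 * R ^ (1 - α / 2) := by
        gcongr
        exact two_rpow_le (by linarith)
  calc P * Q = P ^ α * P ^ (1 - α) * Q := by rw [← e1]
    _ ≤ P ^ α * Q ^ (1 - α) * Q := by gcongr
    _ = P ^ α * Q ^ (1 - α / 2) * Q ^ (1 - α / 2) := by rw [mul_assoc, e3, mul_assoc]
    _ ≤ P ^ α * Q ^ (1 - α / 2) * (2 * R ^ (1 - α / 2)) := by gcongr
    _ = _ := by ring

theorem r2 (h0 : 0 < P) (h1 : P ≤ R) (h2 : R ≤ Q) (h3 : Q ≤ 2 * R) (ha0 : 0 ≤ α) (ha1 : α ≤ 1) :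
    P * Q ≤ 2 * (P ^ (1 - α / 2) * Q ^ α * R ^ (1 - α / 2)) := by
  have hR : 0 < R := by linarith
  have hQ : 0 < Q := by linarith
  have e1 : P = P ^ (1 - α / 2) * P ^ (α / 2) := by
    rw [← Real.rpow_add h0]
    norm_num
  have e1' : Q = Q ^ α * Q ^ (1 - α) := by
    rw [← Real.rpow_add hQ]
    norm_num
  have e2 : P ^ (α / 2) ≤ R ^ (α / 2) := Real.rpow_le_rpow h0.le h1 (by linarith)
  have e3 : R ^ (α / 2) * R ^ (1 - α) = R ^ (1 - α / 2) := by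
    rw [← Real.rpow_add hR]
    congr 1
    ring
  have e4 : Q ^ (1 - α) ≤ 2 * R ^ (1 - α) := by
    calc Q ^ (1 - α) ≤ (2 * R) ^ (1 - α) := Real.rpow_le_rpow hQ.le h3 (by linarith)
      _ = 2 ^ (1 - α) * R ^ (1 - α) := Real.mul_rpow (by norm_num) hR.le
      _ ≤ 2 * R ^ (1 - α) := by
        gcongr
        exact two_rpow_le (by linarith)
  calc P * Q = P ^ (1 - α / 2) * P ^ (α / 2) * (Q ^ α * Q ^ (1 - α)) := by rw [← e1, ← e1']
    _ ≤ P ^ (1 - α / 2) * R ^ (α / 2) * (Q ^ α * (2 * R ^ (1 - α))) := by gcongr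
    _ = 2 * (P ^ (1 - α / 2) * Q ^ α * (R ^ (α / 2) * R ^ (1 - α))) := by ring
    _ = _ := by rw [e3]

theorem r3 (h0 : 0 < P) (h1 : P ≤ R) (h2 : R ≤ Q) (h3 : Q ≤ 2 * R) (ha0 : 0 ≤ α) (ha1 : α ≤ 1) :
    P * Q ≤ 2 * (P ^ (1 - α / 2) * Q ^ (1 - α / 2) * R ^ α) := by
  have hR : 0 < R := by linarith
  have hQ : 0 < Q := by linarith
  have e1 : P = P ^ (1 - α / 2) * P ^ (α / 2) := by
    rw [← Real.rpow_add h0]
    norm_num
  have e1' : Q = Q ^ α * Q ^ (1 - α) := by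
    rw [← Real.rpow_add hQ]
    norm_num
  have e2 : P ^ (α / 2) ≤ Q ^ (α / 2) := Real.rpow_le_rpow h0.le (by linarith) (by linarith)
  have e3 : Q ^ (α / 2) * Q ^ (1 - α) = Q ^ (1 - α / 2) := by
    rw [← Real.rpow_add hQ]
    congr 1
    ring
  have e4 : Q ^ α ≤ 2 * R ^ α := by
    calc Q ^ α ≤ (2 * R) ^ α := Real.rpow_le_rpow hQ.le h3 (by linarith)
      _ = 2 ^ α * R ^ α := Real.mul_rpow (by norm_num) hR.le
      _ ≤ 2 * R ^ α := by
        gcongr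
        exact two_rpow_le (by linarith)
  calc P * Q = P ^ (1 - α / 2) * P ^ (α / 2) * (Q ^ α * Q ^ (1 - α)) := by rw [← e1, ← e1']
    _ ≤ P ^ (1 - α / 2) * Q ^ (α / 2) * (2 * R ^ α * Q ^ (1 - α)) := by gcongr
    _ = 2 * (P ^ (1 - α / 2) * (Q ^ (α / 2) * Q ^ (1 - α)) * R ^ α) := by ring
    _ = _ := by rw [e3]

theorem sq_le_two (hR : 0 ≤ R) (h : Q ≤ 2 * R) : Real.sqrt Q ≤ 2 * Real.sqrt R := by
  calc Real.sqrt Q ≤ Real.sqrt (2 ^ 2 * R) := Real.sqrt_le_sqrt (by linarith)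
    _ = 2 * Real.sqrt R := by
      rw [Real.sqrt_mul (by positivity), Real.sqrt_sq (by norm_num)]

theorem q1 {κ x y : ℝ} (hκ : 0 ≤ κ) (hx : 0 ≤ x) (hy : 0 ≤ y) (h0 : 0 < P) (h1 : P ≤ R)
    (h2 : R ≤ Q) (h3 : Q ≤ 2 * R) :
    P * Q * (κ / P ^ 2 * x * y) ≤ 2 * ((κ / P) * (Real.sqrt Q * x) * (Real.sqrt R * y)) := by
  have hR : 0 < R := by linarith
  have hQ : 0 < Q := by linarith
  have e1 : Real.sqrt Q ≤ 2 * Real.sqrt R := sq_le_two hR.le h3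
  have e2 : Real.sqrt Q * Real.sqrt Q = Q := Real.mul_self_sqrt hQ.le
  have e3 : P * Q * (κ / P ^ 2 * x * y) = (κ / P) * (Q * (x * y)) := by
    field_simp
  rw [e3]
  calc κ / P * (Q * (x * y)) = κ / P * (Real.sqrt Q * Real.sqrt Q * (x * y)) := by rw [e2]
    _ ≤ κ / P * (Real.sqrt Q * (2 * Real.sqrt R) * (x * y)) := by gcongr
    _ = _ := by ring

theorem PL (h0 : 0 < P) (hQ : 0 < Q) : P * Real.sqrt (Q / P) = Real.sqrt P * Real.sqrt Q := by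
  rw [Real.sqrt_div hQ.le]
  have h1 : 0 < Real.sqrt P := Real.sqrt_pos.2 h0
  have h2 : Real.sqrt P * Real.sqrt P = P := Real.mul_self_sqrt h0.le
  rw [mul_div_assoc', div_eq_iff h1.ne']
  calc P * Real.sqrt Q = (Real.sqrt P * Real.sqrt P) * Real.sqrt Q := by rw [h2]
    _ = _ := by ring

theorem q2 {κ x y : ℝ} (hκ : 0 ≤ κ) (hx : 0 ≤ x) (hy : 0 ≤ y) (h0 : 0 < P) (h1 : P ≤ R)
    (h2 : R ≤ Q) (h3 : Q ≤ 2 * R) :
    P * Q * (x * (κ * Real.sqrt (Q / P) / Q ^ 2) * y)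
      ≤ 2 * ((Real.sqrt P * x) * (κ / Q) * (Real.sqrt R * y)) := by
  have hR : 0 < R := by linarith
  have hQ : 0 < Q := by linarith
  have e1 : Real.sqrt Q ≤ 2 * Real.sqrt R := sq_le_two hR.le h3
  have e3 : P * Q * (x * (κ * Real.sqrt (Q / P) / Q ^ 2) * y)
      = (κ / Q) * ((P * Real.sqrt (Q / P)) * (x * y)) := by
    field_simp
  rw [e3, PL h0 hQ]
  calc κ / Q * (Real.sqrt P * Real.sqrt Q * (x * y))
      ≤ κ / Q * (Real.sqrt P * (2 * Real.sqrt R) * (x * y)) := by gcongr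
    _ = _ := by ring

theorem q3 {κ x y : ℝ} (hκ : 0 ≤ κ) (hx : 0 ≤ x) (hy : 0 ≤ y) (h0 : 0 < P) (h1 : P ≤ R)
    (h2 : R ≤ Q) (h3 : Q ≤ 2 * R) :
    P * Q * (x * y * (κ * Real.sqrt (Q / P) / R ^ 2))
      ≤ 2 * ((Real.sqrt P * x) * (Real.sqrt Q * y) * (κ / R)) := by
  have hR : 0 < R := by linarith
  have hQ : 0 < Q := by linarith
  have e3 : P * Q * (x * y * (κ * Real.sqrt (Q / P) / R ^ 2))
      = (κ / R ^ 2) * ((P * Real.sqrt (Q / P)) * (x * y)) * Q := by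
    ring
  have e5 : κ / R = κ / R ^ 2 * R := by field_simp
  rw [e3, PL h0 hQ, e5]
  calc κ / R ^ 2 * (Real.sqrt P * Real.sqrt Q * (x * y)) * Q
      ≤ κ / R ^ 2 * (Real.sqrt P * Real.sqrt Q * (x * y)) * (2 * R) := by gcongr
    _ = _ := by ring

end real

/-- the estimate of one term, real form -/
theorem term_can {x : Bool → K3 → ℝ} {w : K3 → ℝ} {A : Bool → Set K3} {S : Set K3} {κ α : ℝ}
    (hκ : 0 ≤ κ) (ha0 : 0 ≤ α) (ha1 : α ≤ 1) (hx0 : ∀ i k, 0 ≤ x i k) (hxw : ∀ i k, x i k ≤ w k)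
    {p q r : K3} (hA : ∀ i k, k ≠ 0 → k ∉ A i →
      x i k ≤ κ * Real.sqrt ((N q : ℝ) / N p) / (N k : ℝ) ^ 2) (hp : p ≠ 0)
    (h1 : N p ≤ N r) (h2 : N r ≤ N q) (h3 : N q ≤ 2 * N r) (i j k : Bool)
    (hit : p ∈ A i → q ∈ A j → r ∈ A k → p ∈ S ∨ q ∈ S ∨ r ∈ S) :
    (N p : ℝ) * N q * (x i p * x j q * x k r) ≤
      2 * ((κ * Real.sqrt ((N q : ℝ) / N p) / N p) * (Real.sqrt (N q) * w q) * (Real.sqrt (N r) * w r)
        + (Real.sqrt (N p) * w p) * (κ / N q) * (Real.sqrt (N r) * w r)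
        + (Real.sqrt (N p) * w p) * (Real.sqrt (N q) * w q) * (κ / N r))
      + 2 * (sI S p * ((N p : ℝ) ^ α * w p) * ((N q : ℝ) ^ (1 - α / 2) * w q)
            * ((N r : ℝ) ^ (1 - α / 2) * w r)
        + ((N p : ℝ) ^ (1 - α / 2) * w p) * (sI S q * ((N q : ℝ) ^ α * w q))
            * ((N r : ℝ) ^ (1 - α / 2) * w r)
        + ((N p : ℝ) ^ (1 - α / 2) * w p) * ((N q : ℝ) ^ (1 - α / 2) * w q)
            * (sI S r * ((N r : ℝ) ^ α * w r))) := by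
  have hNp : 0 < N p := Q186.AM.N_pos hp
  have hP : (0 : ℝ) < N p := by exact_mod_cast hNp
  have H1 : (N p : ℝ) ≤ N r := by exact_mod_cast h1
  have H2 : (N r : ℝ) ≤ N q := by exact_mod_cast h2
  have H3 : (N q : ℝ) ≤ 2 * N r := by exact_mod_cast h3
  have hR : (0 : ℝ) < N r := by linarith
  have hQ : (0 : ℝ) < N q := by linarith
  have hr : r ≠ 0 := fun h => by rw [h, N_eq_zero.2 rfl] at hR; simp at hR
  have hq : q ≠ 0 := fun h => by rw [h, N_eq_zero.2 rfl] at hQ; simp at hQ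
  have w1 : 0 ≤ w p := (hx0 i p).trans (hxw i p)
  have w2 : 0 ≤ w q := (hx0 i q).trans (hxw i q)
  have w3 : 0 ≤ w r := (hx0 i r).trans (hxw i r)
  have s1 := sI_nonneg S p
  have s2 := sI_nonneg S q
  have s3 := sI_nonneg S r
  set L : ℝ := Real.sqrt ((N q : ℝ) / N p) with hL
  have hL0 : 0 ≤ L := Real.sqrt_nonneg _
  have hκL : 0 ≤ κ * L := by positivity
  have key := term_le hκL hx0 hxw hA hp hq hr i j k hit
  have g1 := q1 (κ := κ * L) hκL w2 w3 hP H1 H2 H3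
  have g2 := q2 hκ w1 w3 hP H1 H2 H3
  have g3 := q3 hκ w1 w2 hP H1 H2 H3
  rw [← hL] at g2 g3
  have f1 := r1 hP H1 H2 H3 ha0 ha1
  have f2 := r2 hP H1 H2 H3 ha0 ha1
  have f3 := r3 hP H1 H2 H3 ha0 ha1
  have k1 : (N p : ℝ) * N q * (sI S p * (w p * w q * w r)) ≤ 2 * (sI S p * ((N p : ℝ) ^ α * w p)
      * ((N q : ℝ) ^ (1 - α / 2) * w q) * ((N r : ℝ) ^ (1 - α / 2) * w r)) := by
    calc (N p : ℝ) * N q * (sI S p * (w p * w q * w r))
        ≤ (2 * ((N p : ℝ) ^ α * (N q : ℝ) ^ (1 - α / 2) * (N r : ℝ) ^ (1 - α / 2)))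
          * (sI S p * (w p * w q * w r)) := by gcongr
      _ = _ := by ring
  have k2 : (N p : ℝ) * N q * (sI S q * (w p * w q * w r)) ≤ 2 * (((N p : ℝ) ^ (1 - α / 2) * w p)
      * (sI S q * ((N q : ℝ) ^ α * w q)) * ((N r : ℝ) ^ (1 - α / 2) * w r)) := by
    calc (N p : ℝ) * N q * (sI S q * (w p * w q * w r))
        ≤ (2 * ((N p : ℝ) ^ (1 - α / 2) * (N q : ℝ) ^ α * (N r : ℝ) ^ (1 - α / 2)))
          * (sI S q * (w p * w q * w r)) := by gcongr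
      _ = _ := by ring
  have k3 : (N p : ℝ) * N q * (sI S r * (w p * w q * w r)) ≤ 2 * (((N p : ℝ) ^ (1 - α / 2) * w p)
      * ((N q : ℝ) ^ (1 - α / 2) * w q) * (sI S r * ((N r : ℝ) ^ α * w r))) := by
    calc (N p : ℝ) * N q * (sI S r * (w p * w q * w r))
        ≤ (2 * ((N p : ℝ) ^ (1 - α / 2) * (N q : ℝ) ^ (1 - α / 2) * (N r : ℝ) ^ α))
          * (sI S r * (w p * w q * w r)) := by gcongr
      _ = _ := by ring
  calc (N p : ℝ) * N q * (x i p * x j q * x k r)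
      ≤ (N p : ℝ) * N q * (κ * L / (N p : ℝ) ^ 2 * w q * w r + w p * (κ * L / (N q : ℝ) ^ 2) * w r
      + w p * w q * (κ * L / (N r : ℝ) ^ 2) + (sI S p + sI S q + sI S r) * (w p * w q * w r)) := by
        gcongr
    _ = (N p : ℝ) * N q * (κ * L / (N p : ℝ) ^ 2 * w q * w r)
        + (N p : ℝ) * N q * (w p * (κ * L / (N q : ℝ) ^ 2) * w r)
        + (N p : ℝ) * N q * (w p * w q * (κ * L / (N r : ℝ) ^ 2))
        + (N p : ℝ) * N q * (sI S p * (w p * w q * w r))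
        + (N p : ℝ) * N q * (sI S q * (w p * w q * w r))
        + (N p : ℝ) * N q * (sI S r * (w p * w q * w r)) := by ring
    _ ≤ _ := by linarith

end Q186.HT
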