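import Pool.Agent.Q186.HT.C
import Pool.Agent.Q63.Hel.Sum

/-!
Summation over the ordered triads.
-/

open Set Filter Topology
open scoped ENNReal

namespace Q186.HT

open H459R3.NS hiding tt box
open Pool.Agent.Q63 Pool.Agent.Q63.Win
open Pool.Agent.Q63.Hel hiding PP
open Q186.AM (lemC PP tsum_refl two_mul_le_add_sq')

/-! ### Three sums -/

theorem of3 {a b c : ℝ} (ha : 0 ≤ a) (hb : 0 ≤ b) : ENNReal.ofReal (a * b * c)
    = ENNReal.ofReal a * ENNReal.ofReal b * ENNReal.ofReal c := by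
  rw [ENNReal.ofReal_mul (mul_nonneg ha hb), ENNReal.ofReal_mul ha]

theorem conv_le (g : K3 → ℝ≥0∞) (p : K3) : ∑' q, g q * g (-p - q) ≤ ∑' q, g q ^ 2 := by
  have h : 2 * ∑' q, g q * g (-p - q) ≤ 2 * ∑' q, g q ^ 2 := by
    calc 2 * ∑' q, g q * g (-p - q) = ∑' q, 2 * (g q * g (-p - q)) := ENNReal.tsum_mul_left.symm
      _ ≤ ∑' q, (g q ^ 2 + g (-p - q) ^ 2) :=
          ENNReal.tsum_le_tsum fun q => two_mul_le_add_sq' _ _
      _ = ∑' q, g q ^ 2 + ∑' q, g q ^ 2 := by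
          rw [ENNReal.tsum_add, tsum_refl (fun q => g q ^ 2) p]
      _ = _ := (two_mul _).symm
  exact (ENNReal.mul_le_mul_iff_right (by norm_num) (by norm_num)).1 h

theorem s1_le (f g : K3 → ℝ≥0∞) :
    ∑' z : K3 × K3, f z.1 * g z.2 * g (-z.1 - z.2) ≤ (∑' p, f p) * ∑' q, g q ^ 2 := by
  rw [ENNReal.tsum_prod (f := fun p q => f p * g q * g (-p - q)), ← ENNReal.tsum_mul_right]
  refine ENNReal.tsum_le_tsum fun p => ?_
  simp_rw [mul_assoc]
  rw [ENNReal.tsum_mul_left]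
  exact mul_le_mul_right (conv_le g p) _

theorem s2_le (f g : K3 → ℝ≥0∞) :
    ∑' z : K3 × K3, g z.1 * f z.2 * g (-z.1 - z.2) ≤ (∑' p, f p) * ∑' q, g q ^ 2 := by
  refine le_trans (le_of_eq ?_) (s1_le f g)
  rw [← (Equiv.prodComm K3 K3).tsum_eq]
  refine tsum_congr fun z => ?_
  show g z.2 * f z.1 * g (-z.2 - z.1) = _
  rw [show -z.2 - z.1 = -z.1 - z.2 by abel]
  ring

theorem s3_le (f g : K3 → ℝ≥0∞) :
    ∑' z : K3 × K3, g z.1 * g z.2 * f (-z.1 - z.2) ≤ (∑' p, f p) * ∑' q, g q ^ 2 := by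
  refine le_trans (le_of_eq ?_) (s2_le f g)
  rw [← e2.tsum_eq]
  refine tsum_congr fun z => ?_
  show g z.1 * g (-z.1 - z.2) * f (-z.1 - (-z.1 - z.2)) = _
  rw [show -z.1 - (-z.1 - z.2) = z.2 by abel]
  ring

open scoped Classical in
/-- the sum for an inactive smallest member -/
theorem lemB2 {κ : ℝ} (hκ : 0 ≤ κ) (w : K3 → ℝ≥0∞) :
    ∑' p : K3, ∑' q : K3, (if 0 < N p ∧ N p ≤ N q ∧ N p ≤ N (-p - q) ∧ N q ≤ 2 * N (-p - q) then
      ENNReal.ofReal (κ * Real.sqrt ((N q : ℝ) / N p) / N p) * w q * w (-p - q) else 0)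
      ≤ ENNReal.ofReal (39 * κ) * PP w := by
  set X : K3 → K3 → ℝ≥0∞ := fun p q => if 0 < N p ∧ N p ≤ N q then
    ENNReal.ofReal (κ * Real.sqrt ((N q : ℝ) / N p) / N p) * w q ^ 2 else 0 with hX
  have h1 : ∀ p q, 2 * (if 0 < N p ∧ N p ≤ N q ∧ N p ≤ N (-p - q) ∧ N q ≤ 2 * N (-p - q) then
      ENNReal.ofReal (κ * Real.sqrt ((N q : ℝ) / N p) / N p) * w q * w (-p - q) else 0)
      ≤ X p q + 2 * X p (-p - q) := by
    intro p q
    split_ifs with h
    · simp only [hX]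
      rw [if_pos ⟨h.1, h.2.1⟩, if_pos ⟨h.1, h.2.2.1⟩]
      have hp : (0 : ℝ) < N p := by exact_mod_cast h.1
      have hqr : (N q : ℝ) ≤ 2 * N (-p - q) := by exact_mod_cast h.2.2.2
      have e : ENNReal.ofReal (κ * Real.sqrt ((N q : ℝ) / N p) / N p)
          ≤ 2 * ENNReal.ofReal (κ * Real.sqrt ((N (-p - q) : ℝ) / N p) / N p) := by
        rw [show (2 : ℝ≥0∞) = ENNReal.ofReal 2 by norm_num, ← ENNReal.ofReal_mul (by norm_num)]
        apply ENNReal.ofReal_le_ofReal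
        have h3 : Real.sqrt ((N q : ℝ) / N p) ≤ 2 * Real.sqrt ((N (-p - q) : ℝ) / N p) := by
          apply sq_le_two (by positivity)
          rw [mul_div_assoc']
          gcongr
        calc κ * Real.sqrt ((N q : ℝ) / N p) / N p
            ≤ κ * (2 * Real.sqrt ((N (-p - q) : ℝ) / N p)) / N p := by gcongr
          _ = _ := by ring
      calc 2 * (ENNReal.ofReal (κ * Real.sqrt ((N q : ℝ) / N p) / N p) * w q * w (-p - q))
          = ENNReal.ofReal (κ * Real.sqrt ((N q : ℝ) / N p) / N p) * (2 * (w q * w (-p - q))) := by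
            ring
        _ ≤ ENNReal.ofReal (κ * Real.sqrt ((N q : ℝ) / N p) / N p) * (w q ^ 2 + w (-p - q) ^ 2) := by
            gcongr
            exact two_mul_le_add_sq' _ _
        _ = ENNReal.ofReal (κ * Real.sqrt ((N q : ℝ) / N p) / N p) * w q ^ 2
            + ENNReal.ofReal (κ * Real.sqrt ((N q : ℝ) / N p) / N p) * w (-p - q) ^ 2 := by ring
        _ ≤ ENNReal.ofReal (κ * Real.sqrt ((N q : ℝ) / N p) / N p) * w q ^ 2
            + (2 * ENNReal.ofReal (κ * Real.sqrt ((N (-p - q) : ℝ) / N p) / N p))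
              * w (-p - q) ^ 2 := by
            gcongr
        _ = _ := by ring
    · simp
  have h2 : ∑' p, ∑' q, X p q ≤ ENNReal.ofReal (26 * κ) * PP w := by
    rw [ENNReal.tsum_comm]
    unfold PP
    rw [← ENNReal.tsum_mul_left]
    refine ENNReal.tsum_le_tsum fun q => ?_
    have e1 : ∀ p, X p q = (ENNReal.ofReal (κ * Real.sqrt (N q)) * w q ^ 2) *
        (if 0 < N p ∧ N p ≤ N q then ENNReal.ofReal ((N p : ℝ) ^ (-(3 / 2) : ℝ)) else 0) := by
      intro p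
      simp only [hX]
      split_ifs with h
      · have hp : (0 : ℝ) < N p := by exact_mod_cast h.1
        have e3 : κ * Real.sqrt ((N q : ℝ) / N p) / N p
            = κ * Real.sqrt (N q) * (N p : ℝ) ^ (-(3 / 2) : ℝ) := by
          rw [Real.sqrt_div (Nat.cast_nonneg _), Real.rpow_neg hp.le,
            show (3 / 2 : ℝ) = 1 / 2 + 1 by norm_num, Real.rpow_add hp, Real.rpow_one,
            ← Real.sqrt_eq_rpow]
          field_simp
        rw [e3, ENNReal.ofReal_mul (by positivity)]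
        ring
      · simp
    simp_rw [e1]
    rw [ENNReal.tsum_mul_left]
    refine (mul_le_mul_right (Q186.AM.lat_enn (β := -(3 / 2)) (by norm_num) (N q)) _).trans
      (le_of_eq ?_)
    have e2 : 26 / min (-(3 / 2 : ℝ) + 3) 1 * (N q : ℝ) ^ (-(3 / 2 : ℝ) + 3)
        = 26 * (N q : ℝ) ^ (3 / 2 : ℝ) := by
      rw [show -(3 / 2 : ℝ) + 3 = 3 / 2 by norm_num, min_eq_right (by norm_num)]
      norm_num
    rw [e2]
    have e4 : κ * Real.sqrt (N q) * (26 * (N q : ℝ) ^ (3 / 2 : ℝ)) = 26 * κ * (N q : ℝ) ^ 2 := by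
      have e5 : Real.sqrt (N q) * (N q : ℝ) ^ (3 / 2 : ℝ) = (N q : ℝ) ^ 2 := by
        rw [Real.sqrt_eq_rpow, ← Real.rpow_add_of_nonneg (Nat.cast_nonneg _) (by norm_num)
          (by norm_num), ← Real.rpow_two]
        norm_num
      calc κ * Real.sqrt (N q) * (26 * (N q : ℝ) ^ (3 / 2 : ℝ))
          = 26 * κ * (Real.sqrt (N q) * (N q : ℝ) ^ (3 / 2 : ℝ)) := by ring
        _ = _ := by rw [e5]
    calc ENNReal.ofReal (κ * Real.sqrt (N q)) * w q ^ 2
          * ENNReal.ofReal (26 * (N q : ℝ) ^ (3 / 2 : ℝ))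
        = (ENNReal.ofReal (κ * Real.sqrt (N q)) * ENNReal.ofReal (26 * (N q : ℝ) ^ (3 / 2 : ℝ)))
          * w q ^ 2 := by ring
      _ = ENNReal.ofReal (26 * κ * (N q : ℝ) ^ 2) * w q ^ 2 := by
          rw [← ENNReal.ofReal_mul (by positivity), e4]
      _ = _ := by
          rw [ENNReal.ofReal_mul (by positivity), ENNReal.ofReal_pow (Nat.cast_nonneg _),
            ENNReal.ofReal_natCast]
          ring
  have h3 : 2 * ∑' p : K3, ∑' q : K3, (if 0 < N p ∧ N p ≤ N q ∧ N p ≤ N (-p - q) ∧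
      N q ≤ 2 * N (-p - q) then
      ENNReal.ofReal (κ * Real.sqrt ((N q : ℝ) / N p) / N p) * w q * w (-p - q) else 0)
      ≤ 2 * (ENNReal.ofReal (39 * κ) * PP w) := by
    rw [← ENNReal.tsum_mul_left]
    simp_rw [← ENNReal.tsum_mul_left]
    calc _ ≤ ∑' p, ∑' q, (X p q + 2 * X p (-p - q)) :=
          ENNReal.tsum_le_tsum fun p => ENNReal.tsum_le_tsum fun q => h1 p q
      _ = ∑' p, ∑' q, X p q + 2 * ∑' p, ∑' q, X p q := by
          rw [← ENNReal.tsum_mul_left, ← ENNReal.tsum_add]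
          refine tsum_congr fun p => ?_
          rw [ENNReal.tsum_add, ENNReal.tsum_mul_left, tsum_refl (X p) p]
      _ ≤ ENNReal.ofReal (26 * κ) * PP w + 2 * (ENNReal.ofReal (26 * κ) * PP w) := by
          gcongr
      _ = 2 * (ENNReal.ofReal (39 * κ) * PP w) := by
          rw [ENNReal.ofReal_mul (by norm_num : (0 : ℝ) ≤ 26),
            ENNReal.ofReal_mul (by norm_num : (0 : ℝ) ≤ 39)]
          simp only [ENNReal.ofReal_ofNat]
          ring
  exact (ENNReal.mul_le_mul_iff_right (by norm_num) (by norm_num)).1 h3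

section

variable (w : K3 → ℝ) (S : Set K3) (κ α θ : ℝ)

noncomputable def WW (k : K3) : ℝ≥0∞ := ENNReal.ofReal (Real.sqrt (N k) * w k)

noncomputable def FS (k : K3) : ℝ≥0∞ := ENNReal.ofReal (sI S k * ((N k : ℝ) ^ α * w k))

noncomputable def GS (k : K3) : ℝ≥0∞ := ENNReal.ofReal ((N k : ℝ) ^ (1 - α / 2) * w k)

open scoped Classical in
noncomputable def tB (p q : K3) : ℝ≥0∞ :=
  if 0 < N p ∧ N p ≤ N q ∧ N p ≤ N (-p - q) ∧ N q ≤ 2 * N (-p - q) then
    ENNReal.ofReal (κ * Real.sqrt ((N q : ℝ) / N p) / N p) * WW w q * WW w (-p - q) else 0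

open scoped Classical in
noncomputable def tC (p q : K3) : ℝ≥0∞ := if 0 < N p ∧ N p ≤ N q ∧ N p ≤ N (-p - q) then
  WW w p * ENNReal.ofReal (κ / N q) * WW w (-p - q) else 0

open scoped Classical in
noncomputable def tL (z : K3 × K3) : ℝ≥0∞ := if Can z ∧ (N z.1 : ℝ) ≤ (N z.2 : ℝ) ^ θ then
  ENNReal.ofReal (6 * (N z.1 * N z.2) * (w z.1 * w z.2 * w (-z.1 - z.2))) else 0

end

/-- the pointwise estimate -/
theorem can_le {x : Bool → K3 → ℝ} {w : K3 → ℝ} {A : ℝ → Bool → Set K3} {S : Set K3} {κ α θ : ℝ}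
    (hκ : 0 ≤ κ) (ha0 : 0 ≤ α) (ha1 : α ≤ 1) (hx0 : ∀ i k, 0 ≤ x i k) (hxw : ∀ i k, x i k ≤ w k)
    (hA : ∀ L i k, k ≠ 0 → k ∉ A L i → x i k ≤ κ * L / (N k : ℝ) ^ 2) (z : K3 × K3)
    (hit : Can z → crossProduct z.1 z.2 ≠ 0 → (N z.2 : ℝ) ^ θ < N z.1 →
      ∀ i j k, ¬ (i = j ∧ j = k) → z.1 ∈ A (Real.sqrt ((N z.2 : ℝ) / N z.1)) i →
      z.2 ∈ A (Real.sqrt ((N z.2 : ℝ) / N z.1)) j →
      -z.1 - z.2 ∈ A (Real.sqrt ((N z.2 : ℝ) / N z.1)) k →
      z.1 ∈ S ∨ z.2 ∈ S ∨ -z.1 - z.2 ∈ S) :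
    cG (MX (x true) (x false)) z ≤ tL w θ z
      + 6 * (2 * (tB w κ z.1 z.2 + tC w κ z.1 z.2
          + tC w κ z.1 (-z.1 - z.2))
        + 2 * (FS w S α z.1 * GS w α z.2 * GS w α (-z.1 - z.2)
          + GS w α z.1 * FS w S α z.2 * GS w α (-z.1 - z.2)
          + GS w α z.1 * GS w α z.2 * FS w S α (-z.1 - z.2))) := by
  classical
  unfold cG
  split_ifs with hc
  swap
  · exact bot_le
  have w0 : ∀ k, 0 ≤ w k := fun k => (hx0 true k).trans (hxw true k)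
  have x1 := hx0 true z.1
  unfold MX
  split_ifs with hcr
  swap
  · rw [mul_zero, ENNReal.ofReal_zero]
    exact bot_le
  rcases le_or_gt (N z.1 : ℝ) ((N z.2 : ℝ) ^ θ) with hlow | hhigh
  · -- low
    refine le_add_right ?_
    unfold tL
    rw [if_pos ⟨hc, hlow⟩]
    apply ENNReal.ofReal_le_ofReal
    have h1 : ∀ i j k, x i z.1 * x j z.2 * x k (-z.1 - z.2) ≤ w z.1 * w z.2 * w (-z.1 - z.2) := by
      intro i j k
      have a1 := hx0 i z.1
      have a2 := hx0 j z.2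
      have a3 := hx0 k (-z.1 - z.2)
      have b1 := hxw i z.1
      have b2 := hxw j z.2
      have b3 := hxw k (-z.1 - z.2)
      have w1 := w0 z.1
      have w2 := w0 z.2
      gcongr
    have h2 : mix (x true) (x false) z ≤ 6 * (w z.1 * w z.2 * w (-z.1 - z.2)) := by
      have t1 := h1 true true false
      have t2 := h1 true false true
      have t3 := h1 false true true
      have t4 := h1 false false true
      have t5 := h1 false true false
      have t6 := h1 true false false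
      unfold mix
      linarith
    calc (N z.1 : ℝ) * N z.2 * mix (x true) (x false) z
        ≤ (N z.1 : ℝ) * N z.2 * (6 * (w z.1 * w z.2 * w (-z.1 - z.2))) := by gcongr
      _ = _ := by ring
  · refine le_add_left ?_
    have hc1 : N z.1 ≤ N (-z.1 - z.2) := hc.1
    have hc2 : N (-z.1 - z.2) ≤ N z.2 := hc.2
    rcases eq_or_ne z.1 0 with h0 | h0
    · rw [h0, N_eq_zero.2 rfl]
      simp
    have hNp : 0 < N z.1 := Q186.AM.N_pos h0
    have hc3 : N z.2 ≤ 2 * N (-z.1 - z.2) := by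
      have h3 := Q186.AM.N_add_le (-z.1) (-(-z.1 - z.2))
      rw [N_neg, N_neg, show -z.1 + -(-z.1 - z.2) = z.2 by abel] at h3
      omega
    set T : ℝ := 2 * ((κ * Real.sqrt ((N z.2 : ℝ) / N z.1) / N z.1) * (Real.sqrt (N z.2) * w z.2)
          * (Real.sqrt (N (-z.1 - z.2)) * w (-z.1 - z.2))
        + (Real.sqrt (N z.1) * w z.1) * (κ / N z.2) * (Real.sqrt (N (-z.1 - z.2)) * w (-z.1 - z.2))
        + (Real.sqrt (N z.1) * w z.1) * (Real.sqrt (N z.2) * w z.2) * (κ / N (-z.1 - z.2)))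
      + 2 * (sI S z.1 * ((N z.1 : ℝ) ^ α * w z.1) * ((N z.2 : ℝ) ^ (1 - α / 2) * w z.2)
            * ((N (-z.1 - z.2) : ℝ) ^ (1 - α / 2) * w (-z.1 - z.2))
        + ((N z.1 : ℝ) ^ (1 - α / 2) * w z.1) * (sI S z.2 * ((N z.2 : ℝ) ^ α * w z.2))
            * ((N (-z.1 - z.2) : ℝ) ^ (1 - α / 2) * w (-z.1 - z.2))
        + ((N z.1 : ℝ) ^ (1 - α / 2) * w z.1) * ((N z.2 : ℝ) ^ (1 - α / 2) * w z.2)
            * (sI S (-z.1 - z.2) * ((N (-z.1 - z.2) : ℝ) ^ α * w (-z.1 - z.2)))) with hT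
    have hterm : ∀ i j k, ¬ (i = j ∧ j = k) →
        (N z.1 : ℝ) * N z.2 * (x i z.1 * x j z.2 * x k (-z.1 - z.2)) ≤ T := by
      intro i j k hijk
      exact term_can (p := z.1) (q := z.2) (r := -z.1 - z.2) hκ ha0 ha1 hx0 hxw
        (hA (Real.sqrt ((N z.2 : ℝ) / N z.1))) h0 hc1 hc2 hc3
        i j k (hit hc hcr hhigh i j k hijk)
    have h2 : (N z.1 : ℝ) * N z.2 * mix (x true) (x false) z ≤ 6 * T := by
      have t1 := hterm true true false (by decide)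
      have t2 := hterm true false true (by decide)
      have t3 := hterm false true true (by decide)
      have t4 := hterm false false true (by decide)
      have t5 := hterm false true false (by decide)
      have t6 := hterm true false false (by decide)
      unfold mix
      calc _ = (N z.1 : ℝ) * N z.2 * (x true z.1 * x true z.2 * x false (-z.1 - z.2))
          + (N z.1 : ℝ) * N z.2 * (x true z.1 * x false z.2 * x true (-z.1 - z.2))
          + (N z.1 : ℝ) * N z.2 * (x false z.1 * x true z.2 * x true (-z.1 - z.2))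
          + (N z.1 : ℝ) * N z.2 * (x false z.1 * x false z.2 * x true (-z.1 - z.2))
          + (N z.1 : ℝ) * N z.2 * (x false z.1 * x true z.2 * x false (-z.1 - z.2))
          + (N z.1 : ℝ) * N z.2 * (x true z.1 * x false z.2 * x false (-z.1 - z.2)) := by ring
        _ ≤ _ := by linarith
    refine (ENNReal.ofReal_le_ofReal h2).trans (le_of_eq ?_)
    have n1 := w0 z.1
    have n2 := w0 z.2
    have n3 := w0 (-z.1 - z.2)
    have m1 := sI_nonneg S z.1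
    have m2 := sI_nonneg S z.2
    have m3 := sI_nonneg S (-z.1 - z.2)
    have er : -z.1 - (-z.1 - z.2) = z.2 := by abel
    have eB : tB w κ z.1 z.2 = ENNReal.ofReal ((κ * Real.sqrt ((N z.2 : ℝ) / N z.1) / N z.1)
          * (Real.sqrt (N z.2) * w z.2) * (Real.sqrt (N (-z.1 - z.2)) * w (-z.1 - z.2))) := by
      unfold tB WW
      rw [if_pos ⟨hNp, hc1.trans hc2, hc1, hc3⟩, of3 (by positivity) (by positivity)]
    have eC : tC w κ z.1 z.2 = ENNReal.ofReal ((Real.sqrt (N z.1) * w z.1) * (κ / N z.2)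
        * (Real.sqrt (N (-z.1 - z.2)) * w (-z.1 - z.2))) := by
      unfold tC WW
      rw [if_pos ⟨hNp, hc1.trans hc2, hc1⟩, of3 (by positivity) (by positivity)]
    have eC' : tC w κ z.1 (-z.1 - z.2) = ENNReal.ofReal ((Real.sqrt (N z.1) * w z.1)
        * (Real.sqrt (N z.2) * w z.2) * (κ / N (-z.1 - z.2))) := by
      unfold tC WW
      rw [er, if_pos ⟨hNp, hc1, hc1.trans hc2⟩, of3 (by positivity) (by positivity)]
      ring
    have eS1 : FS w S α z.1 * GS w α z.2 * GS w α (-z.1 - z.2) = ENNReal.ofReal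
        (sI S z.1 * ((N z.1 : ℝ) ^ α * w z.1) * ((N z.2 : ℝ) ^ (1 - α / 2) * w z.2)
            * ((N (-z.1 - z.2) : ℝ) ^ (1 - α / 2) * w (-z.1 - z.2))) := by
      unfold FS GS
      rw [of3 (by positivity) (by positivity)]
    have eS2 : GS w α z.1 * FS w S α z.2 * GS w α (-z.1 - z.2) = ENNReal.ofReal
        (((N z.1 : ℝ) ^ (1 - α / 2) * w z.1) * (sI S z.2 * ((N z.2 : ℝ) ^ α * w z.2))
            * ((N (-z.1 - z.2) : ℝ) ^ (1 - α / 2) * w (-z.1 - z.2))) := by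
      unfold FS GS
      rw [of3 (by positivity) (by positivity)]
    have eS3 : GS w α z.1 * GS w α z.2 * FS w S α (-z.1 - z.2) = ENNReal.ofReal
        (((N z.1 : ℝ) ^ (1 - α / 2) * w z.1) * ((N z.2 : ℝ) ^ (1 - α / 2) * w z.2)
            * (sI S (-z.1 - z.2) * ((N (-z.1 - z.2) : ℝ) ^ α * w (-z.1 - z.2)))) := by
      unfold FS GS
      rw [of3 (by positivity) (by positivity)]
    rw [eB, eC, eC', eS1, eS2, eS3, ← ENNReal.ofReal_add (by positivity) (by positivity),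
      ← ENNReal.ofReal_add (by positivity) (by positivity),
      ← ENNReal.ofReal_add (by positivity) (by positivity),
      ← ENNReal.ofReal_add (by positivity) (by positivity),
      show (2 : ℝ≥0∞) = ENNReal.ofReal 2 by norm_num, ← ENNReal.ofReal_mul (by norm_num),
      ← ENNReal.ofReal_mul (by norm_num), ← ENNReal.ofReal_add (by positivity) (by positivity),
      show (6 : ℝ≥0∞) = ENNReal.ofReal 6 by norm_num, ← ENNReal.ofReal_mul (by norm_num)]

/-- The sum of the low part. -/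
theorem low_le {w : K3 → ℝ} (hw : ∀ k, 0 ≤ w k) (hr : RapR w) {θ : ℝ} (hθ0 : 0 ≤ θ) {δ C : ℝ}
    (hδ : 0 ≤ δ) (hC : 0 ≤ C) (hL : ∀ n : ℕ, Sn w ⌊(n : ℝ) ^ θ⌋₊ ≤ δ * (n : ℝ) ^ 2 + C) :
    ∑' z, tL w θ z ≤ ENNReal.ofReal (27 * δ * XX (fun k => (N k : ℝ) ^ 3) w
      + 9 * C * XX (fun k => (N k : ℝ) ^ 1) w) := by
  classical
  set U1 : K3 × K3 → ℝ≥0∞ := fun z => if (N z.1) ≤ ⌊(N z.2 : ℝ) ^ θ⌋₊ then
    ENNReal.ofReal (3 * (N z.2 * w z.2 ^ 2)) * ENNReal.ofReal (N z.1 * w z.1) else 0 with hU1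
  set U2 : K3 × K3 → ℝ≥0∞ := fun z => if (N z.1) ≤ ⌊((2 * N z.2 : ℕ) : ℝ) ^ θ⌋₊ then
    ENNReal.ofReal (6 * (N z.2 * w z.2 ^ 2)) * ENNReal.ofReal (N z.1 * w z.1) else 0 with hU2
  have hpt : ∀ z, tL w θ z ≤ U1 z + U2 (e2 z) := by
    intro z
    unfold tL
    split_ifs with h
    · obtain ⟨hc, hlow⟩ := h
      have hc1 : N z.1 ≤ N (-z.1 - z.2) := hc.1
      have hc2 : N (-z.1 - z.2) ≤ N z.2 := hc.2
      have hc3 : N z.2 ≤ 2 * N (-z.1 - z.2) := by
        have h3 := Q186.AM.N_add_le (-z.1) (-(-z.1 - z.2))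
        rw [N_neg, N_neg, show -z.1 + -(-z.1 - z.2) = z.2 by abel] at h3
        omega
      have l1 : N z.1 ≤ ⌊(N z.2 : ℝ) ^ θ⌋₊ := Nat.le_floor hlow
      have l2 : N z.1 ≤ ⌊((2 * N (-z.1 - z.2) : ℕ) : ℝ) ^ θ⌋₊ := by
        refine Nat.le_floor (hlow.trans ?_)
        refine Real.rpow_le_rpow (Nat.cast_nonneg _) ?_ hθ0
        exact_mod_cast hc3
      have e1 : U1 z = ENNReal.ofReal (3 * (N z.2 * w z.2 ^ 2) * (N z.1 * w z.1)) := by
        simp only [hU1]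
        rw [if_pos l1, ← ENNReal.ofReal_mul (by positivity)]
      have e2' : U2 (e2 z) = ENNReal.ofReal (6 * (N (-z.1 - z.2) * w (-z.1 - z.2) ^ 2)
          * (N z.1 * w z.1)) := by
        show U2 (z.1, -z.1 - z.2) = _
        simp only [hU2]
        rw [if_pos l2, ← ENNReal.ofReal_mul (by positivity)]
      have w1 := hw z.1
      rw [e1, e2', ← ENNReal.ofReal_add (by positivity) (by positivity)]
      apply ENNReal.ofReal_le_ofReal
      have h4 : w z.2 * w (-z.1 - z.2) ≤ (w z.2 ^ 2 + w (-z.1 - z.2) ^ 2) / 2 := by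
        nlinarith [sq_nonneg (w z.2 - w (-z.1 - z.2))]
      have h5 : (N z.2 : ℝ) ≤ 2 * N (-z.1 - z.2) := by exact_mod_cast hc3
      calc 6 * ((N z.1 : ℝ) * N z.2) * (w z.1 * w z.2 * w (-z.1 - z.2))
          = 6 * ((N z.1 : ℝ) * w z.1) * (N z.2 * (w z.2 * w (-z.1 - z.2))) := by ring
        _ ≤ 6 * ((N z.1 : ℝ) * w z.1) * (N z.2 * ((w z.2 ^ 2 + w (-z.1 - z.2) ^ 2) / 2)) := by
            gcongr
        _ = 3 * (N z.2 * w z.2 ^ 2) * (N z.1 * w z.1)
            + 3 * (N z.2 * w (-z.1 - z.2) ^ 2) * (N z.1 * w z.1) := by ring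
        _ ≤ 3 * (N z.2 * w z.2 ^ 2) * (N z.1 * w z.1)
            + 3 * ((2 * N (-z.1 - z.2)) * w (-z.1 - z.2) ^ 2) * (N z.1 * w z.1) := by gcongr
        _ = _ := by ring
    · exact bot_le
  have gen : ∀ (m : ℕ) (c : ℝ), 0 ≤ c → ∑' z : K3 × K3, (if (N z.1) ≤ ⌊((m * N z.2 : ℕ) : ℝ) ^ θ⌋₊ then
      ENNReal.ofReal (c * (N z.2 * w z.2 ^ 2)) * ENNReal.ofReal (N z.1 * w z.1) else 0)
      ≤ ∑' q, ENNReal.ofReal (c * (N q * w q ^ 2) * (δ * (m * N q) ^ 2 + C)) := by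
    intro m c hc
    rw [ENNReal.tsum_prod (f := fun p q => if (N p) ≤ ⌊((m * N q : ℕ) : ℝ) ^ θ⌋₊ then
      ENNReal.ofReal (c * (N q * w q ^ 2)) * ENNReal.ofReal (N p * w p) else 0), ENNReal.tsum_comm]
    refine ENNReal.tsum_le_tsum fun q => ?_
    have e : ∀ p, (if (N p) ≤ ⌊((m * N q : ℕ) : ℝ) ^ θ⌋₊ then
      ENNReal.ofReal (c * (N q * w q ^ 2)) * ENNReal.ofReal (N p * w p) else 0)
      = ENNReal.ofReal (c * (N q * w q ^ 2)) * (if (N p) ≤ ⌊((m * N q : ℕ) : ℝ) ^ θ⌋₊ then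
        ENNReal.ofReal (N p * w p) else 0) := by
      intro p
      split_ifs <;> simp
    simp_rw [e]
    rw [ENNReal.tsum_mul_left, tsum_box w hw, ← ENNReal.ofReal_mul (by positivity)]
    apply ENNReal.ofReal_le_ofReal
    have := hL (m * N q)
    push_cast at this ⊢
    gcongr
  have g1 := gen 1 3 (by norm_num)
  have g2 := gen 2 6 (by norm_num)
  have s1 : ∑' z, U1 z ≤ ∑' q, ENNReal.ofReal (3 * (N q * w q ^ 2) * (δ * ((1 : ℕ) * N q) ^ 2 + C)) := by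
    refine le_trans (le_of_eq ?_) g1
    refine tsum_congr fun z => ?_
    simp only [hU1, one_mul]
  have s2 : ∑' z, U2 (e2 z) ≤
      ∑' q, ENNReal.ofReal (6 * (N q * w q ^ 2) * (δ * ((2 : ℕ) * N q) ^ 2 + C)) := by
    rw [e2.tsum_eq U2]
    exact g2
  calc ∑' z, tL w θ z ≤ ∑' z, (U1 z + U2 (e2 z)) := ENNReal.tsum_le_tsum hpt
    _ = ∑' z, U1 z + ∑' z, U2 (e2 z) := ENNReal.tsum_add
    _ ≤ ∑' q, ENNReal.ofReal (3 * (N q * w q ^ 2) * (δ * ((1 : ℕ) * N q) ^ 2 + C))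
        + ∑' q, ENNReal.ofReal (6 * (N q * w q ^ 2) * (δ * ((2 : ℕ) * N q) ^ 2 + C)) :=
        add_le_add s1 s2
    _ = ∑' q, ENNReal.ofReal (27 * δ * ((N q : ℝ) ^ 3 * w q ^ 2)
        + 9 * C * ((N q : ℝ) ^ 1 * w q ^ 2)) := by
        rw [← ENNReal.tsum_add]
        refine tsum_congr fun q => ?_
        rw [← ENNReal.ofReal_add (by positivity) (by positivity)]
        congr 1
        push_cast
        ring
    _ = _ := by
        have t3 := XX_summable (pol_pow 3) hr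
        have t1 := XX_summable (pol_pow 1) hr
        rw [← ENNReal.ofReal_tsum_of_nonneg (fun q => by positivity)
          ((t3.mul_left _).add (t1.mul_left _)), (t3.mul_left _).tsum_add (t1.mul_left _),
          tsum_mul_left, tsum_mul_left]
        rfl

theorem PP_WW {w : K3 → ℝ} (hw : ∀ k, 0 ≤ w k) (hr : RapR w) :
    PP (WW w) = ENNReal.ofReal (XX (fun k => (N k : ℝ) ^ 3) w) := by
  unfold PP XX
  rw [ENNReal.ofReal_tsum_of_nonneg (fun k => by positivity) (XX_summable (pol_pow 3) hr)]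
  refine tsum_congr fun k => ?_
  unfold WW
  have h1 := hw k
  rw [show (N k : ℝ≥0∞) = ENNReal.ofReal (N k : ℝ) by simp,
    ← ENNReal.ofReal_mul (Nat.cast_nonneg _), ← ENNReal.ofReal_pow (by positivity)]
  congr 1
  have h2 : Real.sqrt (N k : ℝ) ^ 2 = N k := Real.sq_sqrt (Nat.cast_nonneg _)
  calc ((N k : ℝ) * (Real.sqrt (N k : ℝ) * w k)) ^ 2
      = (N k : ℝ) ^ 2 * Real.sqrt (N k : ℝ) ^ 2 * w k ^ 2 := by ring
    _ = _ := by rw [h2]; ring

/-- The sum over the ordered triads. -/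
theorem sum_can_le {x : Bool → K3 → ℝ} {w : K3 → ℝ} {A : ℝ → Bool → Set K3} {S : Set K3} {κ α θ : ℝ}
    (hκ : 0 ≤ κ) (ha0 : 0 ≤ α) (ha1 : α ≤ 1) (hx0 : ∀ i k, 0 ≤ x i k) (hxw : ∀ i k, x i k ≤ w k)
    (hA : ∀ L i k, k ≠ 0 → k ∉ A L i → x i k ≤ κ * L / (N k : ℝ) ^ 2)
    (hit : ∀ z, Can z → crossProduct z.1 z.2 ≠ 0 → (N z.2 : ℝ) ^ θ < N z.1 →
      ∀ i j k, ¬ (i = j ∧ j = k) → z.1 ∈ A (Real.sqrt ((N z.2 : ℝ) / N z.1)) i →
      z.2 ∈ A (Real.sqrt ((N z.2 : ℝ) / N z.1)) j →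
      -z.1 - z.2 ∈ A (Real.sqrt ((N z.2 : ℝ) / N z.1)) k →
      z.1 ∈ S ∨ z.2 ∈ S ∨ -z.1 - z.2 ∈ S)
    (hr : RapR w) (hθ0 : 0 ≤ θ) {δ C : ℝ}
    (hδ : 0 ≤ δ) (hC : 0 ≤ C) (hL : ∀ n : ℕ, Sn w ⌊(n : ℝ) ^ θ⌋₊ ≤ δ * (n : ℝ) ^ 2 + C) :
    ∑' z, cG (MX (x true) (x false)) z ≤
      ENNReal.ofReal ((27 * δ + 5460 * κ) * XX (fun k => (N k : ℝ) ^ 3) w
        + 9 * C * XX (fun k => (N k : ℝ) ^ 1) w)
      + 36 * ((∑' k, FS w S α k) * ∑' k, GS w α k ^ 2) := by
  have w0 : ∀ k, 0 ≤ w k := fun k => (hx0 true k).trans (hxw true k)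
  have hlow := low_le w0 hr hθ0 hδ hC hL
  have X3 : 0 ≤ XX (fun k => (N k : ℝ) ^ 3) w := XX_nonneg fun k => by positivity
  have X1 : 0 ≤ XX (fun k => (N k : ℝ) ^ 1) w := XX_nonneg fun k => by positivity
  have hB : ∑' z : K3 × K3, tB w κ z.1 z.2 ≤ ENNReal.ofReal (39 * κ) * PP (WW w) := by
    rw [ENNReal.tsum_prod (f := fun p q => tB w κ p q)]
    exact lemB2 hκ (WW w)
  have hCC : ∑' z : K3 × K3, tC w κ z.1 z.2 ≤ ENNReal.ofReal (208 * κ) * PP (WW w) := by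
    rw [ENNReal.tsum_prod (f := fun p q => tC w κ p q)]
    exact lemC hκ (WW w)
  have hCC' : ∑' z : K3 × K3, tC w κ z.1 (-z.1 - z.2) ≤ ENNReal.ofReal (208 * κ) * PP (WW w) := by
    refine le_trans (le_of_eq ?_) hCC
    exact e2.tsum_eq (fun z : K3 × K3 => tC w κ z.1 z.2)
  calc ∑' z, cG (MX (x true) (x false)) z
      ≤ ∑' z : K3 × K3, (tL w θ z
      + 6 * (2 * (tB w κ z.1 z.2 + tC w κ z.1 z.2
          + tC w κ z.1 (-z.1 - z.2))
        + 2 * (FS w S α z.1 * GS w α z.2 * GS w α (-z.1 - z.2)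
          + GS w α z.1 * FS w S α z.2 * GS w α (-z.1 - z.2)
          + GS w α z.1 * GS w α z.2 * FS w S α (-z.1 - z.2)))) :=
        ENNReal.tsum_le_tsum fun z => can_le hκ ha0 ha1 hx0 hxw hA z (hit z)
    _ = ∑' z : K3 × K3, tL w θ z
      + 6 * (2 * (∑' z : K3 × K3, tB w κ z.1 z.2
          + ∑' z : K3 × K3, tC w κ z.1 z.2 + ∑' z : K3 × K3, tC w κ z.1 (-z.1 - z.2))
        + 2 * (∑' z : K3 × K3, FS w S α z.1 * GS w α z.2 * GS w α (-z.1 - z.2)
          + ∑' z : K3 × K3, GS w α z.1 * FS w S α z.2 * GS w α (-z.1 - z.2)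
          + ∑' z : K3 × K3, GS w α z.1 * GS w α z.2 * FS w S α (-z.1 - z.2))) := by
        rw [ENNReal.tsum_add, ENNReal.tsum_mul_left, ENNReal.tsum_add, ENNReal.tsum_mul_left,
          ENNReal.tsum_add, ENNReal.tsum_add, ENNReal.tsum_mul_left, ENNReal.tsum_add,
          ENNReal.tsum_add]
    _ ≤ ENNReal.ofReal (27 * δ * XX (fun k => (N k : ℝ) ^ 3) w
      + 9 * C * XX (fun k => (N k : ℝ) ^ 1) w)
      + 6 * (2 * (ENNReal.ofReal (39 * κ) * PP (WW w)
          + ENNReal.ofReal (208 * κ) * PP (WW w) + ENNReal.ofReal (208 * κ) * PP (WW w))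
        + 2 * ((∑' k, FS w S α k) * ∑' k, GS w α k ^ 2 + (∑' k, FS w S α k) * ∑' k, GS w α k ^ 2
          + (∑' k, FS w S α k) * ∑' k, GS w α k ^ 2)) := by
        gcongr
        · exact s1_le (FS w S α) (GS w α)
        · exact s2_le (FS w S α) (GS w α)
        · exact s3_le (FS w S α) (GS w α)
    _ = _ := by
        rw [PP_WW w0 hr]
        set X := XX (fun k => (N k : ℝ) ^ 3) w
        set Y := XX (fun k => (N k : ℝ) ^ 1) w
        rw [← ENNReal.ofReal_mul (by positivity), ← ENNReal.ofReal_mul (by positivity),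
          ← ENNReal.ofReal_add (by positivity) (by positivity),
          ← ENNReal.ofReal_add (by positivity) (by positivity), mul_add, ← add_assoc, ← mul_assoc,
          show (6 : ℝ≥0∞) * 2 = ENNReal.ofReal 12 by norm_num, ← ENNReal.ofReal_mul (by norm_num),
          ← ENNReal.ofReal_add (by positivity) (by positivity)]
        congr 1
        · congr 1
          ring
        · ring

end Q186.HT
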