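import Pool.Agent.Q186.AM0
import Pool.Agent.Q63.Hel.Defs

/-!
Triads of active helical modes of a periodic velocity field.
-/

open scoped ENNReal

namespace Q186.HT

open H459R3.NS Pool.Agent.Q63.Hel Q186.AM

/-- The helical mode `(k, σ)`, `σ = ± 1`, of the field `v` is active, with threshold `a`: some
component of the helical part with the sign `σ` of the Fourier coefficient of `v` at `k` is larger
than `a / ‖k‖²`. (`‖k‖` is the maximum norm.) -/
def HelActive (σ : ℤˣ) (a : ℝ) (v : V → V) (k : K3) : Prop :=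
  ∃ i, a < ‖k‖ ^ 2 * ‖hel ((σ : ℤ) : ℝ) (fun l j => fr (fun x => v x j) l) k i‖

/-- `(l, m, n)` is a triad of active helical modes: `l + m + n = 0`, `l` and `m` are linearly
independent, `‖l‖ ≤ ‖m‖ ≤ ‖n‖`, the smallest member is not much smaller than the largest one,
`‖n‖^θ < ‖l‖`, and there are three signs, not all of them equal, for which the helical modes are
active, with the threshold `a √(‖n‖ / ‖l‖)`. -/
structure Triad (θ a : ℝ) (v : V → V) (l m n : K3) : Prop where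
  sum : l + m + n = 0
  indep : crossProduct l m ≠ 0
  le₁ : ‖l‖ ≤ ‖m‖
  le₂ : ‖m‖ ≤ ‖n‖
  near : ‖n‖ ^ θ < ‖l‖
  active : ∃ σ₁ σ₂ σ₃ : ℤˣ, ¬ (σ₁ = σ₂ ∧ σ₂ = σ₃) ∧ HelActive σ₁ (a * √(‖n‖ / ‖l‖)) v l ∧
    HelActive σ₂ (a * √(‖n‖ / ‖l‖)) v m ∧ HelActive σ₃ (a * √(‖n‖ / ‖l‖)) v n

/-- The set `S` has a member in common with each of these triads. -/
def Meets (θ a : ℝ) (v : V → V) (S : Set K3) : Prop :=
  ∀ l m n, Triad θ a v l m n → l ∈ S ∨ m ∈ S ∨ n ∈ S

end Q186.HT
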