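import Pool.Agent.Q186.HT.D
import Pool.Agent.Q186.AMd

/-!
Interpolation: the sums over the set `S`.
-/

open Set Filter Topology
open scoped ENNReal

namespace Q186.HT

open H459R3.NS hiding tt box
open Pool.Agent.Q63 Pool.Agent.Q63.Win
open Pool.Agent.Q63.Hel hiding PP
open Q186.AM (tsum_interp wsum norm_eq_N N_pos)

theorem sq_rpow {x : ℝ} (hx : 0 ≤ x) (e : ℝ) : (x ^ e) ^ 2 = x ^ (2 * e) := by
  rw [← Real.rpow_natCast, ← Real.rpow_mul hx]
  congr 1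
  push_cast
  ring

/-- `∑ N^(2 - α) w² ≤ Y^((1 + α)/2) Z^((1 - α)/2)` -/
theorem sum_GS {w : K3 → ℝ} (hw : ∀ k, 0 ≤ w k) (hr : RapR w) {α : ℝ} (ha0 : 0 ≤ α) (ha1 : α ≤ 1) :
    ∑' k, GS w α k ^ 2 ≤ ENNReal.ofReal (XX (fun k => (N k : ℝ) ^ 1) w ^ ((1 + α) / 2)
      * XX (fun k => (N k : ℝ) ^ 3) w ^ ((1 - α) / 2)) := by
  have X3 : 0 ≤ XX (fun k => (N k : ℝ) ^ 3) w := XX_nonneg fun k => by positivity
  have X1 : 0 ≤ XX (fun k => (N k : ℝ) ^ 1) w := XX_nonneg fun k => by positivity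
  have hθ0 : 0 ≤ (1 - α) / 2 := by linarith
  have hθ1 : (1 - α) / 2 ≤ 1 := by linarith
  have e1 : 1 - (1 - α) / 2 = (1 + α) / 2 := by ring
  have h1 := tsum_interp (fun k => ENNReal.ofReal ((N k : ℝ) ^ 1 * w k ^ 2))
    (fun k => ENNReal.ofReal ((N k : ℝ) ^ 3 * w k ^ 2)) hθ0 hθ1
  rw [← ENNReal.ofReal_tsum_of_nonneg (fun k => by positivity) (XX_summable (pol_pow 1) hr),
    ← ENNReal.ofReal_tsum_of_nonneg (fun k => by positivity) (XX_summable (pol_pow 3) hr), e1] at h1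
  rw [ENNReal.ofReal_mul (by positivity), ← ENNReal.ofReal_rpow_of_nonneg X1 (by linarith),
    ← ENNReal.ofReal_rpow_of_nonneg X3 hθ0]
  refine le_trans (ENNReal.tsum_le_tsum fun k => ?_) h1
  have hk := hw k
  unfold GS
  rw [← ENNReal.ofReal_pow (by positivity), ENNReal.ofReal_rpow_of_nonneg (by positivity)
    (by linarith), ENNReal.ofReal_rpow_of_nonneg (by positivity) hθ0,
    ← ENNReal.ofReal_mul (by positivity)]
  apply ENNReal.ofReal_le_ofReal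
  rcases Nat.eq_zero_or_pos (N k) with h0 | h0
  · rw [h0]
    simp only [Nat.cast_zero]
    rw [Real.zero_rpow (by linarith)]
    have : (0 : ℝ) ≤ ((0 : ℝ) ^ 1 * w k ^ 2) ^ ((1 + α) / 2) * ((0 : ℝ) ^ 3 * w k ^ 2) ^ ((1 - α) / 2) := by
      positivity
    simpa using this
  · have hN : (0 : ℝ) < N k := by exact_mod_cast h0
    refine le_of_eq ?_
    rw [mul_pow, sq_rpow hN.le, Real.mul_rpow (by positivity) (by positivity),
      Real.mul_rpow (by positivity) (by positivity), ← Real.rpow_natCast (N k : ℝ) 1,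
      ← Real.rpow_natCast (N k : ℝ) 3, ← Real.rpow_mul hN.le, ← Real.rpow_mul hN.le]
    have e2 : w k ^ 2 = (w k ^ 2) ^ ((1 + α) / 2) * (w k ^ 2) ^ ((1 - α) / 2) := by
      rw [← Real.rpow_add_of_nonneg (by positivity) (by linarith) hθ0]
      rw [show (1 + α) / 2 + (1 - α) / 2 = 1 by ring, Real.rpow_one]
    have e3 : (N k : ℝ) ^ (2 * (1 - α / 2)) = (N k : ℝ) ^ (((1 : ℕ) : ℝ) * ((1 + α) / 2))
        * (N k : ℝ) ^ (((3 : ℕ) : ℝ) * ((1 - α) / 2)) := by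
      rw [← Real.rpow_add hN]
      congr 1
      push_cast
      ring
    rw [e3]
    nth_rewrite 1 [e2]
    ring

theorem FS_eq_zero {w : K3 → ℝ} {S : Set K3} {α : ℝ} {k : K3} (h : k ∉ S) : FS w S α k = 0 := by
  unfold FS sI
  rw [if_neg h]
  simp

theorem FS_eq {w : K3 → ℝ} {S : Set K3} {α : ℝ} {k : K3} (h : k ∈ S) :
    FS w S α k = ENNReal.ofReal ((N k : ℝ) ^ α * w k) := by
  unfold FS sI
  rw [if_pos h, one_mul]

theorem sum_FS_eq (w : K3 → ℝ) (S : Set K3) (α : ℝ) :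
    ∑' k, FS w S α k = ∑' k : S, ENNReal.ofReal ((N (k : K3) : ℝ) ^ α * w k) := by
  rw [tsum_subtype S (fun k : K3 => ENNReal.ofReal ((N k : ℝ) ^ α * w k))]
  refine tsum_congr fun k => ?_
  by_cases h : k ∈ S
  · rw [indicator_of_mem h, FS_eq h]
  · rw [indicator_of_notMem h, FS_eq_zero h]

/-- the Cauchy-Schwarz inequality on `S` -/
theorem sum_FS_sq {w : K3 → ℝ} (hw : ∀ k, 0 ≤ w k) (hr : RapR w) {S : Set K3} (hS : (0 : K3) ∉ S)
    {α s τ : ℝ} (h0 : 0 ≤ τ) (h1 : τ ≤ 1) (h : 2 * α + s = 3 * τ) :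
    (∑' k, FS w S α k) ^ 2 ≤ wsum s S * (ENNReal.ofReal (XX (fun _ => 1) w) ^ (1 - τ)
      * ENNReal.ofReal (XX (fun k => (N k : ℝ) ^ 3) w) ^ τ) := by
  have hpos : ∀ p : S, (0 : ℝ) < N (p : K3) := by
    rintro ⟨p, hp⟩
    have : p ≠ 0 := fun h => hS (h ▸ hp)
    exact_mod_cast N_pos this
  set f : S → ℝ≥0∞ := fun p => ENNReal.ofReal ((N (p : K3) : ℝ) ^ (-(s / 2))) with hf
  set g : S → ℝ≥0∞ := fun p => ENNReal.ofReal ((N (p : K3) : ℝ) ^ (α + s / 2) * w p) with hg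
  have e1 : ∑' k, FS w S α k = ∑' p : S, f p * g p := by
    rw [sum_FS_eq]
    refine tsum_congr fun p => ?_
    simp only [hf, hg]
    rw [← ENNReal.ofReal_mul (by positivity), ← mul_assoc, ← Real.rpow_add (hpos p)]
    congr 3
    ring
  have e2' : ∑' p : S, f p ^ 2 = wsum s S := by
    unfold wsum
    refine tsum_congr fun p => ?_
    simp only [hf]
    rw [← ENNReal.ofReal_pow (by positivity), sq_rpow (hpos p).le, norm_eq_N]
    congr 2
    ring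
  have e3 : ∑' p : S, g p ^ 2 ≤ ENNReal.ofReal (XX (fun _ => 1) w) ^ (1 - τ)
      * ENNReal.ofReal (XX (fun k => (N k : ℝ) ^ 3) w) ^ τ := by
    have hint := tsum_interp (fun k => ENNReal.ofReal (1 * w k ^ 2))
      (fun k => ENNReal.ofReal ((N k : ℝ) ^ 3 * w k ^ 2)) h0 h1
    have sm : Summable fun k => (1 : ℝ) * w k ^ 2 :=
      XX_summable (φ := fun _ => (1 : ℝ)) ⟨1, 0, zero_le_one, fun k => by simp⟩ hr
    rw [← ENNReal.ofReal_tsum_of_nonneg (fun k => by positivity) sm,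
      ← ENNReal.ofReal_tsum_of_nonneg (fun k => by positivity) (XX_summable (pol_pow 3) hr)] at hint
    refine le_trans ?_ hint
    have h2 : ∀ p : S, g p ^ 2 = (fun k : K3 => ENNReal.ofReal (1 * w k ^ 2) ^ (1 - τ)
        * ENNReal.ofReal ((N k : ℝ) ^ 3 * w k ^ 2) ^ τ) p := by
      intro p
      have hk := hw p
      simp only [hg]
      rw [← ENNReal.ofReal_pow (by positivity), ENNReal.ofReal_rpow_of_nonneg (by positivity)
        (by linarith), ENNReal.ofReal_rpow_of_nonneg (by positivity) h0,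
        ← ENNReal.ofReal_mul (by positivity)]
      congr 1
      rw [one_mul, mul_pow, sq_rpow (hpos p).le, Real.mul_rpow (by positivity) (by positivity),
        ← Real.rpow_natCast (N (p : K3) : ℝ) 3, ← Real.rpow_mul (hpos p).le]
      have e4 : w p ^ 2 = (w p ^ 2) ^ (1 - τ) * (w p ^ 2) ^ τ := by
        rw [← Real.rpow_add_of_nonneg (by positivity) (by linarith) h0]
        rw [show 1 - τ + τ = 1 by ring, Real.rpow_one]
      have e5 : 2 * (α + s / 2) = ((3 : ℕ) : ℝ) * τ := by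
        push_cast
        linarith
      rw [e5]
      nth_rewrite 1 [e4]
      ring
    rw [tsum_congr h2]
    exact ENNReal.tsum_comp_le_tsum_of_injective Subtype.val_injective _
  calc (∑' k, FS w S α k) ^ 2 = (∑' p : S, f p * g p) ^ 2 := by rw [e1]
    _ ≤ ((∑' p : S, f p ^ 2) ^ (1 / 2 : ℝ) * (∑' p : S, g p ^ 2) ^ (1 / 2 : ℝ)) ^ 2 := by
        gcongr
        exact enn_cs f g
    _ = (∑' p : S, f p ^ 2) * ∑' p : S, g p ^ 2 := by
        rw [mul_pow, enn_half_sq, enn_half_sq]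
    _ ≤ _ := by
        rw [e2']
        gcongr

theorem enn_le_of_sq {x : ℝ≥0∞} {y : ℝ} (hy : 0 ≤ y) (h : x ^ 2 ≤ ENNReal.ofReal (y ^ 2)) :
    x ≤ ENNReal.ofReal y := by
  rw [ENNReal.ofReal_pow hy] at h
  exact (ENNReal.pow_le_pow_left_iff (by norm_num : (2 : ℕ) ≠ 0)).1 h

/-- The sum over `S` in real terms. -/
theorem sum_FS_real {w : K3 → ℝ} (hw : ∀ k, 0 ≤ w k) (hr : RapR w) {S : Set K3}
    (hS : (0 : K3) ∉ S) {α s τ E : ℝ} (h0 : 0 ≤ τ) (h1 : τ ≤ 1) (h : 2 * α + s = 3 * τ)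
    (hE0 : 0 ≤ E) (hE : XX (fun _ => 1) w ≤ E ^ 2) (hM : wsum s S ≠ ⊤) :
    ∑' k, FS w S α k ≤ ENNReal.ofReal ((wsum s S).toReal ^ (1 / 2 : ℝ) * E ^ (1 - τ)
      * XX (fun k => (N k : ℝ) ^ 3) w ^ (τ / 2)) := by
  have X3 : 0 ≤ XX (fun k => (N k : ℝ) ^ 3) w := XX_nonneg fun k => by positivity
  have X0 : 0 ≤ XX (fun _ => 1) w := XX_nonneg fun k => by positivity
  have hM0 : 0 ≤ (wsum s S).toReal := ENNReal.toReal_nonneg
  have hMe : wsum s S = ENNReal.ofReal (wsum s S).toReal := (ENNReal.ofReal_toReal hM).symm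
  apply enn_le_of_sq (by positivity)
  refine (sum_FS_sq hw hr hS h0 h1 h).trans ?_
  rw [hMe, ENNReal.ofReal_rpow_of_nonneg X0 (by linarith), ENNReal.ofReal_rpow_of_nonneg X3 h0,
    ← ENNReal.ofReal_mul (by positivity), ← ENNReal.ofReal_mul (by positivity),
    ENNReal.toReal_ofReal hM0]
  apply ENNReal.ofReal_le_ofReal
  rw [mul_pow, mul_pow, sq_rpow hM0, sq_rpow hE0, sq_rpow X3]
  have e1 : 2 * (1 / 2 : ℝ) = 1 := by norm_num
  have e2 : 2 * (τ / 2) = τ := by ring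
  rw [e1, e2, Real.rpow_one, Real.rpow_mul hE0, Real.rpow_two, ← mul_assoc]
  have h3 : XX (fun _ => 1) w ^ (1 - τ) ≤ (E ^ 2) ^ (1 - τ) :=
    Real.rpow_le_rpow X0 hE (by linarith)
  gcongr

/-- Young's inequality -/
theorem young_ν {ν P Z ζ : ℝ} (hν : 0 < ν) (hP : 0 ≤ P) (hZ : 0 ≤ Z) (h0 : 0 ≤ ζ) (h1 : ζ < 1) :
    P * Z ^ ζ ≤ ν * Z + ν ^ (-(ζ / (1 - ζ))) * P ^ (1 / (1 - ζ)) := by
  have h2 : 0 < 1 - ζ := by linarith
  set A : ℝ := ν ^ (-(ζ / (1 - ζ))) * P ^ (1 / (1 - ζ)) with hA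
  have hA0 : 0 ≤ A := by positivity
  have h3 := Real.geom_mean_le_arith_mean2_weighted h2.le h0 hA0 (by positivity : 0 ≤ ν * Z)
    (by ring)
  have e : A ^ (1 - ζ) * (ν * Z) ^ ζ = P * Z ^ ζ := by
    rw [hA, Real.mul_rpow (by positivity) (by positivity), Real.mul_rpow hν.le hZ,
      ← Real.rpow_mul hν.le, ← Real.rpow_mul hP]
    have e1 : 1 / (1 - ζ) * (1 - ζ) = 1 := by field_simp
    have e2 : -(ζ / (1 - ζ)) * (1 - ζ) = -ζ := by field_simp
    rw [e1, e2, Real.rpow_one]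
    calc ν ^ (-ζ) * P * (ν ^ ζ * Z ^ ζ) = (ν ^ (-ζ) * ν ^ ζ) * (P * Z ^ ζ) := by ring
      _ = P * Z ^ ζ := by
        rw [← Real.rpow_add hν]
        norm_num
  rw [e] at h3
  have h4 : 0 ≤ ν * Z := by positivity
  nlinarith

end Q186.HT
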