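import Pool.Agent.Q186.HT.E
import Pool.Agent.Q186.AMe
import Pool.Agent.Q63.Hel.Main

/-!
The estimate of the production at a fixed time.
-/

open Set Filter Topology
open scoped ENNReal

namespace Q186.HT

open H459R3.NS hiding tt box
open Pool.Agent.Q63 Pool.Agent.Q63.Win
open Pool.Agent.Q63.Hel hiding PP
open Q186.AM (tsum_interp wsum norm_eq_N N_pos)

/-- the sign -/
def sg (b : Bool) : ℤˣ := if b then 1 else -1

theorem sg_inj {i j : Bool} (h : sg i = sg j) : i = j := by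
  revert h
  cases i <;> cases j <;> decide

noncomputable def sr (b : Bool) : ℝ := if b then 1 else -1

theorem sg_cast (b : Bool) : (((sg b : ℤˣ) : ℤ) : ℝ) = sr b := by
  cases b <;> simp [sg, sr]

theorem sr_sq (b : Bool) : sr b ^ 2 = 1 := by
  cases b <;> simp [sr]

theorem cross_ne {p q : K3} (h : crossProduct p q ≠ 0) : p ≠ 0 ∧ q ≠ 0 ∧ -p - q ≠ 0 := by
  refine ⟨?_, ?_, ?_⟩
  · rintro rfl
    exact h (by simp)
  · rintro rfl
    exact h (by simp)
  · intro h0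
    rw [← cross_rot, h0] at h
    exact h (by simp)

theorem Meets.diff {θ a : ℝ} {v : V → V} {S : Set K3} (h : Meets θ a v S) :
    Meets θ a v (S \ {0}) := by
  intro l m n ht
  have hn : n = -l - m := by
    have := ht.sum
    rw [eq_neg_of_add_eq_zero_right this]
    abel
  obtain ⟨h1, h2, h3⟩ := cross_ne ht.indep
  rw [← hn] at h3
  rcases h l m n ht with h4 | h4 | h4
  · exact Or.inl ⟨h4, h1⟩
  · exact Or.inr (Or.inl ⟨h4, h2⟩)
  · exact Or.inr (Or.inr ⟨h4, h3⟩)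

theorem Meets.mono {θ θ' a : ℝ} {v : V → V} {S : Set K3} (hθ : θ ≤ θ') (h : Meets θ a v S) :
    Meets θ' a v S := by
  intro l m n ht
  refine h l m n ⟨ht.sum, ht.indep, ht.le₁, ht.le₂, ?_, ht.active⟩
  refine lt_of_le_of_lt ?_ ht.near
  have hn : n ≠ 0 := by
    rintro rfl
    have h1 : l = 0 := by
      have := ht.le₁.trans ht.le₂
      rw [norm_zero] at this
      exact norm_le_zero_iff.1 this
    have := ht.near
    rw [h1, norm_zero] at this
    have h2 : (0 : ℝ) ≤ 0 ^ θ' := Real.rpow_nonneg le_rfl _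
    linarith
  have h1 : (1 : ℝ) ≤ ‖n‖ := by
    rw [norm_eq_N]
    exact_mod_cast N_pos hn
  exact Real.rpow_le_rpow_of_exponent_le h1 hθ

section field

variable {v : V → V} {S : Set K3} {ν θ : ℝ}

theorem inactive {a : ℝ} {b : Bool} {k : K3} (hk : k ≠ 0)
    (h : k ∉ {k | HelActive (sg b) a v k}) :
    amp (hel (sr b) (cof v)) k ≤ (2 * a) / (N k : ℝ) ^ 2 := by
  have hN : (0 : ℝ) < N k := by exact_mod_cast N_pos hk
  have h1 : ∀ i, ‖hel (sr b) (cof v) k i‖ ≤ a / (N k : ℝ) ^ 2 := by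
    intro i
    rw [le_div_iff₀ (by positivity), mul_comm]
    by_contra hcon
    rw [not_le] at hcon
    apply h
    refine ⟨i, ?_⟩
    rw [norm_eq_N, sg_cast]
    exact hcon
  refine (amp_le h1).trans (le_of_eq ?_)
  ring

/-- The production at a fixed time. -/
theorem fixed_le (hν : 0 < ν) (hS : Meets θ (1 / 30000 * ν) v S) (hRV : RapV (cof v))
    (hreal : ∀ k i, cof v (-k) i = (starRingEnd ℂ) (cof v k i))
    (hdiv : ∀ k, ∑ i, (k i : ℂ) * cof v k i = 0) (hθ0 : 0 ≤ θ) {C : ℝ} (hC : 0 ≤ C)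
    (hL : ∀ n : ℕ, Sn (amp (cof v)) ⌊(n : ℝ) ^ θ⌋₊ ≤ 1 / 5000 * ν * (n : ℝ) ^ 2 + C)
    {α : ℝ} (ha0 : 0 ≤ α) (ha1 : α ≤ 1) {Q : ℝ} (hQ : 0 ≤ Q)
    (hQ' : (∑' k, FS (amp (cof v)) S α k) * ∑' k, GS (amp (cof v)) α k ^ 2 ≤ ENNReal.ofReal Q) :
    |2 * Win.prod len (cof v)| ≤ 60 * ν * XX (fun k => (N k : ℝ) ^ 3) (amp (cof v))
      + 1404 * C * XX (fun k => (N k : ℝ) ^ 1) (amp (cof v)) + 5616 * Q := by
  set c := cof v with hc
  set x : Bool → K3 → ℝ := fun b => amp (hel (sr b) c) with hx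
  have X3 : 0 ≤ XX (fun k => (N k : ℝ) ^ 3) (amp c) := XX_nonneg fun k => by positivity
  have X1 : 0 ≤ XX (fun k => (N k : ℝ) ^ 1) (amp c) := XX_nonneg fun k => by positivity
  have key := sum_can_le (x := x) (w := amp c)
    (A := fun L b => {k | HelActive (sg b) (1 / 30000 * ν * L) v k})
    (S := S) (κ := 2 * (1 / 30000 * ν)) (α := α) (θ := θ) (by positivity) ha0 ha1
    (fun i k => amp_nonneg _ k) (fun i k => amp_hel_le (sr_sq i) c k)
    (fun L i k hk hka => (inactive hk hka).trans (le_of_eq (by ring)))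
    (fun z hcan hcr hnear i j k hijk hi hj hk => by
      have := hS z.1 (-z.1 - z.2) z.2 ⟨by abel, (cross_rot _ _).2 hcr, by
        rw [norm_eq_N, norm_eq_N]
        exact_mod_cast hcan.1, by
        rw [norm_eq_N, norm_eq_N]
        exact_mod_cast hcan.2, by
        rw [norm_eq_N, norm_eq_N]
        exact hnear, sg i, sg k, sg j, fun h => hijk ⟨?_, ?_⟩, by
        rw [norm_eq_N, norm_eq_N]
        exact hi, by
        rw [norm_eq_N, norm_eq_N]
        exact hk, by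
        rw [norm_eq_N, norm_eq_N]
        exact hj⟩
      · tauto
      · have h1 := sg_inj h.1
        have h2 := sg_inj h.2
        rw [h1, h2]
      · exact (sg_inj h.2).symm)
    hRV.rapR hθ0 (δ := 1 / 5000 * ν) (by positivity) hC hL
  have h1 := prod_can_le hRV hreal hdiv
  have ex1 : x true = amp (hel 1 c) := by
    rw [hx]
    simp [sr]
  have ex2 : x false = amp (hel (-1) c) := by
    rw [hx]
    simp [sr]
  rw [ex1, ex2] at key
  have h2 : ENNReal.ofReal |2 * Win.prod len c| ≤ ENNReal.ofReal (156 * ((27 * (1 / 5000 * ν)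
      + 5460 * (2 * (1 / 30000 * ν))) * XX (fun k => (N k : ℝ) ^ 3) (amp c)
        + 9 * C * XX (fun k => (N k : ℝ) ^ 1) (amp c) + 36 * Q)) := by
    refine h1.trans ?_
    rw [ENNReal.ofReal_mul (by norm_num), ENNReal.ofReal_add (by positivity) (by positivity),
      ENNReal.ofReal_mul (by norm_num : (0 : ℝ) ≤ 36)]
    simp only [ENNReal.ofReal_ofNat]
    refine mul_le_mul_right (key.trans ?_) _
    gcongr
  rw [ENNReal.ofReal_le_ofReal_iff (by positivity)] at h2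
  refine h2.trans ?_
  have h3 : 156 * (27 * (1 / 5000 * ν) + 5460 * (2 * (1 / 30000 * ν))) ≤ 60 * ν := by
    linarith
  have h4 := mul_le_mul_of_nonneg_right h3 X3
  nlinarith

/-- The estimate in terms of the weighted sum over `S`. -/
theorem fixed_s (hν : 0 < ν) (hS : Meets θ (1 / 30000 * ν) v S) (hRV : RapV (cof v))
    (hreal : ∀ k i, cof v (-k) i = (starRingEnd ℂ) (cof v k i))
    (hdiv : ∀ k, ∑ i, (k i : ℂ) * cof v k i = 0) (hθ0 : 0 ≤ θ) {C : ℝ} (hC : 0 ≤ C)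
    (hL : ∀ n : ℕ, Sn (amp (cof v)) ⌊(n : ℝ) ^ θ⌋₊ ≤ 1 / 5000 * ν * (n : ℝ) ^ 2 + C)
    {α s E : ℝ} (ha0 : 0 ≤ α) (ha1 : α ≤ 1) (h0 : 0 ≤ 2 * α + s) (h1 : 2 * α + s ≤ 3)
    (h2 : s ≤ 2) (hE0 : 0 ≤ E) (hE : XX (fun _ => 1) (amp (cof v)) ≤ E ^ 2)
    (hM : wsum s S ≠ ⊤) :
    |2 * Win.prod len (cof v)| ≤ 61 * ν * XX (fun k => (N k : ℝ) ^ 3) (amp (cof v))
      + (1404 * C + ν ^ (-((3 - α + s) / (3 + α - s))) *
        (5616 * E ^ ((3 - 2 * α - s) / 3)) ^ (6 / (3 + α - s)) *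
        ((wsum s S).toReal ^ (3 / (3 + α - s)) *
          XX (fun k => (N k : ℝ) ^ 1) (amp (cof v)) ^ ((2 * α + s) / (3 + α - s))))
        * XX (fun k => (N k : ℝ) ^ 1) (amp (cof v)) := by
  set c := cof v with hc
  set Z := XX (fun k => (N k : ℝ) ^ 3) (amp c) with hZ
  set Y := XX (fun k => (N k : ℝ) ^ 1) (amp c) with hY
  have Z0 : 0 ≤ Z := XX_nonneg fun k => by positivity
  have Y0 : 0 ≤ Y := XX_nonneg fun k => by positivity
  have hM' : wsum s (S \ {0}) ≠ ⊤ := ne_top_of_le_ne_top hM (Q186.AM.wsum_mono s sdiff_subset)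
  set M' := (wsum s (S \ {0})).toReal with hM'd
  set M := (wsum s S).toReal with hMd
  have hMM : M' ≤ M := ENNReal.toReal_mono hM (Q186.AM.wsum_mono s sdiff_subset)
  have hM0 : 0 ≤ M' := ENNReal.toReal_nonneg
  have hd : 0 < 3 + α - s := by linarith
  have e1 : 1 - (2 * α + s) / 3 = (3 - 2 * α - s) / 3 := by ring
  have hF := sum_FS_real (w := amp c) (S := S \ {0}) (α := α) (s := s) (τ := (2 * α + s) / 3)
    (amp_nonneg c) hRV.rapR (by simp) (by positivity) (by linarith) (by ring) hE0 hE hM'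
  have hG := sum_GS (w := amp c) (amp_nonneg c) hRV.rapR ha0 ha1
  rw [← hZ, ← hM'd, e1] at hF
  rw [← hZ, ← hY] at hG
  set X := E ^ ((3 - 2 * α - s) / 3) with hX
  have hX0 : 0 ≤ X := by positivity
  set Q : ℝ := M' ^ (1 / 2 : ℝ) * X * Z ^ ((2 * α + s) / 3 / 2)
    * (Y ^ ((1 + α) / 2) * Z ^ ((1 - α) / 2)) with hQ
  have hQ0 : 0 ≤ Q := by positivity
  have hQ' : (∑' k, FS (amp c) (S \ {0}) α k) * ∑' k, GS (amp c) α k ^ 2 ≤ ENNReal.ofReal Q := by
    rw [hQ, ENNReal.ofReal_mul (by positivity)]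
    exact mul_le_mul' hF hG
  have hm := fixed_le hν hS.diff hRV hreal hdiv hθ0 hC hL ha0 ha1 hQ0 hQ'
  rw [← hc, ← hZ, ← hY] at hm
  -- Young
  set ζ : ℝ := (3 - α + s) / 6 with hζ
  have hζ0 : 0 ≤ ζ := by
    rw [hζ]
    apply div_nonneg _ (by norm_num)
    linarith
  have hζ1 : ζ < 1 := by
    rw [hζ, div_lt_one (by norm_num)]
    linarith
  set P : ℝ := 5616 * X * M' ^ (1 / 2 : ℝ) * Y ^ ((1 + α) / 2) with hP
  have hP0 : 0 ≤ P := by positivity
  have eQ : 5616 * Q = P * Z ^ ζ := by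
    rw [hQ, hP]
    have : Z ^ ζ = Z ^ ((2 * α + s) / 3 / 2) * Z ^ ((1 - α) / 2) := by
      rw [← Real.rpow_add_of_nonneg Z0 (by positivity) (by linarith), hζ]
      congr 1
      ring
    rw [this]
    ring
  have hy := young_ν hν hP0 Z0 hζ0 hζ1
  have e2 : 1 - ζ = (3 + α - s) / 6 := by rw [hζ]; ring
  have e3 : ζ / (1 - ζ) = (3 - α + s) / (3 + α - s) := by
    rw [e2, hζ]
    field_simp
  have e4 : 1 / (1 - ζ) = 6 / (3 + α - s) := by
    rw [e2]
    field_simp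
  rw [e3, e4] at hy
  have eP : P ^ (6 / (3 + α - s)) = (5616 * X) ^ (6 / (3 + α - s)) *
      (M' ^ (3 / (3 + α - s)) * Y ^ ((2 * α + s) / (3 + α - s))) * Y := by
    rw [hP, Real.mul_rpow (by positivity) (by positivity), Real.mul_rpow (by positivity)
      (by positivity), ← Real.rpow_mul hM0, ← Real.rpow_mul Y0]
    have e5 : 1 / 2 * (6 / (3 + α - s)) = 3 / (3 + α - s) := by ring
    have e6 : (1 + α) / 2 * (6 / (3 + α - s)) = (2 * α + s) / (3 + α - s) + 1 := by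
      field_simp
      ring
    rw [e5, e6, Real.rpow_add_of_nonneg Y0 (by positivity) zero_le_one, Real.rpow_one]
    ring
  rw [eQ] at hm
  refine hm.trans ?_
  have h5 : M' ^ (3 / (3 + α - s)) ≤ M ^ (3 / (3 + α - s)) :=
    Real.rpow_le_rpow hM0 hMM (by positivity)
  calc 60 * ν * Z + 1404 * C * Y + P * Z ^ ζ
      ≤ 60 * ν * Z + 1404 * C * Y + (ν * Z + ν ^ (-((3 - α + s) / (3 + α - s)))
        * ((5616 * X) ^ (6 / (3 + α - s)) *
      (M' ^ (3 / (3 + α - s)) * Y ^ ((2 * α + s) / (3 + α - s))) * Y)) := by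
        rw [← eP]
        linarith
    _ ≤ 60 * ν * Z + 1404 * C * Y + (ν * Z + ν ^ (-((3 - α + s) / (3 + α - s)))
        * ((5616 * X) ^ (6 / (3 + α - s)) *
      (M ^ (3 / (3 + α - s)) * Y ^ ((2 * α + s) / (3 + α - s))) * Y)) := by
        gcongr
    _ = _ := by ring

end field

end Q186.HT
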