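import Pool.Agent.Q186.HT.F

/-!
Sets with a quadratic counting function.
-/

open Set Filter Topology
open scoped ENNReal

namespace Q186.HT

open H459R3.NS hiding tt box
open Pool.Agent.Q63 Pool.Agent.Q63.Win
open Pool.Agent.Q63.Hel hiding PP
open Q186.AM (tsum_interp wsum norm_eq_N N_pos)

theorem tail3_aux {F : Finset K3} {B : ℝ} (hB : 0 ≤ B)
    (hF : ∀ m : ℕ, 1 ≤ m → ((F.filter fun l => N l ≤ m).card : ℝ) ≤ B * (m : ℝ) ^ 2) {R : ℕ}
    (hR : 1 ≤ R) (j : ℕ) :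
    ∑ l ∈ F.filter (fun l => R < N l ∧ N l ≤ 2 ^ j * R), ((N l : ℝ) ^ 3)⁻¹
      ≤ 8 * (B / R) * (1 - (1 / 2) ^ j) := by
  have hR0 : (0 : ℝ) < R := by exact_mod_cast hR
  induction j with
  | zero =>
    have : F.filter (fun l => R < N l ∧ N l ≤ 2 ^ 0 * R) = ∅ := by
      rw [Finset.filter_eq_empty_iff]
      rintro l _ ⟨h1, h2⟩
      rw [pow_zero, one_mul] at h2
      omega
    rw [this]
    simp
  | succ j ih =>
    have e : F.filter (fun l => R < N l ∧ N l ≤ 2 ^ (j + 1) * R)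
        = F.filter (fun l => R < N l ∧ N l ≤ 2 ^ j * R)
          ∪ F.filter (fun l => 2 ^ j * R < N l ∧ N l ≤ 2 ^ (j + 1) * R) := by
      ext l
      simp only [Finset.mem_filter, Finset.mem_union]
      have h1 : R ≤ 2 ^ j * R := Nat.le_mul_of_pos_left _ (by positivity)
      have h2 : 2 ^ (j + 1) * R = 2 * (2 ^ j * R) := by ring
      constructor
      · rintro ⟨h3, h4, h5⟩
        rcases le_or_gt (N l) (2 ^ j * R) with h6 | h6
        · exact Or.inl ⟨h3, h4, h6⟩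
        · exact Or.inr ⟨h3, h6, h5⟩
      · rintro (⟨h3, h4, h5⟩ | ⟨h3, h4, h5⟩)
        · exact ⟨h3, h4, by omega⟩
        · exact ⟨h3, by omega, h5⟩
    rw [e]
    have hdis : Disjoint (F.filter (fun l => R < N l ∧ N l ≤ 2 ^ j * R))
        (F.filter (fun l => 2 ^ j * R < N l ∧ N l ≤ 2 ^ (j + 1) * R)) := by
      rw [Finset.disjoint_left]
      intro l h1 h2
      simp only [Finset.mem_filter] at h1 h2
      omega
    rw [Finset.sum_union hdis]
    set X : ℝ := 2 ^ j * R with hX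
    have hX0 : 0 < X := by positivity
    have h3 : ∑ l ∈ F.filter (fun l => 2 ^ j * R < N l ∧ N l ≤ 2 ^ (j + 1) * R),
        ((N l : ℝ) ^ 3)⁻¹ ≤ 4 * B * X⁻¹ := by
      have h4 : ∀ l ∈ F.filter (fun l => 2 ^ j * R < N l ∧ N l ≤ 2 ^ (j + 1) * R),
          ((N l : ℝ) ^ 3)⁻¹ ≤ (X ^ 3)⁻¹ := by
        intro l hl
        rw [Finset.mem_filter] at hl
        have h5 : X ≤ N l := by
          rw [hX]
          exact_mod_cast hl.2.1.le
        gcongr
      refine (Finset.sum_le_card_nsmul _ _ _ h4).trans ?_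
      rw [nsmul_eq_mul]
      have h5 : ((F.filter (fun l => 2 ^ j * R < N l ∧ N l ≤ 2 ^ (j + 1) * R)).card : ℝ)
          ≤ B * (2 * X) ^ 2 := by
        have h6 := hF (2 ^ (j + 1) * R) (by
          have : 0 < 2 ^ (j + 1) * R := by positivity
          omega)
        have h7 : ((F.filter (fun l => 2 ^ j * R < N l ∧ N l ≤ 2 ^ (j + 1) * R)).card : ℝ)
            ≤ ((F.filter fun l => N l ≤ 2 ^ (j + 1) * R).card : ℝ) := by
          have : (F.filter (fun l => 2 ^ j * R < N l ∧ N l ≤ 2 ^ (j + 1) * R)).card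
              ≤ (F.filter fun l => N l ≤ 2 ^ (j + 1) * R).card := by
            refine Finset.card_le_card fun l hl => ?_
            rw [Finset.mem_filter] at hl ⊢
            exact ⟨hl.1, hl.2.2⟩
          exact_mod_cast this
        refine h7.trans (h6.trans (le_of_eq ?_))
        rw [hX]
        push_cast
        ring
      calc _ ≤ B * (2 * X) ^ 2 * (X ^ 3)⁻¹ := by gcongr
        _ = 4 * B * X⁻¹ := by
          field_simp
          ring
    have h4 : 4 * B * X⁻¹ = 4 * (B / R) * (1 / 2) ^ j := by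
      rw [hX, one_div, inv_pow]
      field_simp
    rw [h4] at h3
    have h5 : 8 * (B / R) * (1 - (1 / 2) ^ (j + 1))
        = 8 * (B / R) * (1 - (1 / 2) ^ j) + 4 * (B / R) * (1 / 2) ^ j := by
      rw [pow_succ]
      ring
    rw [h5]
    exact add_le_add ih h3

theorem tail3 {F : Finset K3} {B : ℝ} (hB : 0 ≤ B)
    (hF : ∀ m : ℕ, 1 ≤ m → ((F.filter fun l => N l ≤ m).card : ℝ) ≤ B * (m : ℝ) ^ 2) {R : ℕ}
    (hR : 1 ≤ R) :
    ∑ l ∈ F.filter (fun l => R < N l), ((N l : ℝ) ^ 3)⁻¹ ≤ 8 * (B / R) := by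
  have hR0 : (0 : ℝ) < R := by exact_mod_cast hR
  set j := F.sup N with hj
  have e : F.filter (fun l => R < N l) = F.filter (fun l => R < N l ∧ N l ≤ 2 ^ j * R) := by
    ext l
    simp only [Finset.mem_filter]
    refine ⟨fun h => ⟨h.1, h.2, ?_⟩, fun h => ⟨h.1, h.2.1⟩⟩
    have h1 : N l ≤ j := Finset.le_sup (f := N) h.1
    have h2 : j < 2 ^ j := Nat.lt_two_pow_self
    have h3 : 2 ^ j ≤ 2 ^ j * R := Nat.le_mul_of_pos_right _ hR
    omega
  rw [e]
  refine (tail3_aux hB hF hR j).trans ?_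
  have h1 : 0 ≤ B / (R : ℝ) := by positivity
  have h2 : (0 : ℝ) ≤ (1 / 2) ^ j := by positivity
  nlinarith

/-- The sum of the amplitudes over a set with a quadratic counting function. -/
theorem sum_FS_count {w : K3 → ℝ} (hw : ∀ k, 0 ≤ w k) (hr : RapR w) {S : Set K3} {B E : ℝ}
    (hB : 0 ≤ B) (hE0 : 0 ≤ E) (hE : XX (fun _ => 1) w ≤ E ^ 2)
    (hc : ∀ m : ℕ, 1 ≤ m → (({l | l ∈ S ∧ ‖l‖ ≤ m}).ncard : ℝ) ≤ B * (m : ℝ) ^ 2) {R : ℕ}
    (hR : 1 ≤ R) :
    ∑' k, FS w S 0 k ≤ ENNReal.ofReal (Real.sqrt B * (R * E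
      + 3 * Real.sqrt (XX (fun k => (N k : ℝ) ^ 3) w) / Real.sqrt R)) := by
  classical
  have hR0 : (0 : ℝ) < R := by exact_mod_cast hR
  have X3 : 0 ≤ XX (fun k => (N k : ℝ) ^ 3) w := XX_nonneg fun k => by positivity
  rw [ENNReal.tsum_eq_iSup_sum]
  refine iSup_le fun F₀ => ?_
  set F := F₀.filter (fun k => k ∈ S) with hF
  have e1 : ∑ k ∈ F₀, FS w S 0 k = ENNReal.ofReal (∑ k ∈ F, w k) := by
    rw [ENNReal.ofReal_sum_of_nonneg fun k _ => hw k, hF, Finset.sum_filter]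
    refine Finset.sum_congr rfl fun k _ => ?_
    split_ifs with h
    · rw [FS_eq h, Real.rpow_zero, one_mul]
    · exact FS_eq_zero h
  rw [e1]
  apply ENNReal.ofReal_le_ofReal
  have hcard : ∀ m : ℕ, 1 ≤ m → ((F.filter fun l => N l ≤ m).card : ℝ) ≤ B * (m : ℝ) ^ 2 := by
    intro m hm
    refine le_trans ?_ (hc m hm)
    have hsub : ((F.filter fun l => N l ≤ m : Finset K3) : Set K3) ⊆ {l | l ∈ S ∧ ‖l‖ ≤ m} := by
      intro l hl
      rw [Finset.mem_coe, Finset.mem_filter, hF, Finset.mem_filter] at hl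
      refine ⟨hl.1.2, ?_⟩
      rw [norm_eq_N]
      exact_mod_cast hl.2
    have hfin : {l : K3 | l ∈ S ∧ ‖l‖ ≤ m}.Finite := by
      refine (box m).finite_toSet.subset fun l hl => ?_
      rw [Finset.mem_coe, mem_box]
      have := hl.2
      rw [norm_eq_N] at this
      exact_mod_cast this
    have := Set.ncard_le_ncard hsub hfin
    rw [Set.ncard_coe_finset] at this
    exact_mod_cast this
  have s0 : Summable fun k => (1 : ℝ) * w k ^ 2 :=
    XX_summable (φ := fun _ => (1 : ℝ)) ⟨1, 0, zero_le_one, fun k => by simp⟩ hr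
  have s3 := XX_summable (pol_pow 3) hr
  rw [← Finset.sum_filter_add_sum_filter_not F (fun l => N l ≤ R)]
  have h1 : ∑ l ∈ F.filter (fun l => N l ≤ R), w l ≤ Real.sqrt B * (R * E) := by
    have h2 := Real.sum_mul_le_sqrt_mul_sqrt (F.filter (fun l => N l ≤ R)) (fun _ => (1 : ℝ)) w
    simp only [one_mul, one_pow, Finset.sum_const, nsmul_eq_mul, mul_one] at h2
    refine h2.trans ?_
    have h3 : Real.sqrt ((F.filter (fun l => N l ≤ R)).card : ℝ) ≤ Real.sqrt B * R := by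
      refine (Real.sqrt_le_sqrt (hcard R hR)).trans (le_of_eq ?_)
      rw [Real.sqrt_mul hB, Real.sqrt_sq hR0.le]
    have h4 : Real.sqrt (∑ l ∈ F.filter (fun l => N l ≤ R), w l ^ 2) ≤ E := by
      refine Real.sqrt_le_iff.2 ⟨hE0, le_trans ?_ hE⟩
      have := s0.sum_le_tsum (F.filter (fun l => N l ≤ R)) fun l _ => by positivity
      simp only [one_mul] at this
      refine this.trans (le_of_eq ?_)
      unfold XX
      simp only [one_mul]
    calc _ ≤ Real.sqrt B * R * E := by gcongr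
      _ = _ := by ring
  have h5 : ∑ l ∈ F.filter (fun l => ¬ N l ≤ R), w l
      ≤ Real.sqrt B * (3 * Real.sqrt (XX (fun k => (N k : ℝ) ^ 3) w) / Real.sqrt R) := by
    have e1 : F.filter (fun l => ¬ N l ≤ R) = F.filter (fun l => R < N l) := by
      ext l
      simp only [Finset.mem_filter, not_le]
    rw [e1]
    have e2 : ∀ l ∈ F.filter (fun l => R < N l), w l
        = Real.sqrt (((N l : ℝ) ^ 3)⁻¹) * (Real.sqrt ((N l : ℝ) ^ 3) * w l) := by
      intro l hl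
      rw [Finset.mem_filter] at hl
      have : (0 : ℝ) < N l := by
        have : 0 < N l := by omega
        exact_mod_cast this
      rw [← mul_assoc, ← Real.sqrt_mul (by positivity), inv_mul_cancel₀ (by positivity),
        Real.sqrt_one, one_mul]
    rw [Finset.sum_congr rfl e2]
    refine (Real.sum_mul_le_sqrt_mul_sqrt _ _ _).trans ?_
    have h3 : Real.sqrt (∑ l ∈ F.filter (fun l => R < N l), Real.sqrt (((N l : ℝ) ^ 3)⁻¹) ^ 2)
        ≤ 3 * Real.sqrt B / Real.sqrt R := by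
      have h6 : ∑ l ∈ F.filter (fun l => R < N l), Real.sqrt (((N l : ℝ) ^ 3)⁻¹) ^ 2
          ≤ (3 * Real.sqrt B / Real.sqrt R) ^ 2 := by
        have e3 : ∀ l : K3, Real.sqrt (((N l : ℝ) ^ 3)⁻¹) ^ 2 = ((N l : ℝ) ^ 3)⁻¹ :=
          fun l => Real.sq_sqrt (by positivity)
        simp_rw [e3]
        refine (tail3 hB hcard hR).trans ?_
        rw [div_pow, mul_pow, Real.sq_sqrt hB, Real.sq_sqrt hR0.le]
        have : 0 ≤ B / (R : ℝ) := by positivity
        calc 8 * (B / (R : ℝ)) ≤ 9 * (B / (R : ℝ)) := by linarith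
          _ = _ := by ring
      calc _ ≤ Real.sqrt ((3 * Real.sqrt B / Real.sqrt R) ^ 2) := Real.sqrt_le_sqrt h6
        _ = _ := Real.sqrt_sq (by positivity)
    have h4 : Real.sqrt (∑ l ∈ F.filter (fun l => R < N l), (Real.sqrt ((N l : ℝ) ^ 3) * w l) ^ 2)
        ≤ Real.sqrt (XX (fun k => (N k : ℝ) ^ 3) w) := by
      apply Real.sqrt_le_sqrt
      have e3 : ∀ l : K3, (Real.sqrt ((N l : ℝ) ^ 3) * w l) ^ 2 = (N l : ℝ) ^ 3 * w l ^ 2 := by
        intro l
        rw [mul_pow, Real.sq_sqrt (by positivity)]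
      simp_rw [e3]
      exact s3.sum_le_tsum _ fun l _ => by positivity
    calc _ ≤ 3 * Real.sqrt B / Real.sqrt R * Real.sqrt (XX (fun k => (N k : ℝ) ^ 3) w) := by gcongr
      _ = _ := by ring
  rw [mul_add]
  exact add_le_add h1 h5

section field

variable {v : V → V} {S : Set K3} {ν θ : ℝ}

/-- The estimate for a set with a quadratic counting function. -/
theorem fixed_count (hν : 0 < ν) (hS : Meets θ (1 / 30000 * ν) v S) (hRV : RapV (cof v))
    (hreal : ∀ k i, cof v (-k) i = (starRingEnd ℂ) (cof v k i))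
    (hdiv : ∀ k, ∑ i, (k i : ℂ) * cof v k i = 0) (hθ0 : 0 ≤ θ) {C : ℝ} (hC : 0 ≤ C)
    (hL : ∀ n : ℕ, Sn (amp (cof v)) ⌊(n : ℝ) ^ θ⌋₊ ≤ 1 / 5000 * ν * (n : ℝ) ^ 2 + C)
    {B E : ℝ} (hB : 0 ≤ B) (hE0 : 0 ≤ E) (hE : XX (fun _ => 1) (amp (cof v)) ≤ E ^ 2)
    (hc : ∀ m : ℕ, 1 ≤ m → (({l | l ∈ S ∧ ‖l‖ ≤ m}).ncard : ℝ) ≤ B * (m : ℝ) ^ 2) :
    |2 * Win.prod len (cof v)| ≤ 62 * ν * XX (fun k => (N k : ℝ) ^ 3) (amp (cof v))
      + (1404 * C + 5616 ^ 2 * B * E ^ 2 / ν * ((16848 ^ 2 * B / ν ^ 2) ^ 2 *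
        XX (fun k => (N k : ℝ) ^ 1) (amp (cof v)) ^ 2 + 4))
        * XX (fun k => (N k : ℝ) ^ 1) (amp (cof v)) := by
  set c := cof v with hcd
  set Z := XX (fun k => (N k : ℝ) ^ 3) (amp c) with hZ
  set Y := XX (fun k => (N k : ℝ) ^ 1) (amp c) with hY
  have Z0 : 0 ≤ Z := XX_nonneg fun k => by positivity
  have Y0 : 0 ≤ Y := XX_nonneg fun k => by positivity
  set q := Real.sqrt B with hq
  have hq0 : 0 ≤ q := Real.sqrt_nonneg _
  have hq2 : q ^ 2 = B := Real.sq_sqrt hB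
  set y := Real.sqrt Y with hy
  have hy0 : 0 ≤ y := Real.sqrt_nonneg _
  have hy2 : y ^ 2 = Y := Real.sq_sqrt Y0
  set z := Real.sqrt Z with hz
  have hz0 : 0 ≤ z := Real.sqrt_nonneg _
  have hz2 : z ^ 2 = Z := Real.sq_sqrt Z0
  set A : ℝ := 16848 ^ 2 * B / ν ^ 2 with hA
  have hA0 : 0 ≤ A := by positivity
  set R : ℕ := ⌈A * Y⌉₊ + 1 with hR
  have hR1 : 1 ≤ R := by omega
  have hRge : A * Y ≤ R := by
    have := Nat.le_ceil (A * Y)
    rw [hR]
    push_cast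
    linarith
  have hRle : (R : ℝ) ≤ A * Y + 2 := by
    have := Nat.ceil_lt_add_one (by positivity : 0 ≤ A * Y)
    rw [hR]
    push_cast
    linarith
  have hR0 : (0 : ℝ) < R := by exact_mod_cast hR1
  set r := Real.sqrt R with hr
  have hr0 : 0 < r := Real.sqrt_pos.2 hR0
  have hr2 : r ^ 2 = R := Real.sq_sqrt hR0.le
  have hF := sum_FS_count (w := amp c) (amp_nonneg c) hRV.rapR hB hE0 hE hc hR1
  rw [← hZ, ← hq, ← hz, ← hr] at hF
  have hG := sum_GS (w := amp c) (amp_nonneg c) hRV.rapR (α := 0) le_rfl zero_le_one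
  rw [← hZ, ← hY, show ((1 : ℝ) + 0) / 2 = 1 / 2 by norm_num, show ((1 : ℝ) - 0) / 2 = 1 / 2 by norm_num,
    ← Real.sqrt_eq_rpow, ← Real.sqrt_eq_rpow, ← hy, ← hz] at hG
  set Q : ℝ := q * (R * E + 3 * z / r) * (y * z) with hQ
  have hQ0 : 0 ≤ Q := by positivity
  have hQ' : (∑' k, FS (amp c) S 0 k) * ∑' k, GS (amp c) 0 k ^ 2 ≤ ENNReal.ofReal Q := by
    rw [hQ, ENNReal.ofReal_mul (by positivity)]
    exact mul_le_mul' hF hG
  have hm := fixed_le hν hS hRV hreal hdiv hθ0 hC hL le_rfl zero_le_one hQ0 hQ'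
  rw [← hcd, ← hZ, ← hY] at hm
  have h6 : 5616 * Q = 5616 * q * R * E * (y * z) + 16848 * q * y / r * z ^ 2 := by
    rw [hQ]
    field_simp
    ring
  have h7 : 16848 * q * y / r * z ^ 2 ≤ ν * z ^ 2 := by
    have h8 : 16848 * q * y / r ≤ ν := by
      rw [div_le_iff₀ hr0]
      have h9 : (16848 * q * y) ^ 2 ≤ (ν * r) ^ 2 := by
        have e : (16848 * q * y) ^ 2 = ν ^ 2 * (A * Y) := by
          rw [mul_pow, mul_pow, hq2, hy2, hA]
          field_simp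
        rw [e, mul_pow, hr2]
        gcongr
      exact (pow_le_pow_iff_left₀ (by positivity) (by positivity) (by norm_num : (2 : ℕ) ≠ 0)).1 h9
    gcongr
  have h8 : 5616 * q * R * E * (y * z) ≤ ν * z ^ 2 + 1 / (4 * ν) * (5616 * q * R * E) ^ 2 * y ^ 2 := by
    have h9 : 0 ≤ 1 / (4 * ν) * (2 * ν * z - 5616 * q * R * E * y) ^ 2 := by positivity
    have e : 1 / (4 * ν) * (2 * ν * z - 5616 * q * R * E * y) ^ 2
        = ν * z ^ 2 + 1 / (4 * ν) * (5616 * q * R * E) ^ 2 * y ^ 2 - 5616 * q * R * E * (y * z) := by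
      field_simp
      ring
    linarith
  have h9 : 1 / (4 * ν) * (5616 * q * R * E) ^ 2 * y ^ 2
      ≤ 5616 ^ 2 * B * E ^ 2 / ν * (A ^ 2 * Y ^ 2 + 4) * y ^ 2 := by
    have h10 : (R : ℝ) ^ 2 ≤ 2 * (A ^ 2 * Y ^ 2 + 4) := by
      have h11 : (R : ℝ) ^ 2 ≤ (A * Y + 2) ^ 2 := pow_le_pow_left₀ hR0.le hRle 2
      nlinarith [sq_nonneg (A * Y - 2)]
    calc 1 / (4 * ν) * (5616 * q * R * E) ^ 2 * y ^ 2
        = 5616 ^ 2 * B * E ^ 2 / ν * ((R : ℝ) ^ 2 / 4) * y ^ 2 := by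
          rw [mul_pow, mul_pow, mul_pow, hq2]
          field_simp
      _ ≤ _ := by
        have : (R : ℝ) ^ 2 / 4 ≤ A ^ 2 * Y ^ 2 + 4 := by
          have : 0 ≤ A ^ 2 * Y ^ 2 + 4 := by positivity
          linarith
        gcongr
  rw [hy2] at h9
  rw [hy2] at h8
  rw [hz2] at h7 h8
  calc |2 * Win.prod len c| ≤ 60 * ν * Z + 1404 * C * Y + 5616 * Q := hm
    _ ≤ 60 * ν * Z + 1404 * C * Y + (ν * Z
        + 5616 ^ 2 * B * E ^ 2 / ν * (A ^ 2 * Y ^ 2 + 4) * Y + ν * Z) := by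
        rw [h6, hz2]
        linarith
    _ = _ := by ring

end field

end Q186.HT
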