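import Pool.Agent.Q186.HT.G
import Pool.Agent.Q186.AMf

/-!
Evolution of the norm with the weight `|k|`, with the full viscosity.
-/

open MeasureTheory Set Filter Topology
open scoped ENNReal

namespace Q186.HT

open H459R3.NS hiding tt box
open Pool.Agent.Q63 Pool.Agent.Q63.Win
open Pool.Agent.Q63.Hel hiding PP
open Q186.AM (tsum_interp wsum norm_eq_N N_pos cf)

section

variable {m : K3 → ℝ} {T ν : ℝ} {c : ℝ → Fam}

theorem hel_high70 (h : FSol m T c) (hm : Pol m) (hν : 0 < ν)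
    (hmν : ∀ k, 36 * ν * (N k : ℝ) ^ 2 ≤ m k) {a : ℝ} (ha : 0 < a) {G : ℝ → ℝ}
    (hG0 : ∀ t, 0 ≤ G t) (hGi : IntegrableOn G (Ico a T))
    (hprod : ∀ t ∈ Ico a T, |2 * Win.prod len (c t)| ≤
      70 * ν * XX (fun k => (N k : ℝ) ^ 3) (amp (c t)) + G t * XX len (amp (c t))) :
    ∃ C, ∀ t ∈ Ico a T, XX (fun k => (N k : ℝ) ^ 4) (amp (c t)) ≤ C := by
  rcases le_or_gt T a with hTa | haT
  · exact ⟨0, fun t ht => absurd (ht.1.trans_lt ht.2) (not_lt.2 hTa)⟩
  have hIoo : ∀ τ ∈ Ico a T, τ ∈ Ioo 0 T := fun τ hτ => ⟨ha.trans_le hτ.1, hτ.2⟩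
  have hsub : ∀ t ∈ Ico a T, Icc a t ⊆ Ioo 0 T := fun t ht τ hτ =>
    ⟨ha.trans_le hτ.1, hτ.2.trans_lt ht.2⟩
  have hsub' : ∀ t ∈ Ico a T, Icc a t ⊆ Ico a T := fun t ht τ hτ => ⟨hτ.1, hτ.2.trans_lt ht.2⟩
  set Γ := ∫ τ in Ico a T, G τ with hΓ
  have hΓ0 : 0 ≤ Γ := integral_nonneg fun τ => hG0 τ
  have hGt : ∀ t ∈ Ico a T, ∫ τ in a..t, G τ ≤ Γ := by
    intro t ht
    rw [intervalIntegral.integral_of_le ht.1]
    refine setIntegral_mono_set hGi (Filter.Eventually.of_forall fun τ => hG0 τ) ?_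
    exact Filter.Eventually.of_forall fun τ hτ => hsub' t ht ⟨hτ.1.le, hτ.2⟩
  set X1 : ℝ → ℝ := fun t => XX len (amp (c t)) with hX1
  set X3 : ℝ → ℝ := fun t => XX (fun k => (N k : ℝ) ^ 3) (amp (c t)) with hX3
  have hX10 : ∀ t, 0 ≤ X1 t := fun t => XX_nonneg fun k => len_nonneg k
  have hX30 : ∀ t, 0 ≤ X3 t := fun t => XX_nonneg fun k => by positivity
  have hd1 : ∀ t ∈ Ico a T, HasDerivAt X1
      (-(2 * XX (fun k => len k * m k) (amp (c t))) - 2 * Win.prod len (c t)) t := fun t ht =>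
    h.hasDerivAt_XX hm pol_len (hIoo t ht)
  have hle1 : ∀ t ∈ Ico a T, -(2 * XX (fun k => len k * m k) (amp (c t)))
      - 2 * Win.prod len (c t) ≤ -(ν * X3 t) + G t * X1 t := by
    intro t ht
    have hR := (h.rapV (hIoo t ht)).rapR
    have h1 := hprod t ht
    have h2 := (abs_le.1 h1).1
    have h3 : 36 * ν * X3 t ≤ XX (fun k => len k * m k) (amp (c t)) := by
      rw [hX3]
      simp only
      unfold XX
      rw [← tsum_mul_left]
      refine Summable.tsum_le_tsum (fun k => ?_) ((XX_summable (pol_pow 3) hR).mul_left _)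
        (XX_summable (pol_mul pol_len hm) hR)
      have h5 := hmν k
      have h6 := len_ge k
      have hN : (0 : ℝ) ≤ N k := Nat.cast_nonneg _
      have h8 := len_nonneg k
      have h7 : (N k : ℝ) * (36 * ν * (N k : ℝ) ^ 2) ≤ len k * m k := by gcongr
      calc 36 * ν * ((N k : ℝ) ^ 3 * amp (c t) k ^ 2)
          = (N k : ℝ) * (36 * ν * (N k : ℝ) ^ 2) * amp (c t) k ^ 2 := by ring
        _ ≤ len k * m k * amp (c t) k ^ 2 := by gcongr
    have h4 : 0 ≤ ν * X3 t := mul_nonneg hν.le (hX30 t)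
    have h2' : -(2 * Win.prod len (c t)) ≤ 70 * ν * X3 t + G t * X1 t := by
      have : -(70 * ν * X3 t + G t * X1 t) ≤ 2 * Win.prod len (c t) := h2
      linarith
    linarith
  -- the first bound
  set B := (X1 a + 1) * Real.exp Γ with hB
  have hB0 : 0 ≤ B := by
    have := hX10 a
    positivity
  have hbd1 : ∀ t ∈ Ico a T, X1 t ≤ B := by
    intro t ht
    refine log_gronwall (D := fun t => -(2 * XX (fun k => len k * m k) (amp (c t)))
      - 2 * Win.prod len (c t)) ht.1 (fun τ _ => hX10 τ)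
      (fun τ hτ => hd1 τ ⟨hτ.1, hτ.2.trans_lt ht.2⟩) (hGi.mono_set (hsub' t ht)) ?_ hG0 (hGt t ht)
    intro τ hτ
    have := hle1 τ ⟨hτ.1, hτ.2.trans_lt ht.2⟩
    have h4 : 0 ≤ ν * X3 τ := mul_nonneg hν.le (hX30 τ)
    linarith
  have hX3c : ContinuousOn X3 (Ioo 0 T) := XX_cont h hm (pol_pow 3)
  -- the second bound
  have hint3 : ∀ t ∈ Ico a T, ν * ∫ τ in a..t, X3 τ ≤ X1 a + B * Γ := by
    intro t ht
    have hi3 : IntegrableOn X3 (Icc a t) := (hX3c.mono (hsub t ht)).integrableOn_Icc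
    have hiG : IntegrableOn G (Icc a t) := hGi.mono_set (hsub' t ht)
    have key := intervalIntegral.sub_le_integral_of_hasDeriv_right_of_le
      (φ := fun τ => -(ν * X3 τ) + B * G τ) ht.1
      (fun τ hτ => (hd1 τ ⟨hτ.1, hτ.2.trans_lt ht.2⟩).continuousAt.continuousWithinAt)
      (fun τ hτ => (hd1 τ ⟨hτ.1.le, hτ.2.trans ht.2⟩).hasDerivWithinAt)
      ((hi3.const_mul ν).neg.add (hiG.const_mul B))
      (fun τ hτ => by
        have h1 := hle1 τ ⟨hτ.1.le, hτ.2.trans ht.2⟩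
        have h2 := hbd1 τ ⟨hτ.1.le, hτ.2.trans ht.2⟩
        have h3 := hG0 τ
        have h4 : G τ * X1 τ ≤ G τ * B := by gcongr
        linarith)
    have hI3 : IntervalIntegrable X3 volume a t := by
      rw [intervalIntegrable_iff_integrableOn_Icc_of_le ht.1]
      exact hi3
    have hIG : IntervalIntegrable G volume a t := by
      rw [intervalIntegrable_iff_integrableOn_Icc_of_le ht.1]
      exact hiG
    have e5 : ∫ τ in a..t, (-(ν * X3 τ) + B * G τ)
        = -(ν * ∫ τ in a..t, X3 τ) + B * ∫ τ in a..t, G τ := by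
      have := intervalIntegral.integral_add (hI3.const_mul ν).neg (hIG.const_mul B)
      simp only [Pi.neg_apply] at this
      rw [this, intervalIntegral.integral_neg, intervalIntegral.integral_const_mul,
        intervalIntegral.integral_const_mul]
    rw [e5] at key
    have h5 := hGt t ht
    have h6 : B * ∫ τ in a..t, G τ ≤ B * Γ := by gcongr
    have h7 := hX10 t
    linarith
  -- the third bound
  have hC := C1_nonneg 4
  have hAs := As_nonneg (3 / 2)
  set A := C1 4 * As (3 / 2) with hA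
  have hA0 : 0 ≤ A := by positivity
  set X4 : ℝ → ℝ := fun t => XX (fun k => (N k : ℝ) ^ 4) (amp (c t)) with hX4
  have hX40 : ∀ t, 0 ≤ X4 t := fun t => XX_nonneg fun k => by positivity
  have hd4 : ∀ t ∈ Ico a T, HasDerivAt X4 (-(2 * XX (fun k => (N k : ℝ) ^ 4 * m k) (amp (c t)))
      - 2 * Win.prod (fun k => (N k : ℝ) ^ 4) (c t)) t := fun t ht =>
    h.hasDerivAt_XX hm (pol_pow 4) (hIoo t ht)
  have hle4 : ∀ t ∈ Ico a T, -(2 * XX (fun k => (N k : ℝ) ^ 4 * m k) (amp (c t)))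
      - 2 * Win.prod (fun k => (N k : ℝ) ^ 4) (c t) ≤ (A ^ 2 / ν * X3 t) * X4 t := by
    intro t ht
    have hR := (h.rapV (hIoo t ht)).rapR
    have hw := amp_nonneg (c t)
    have hwt := wt_pow 4
    have hP := pol_pow 4
    refine (h.deriv_le hm hmν hwt hP (hIoo t ht)).trans ?_
    have s1 := XX_summable hP hR
    have s2 := XX_summable (pol_mul hP (pol_pow 2)) hR
    have s3 := QR_term_summable hwt.nonneg hP hR hw
    have hS : ∀ k, Sn (amp (c t)) (2 * N k) ≤ As (3 / 2) * (2 * N k) * Real.sqrt (X3 t) := by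
      intro k
      have e0 : Sn (amp (c t)) (2 * N k) = ∑ l ∈ (box (2 * N k)).erase 0, (N l : ℝ) * amp (c t) l := by
        unfold Sn
        rw [Finset.sum_erase]
        rw [N_eq_zero.2 rfl]
        simp
      have h5 := cs_sum (w := amp (c t)) (F := (box (2 * N k)).erase 0) (R := 2 * N k) (s := 3 / 2)
        (Bd := Real.sqrt (X3 t)) (Finset.erase_subset _ _) (Finset.notMem_erase _ _) (by norm_num)
        ?_ (Real.sqrt_nonneg _)
      · rw [← e0] at h5
        refine h5.trans (le_of_eq ?_)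
        have e1 : (5 / 2 - 3 / 2 : ℝ) = 1 := by norm_num
        rw [e1, Real.rpow_one]
        unfold As
        push_cast
        ring
      · rw [Real.sq_sqrt (hX30 t)]
        have h6 : ∀ l ∈ (box (2 * N k)).erase 0, (N l : ℝ) ^ (2 * (3 / 2 : ℝ)) * amp (c t) l ^ 2
            = (N l : ℝ) ^ 3 * amp (c t) l ^ 2 := by
          intro l _
          congr 1
          rw [show (2 * (3 / 2 : ℝ)) = ((3 : ℕ) : ℝ) by norm_num, Real.rpow_natCast]
        rw [Finset.sum_congr rfl h6]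
        exact (XX_summable (pol_pow 3) hR).sum_le_tsum _ fun l _ => by positivity
    have key : ∀ k, C1 4 * ((N k : ℝ) ^ 4 * amp (c t) k ^ 2 * Sn (amp (c t)) (2 * N k)) ≤
        ν * ((N k : ℝ) ^ 4 * (N k : ℝ) ^ 2 * amp (c t) k ^ 2)
          + (A ^ 2 / ν * X3 t) * ((N k : ℝ) ^ 4 * amp (c t) k ^ 2) := by
      intro k
      have h6 : C1 4 * Sn (amp (c t)) (2 * N k) ≤ ν * (N k : ℝ) ^ 2 + A ^ 2 / ν * X3 t := by
        have h7 := mul_le_mul_of_nonneg_left (hS k) hC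
        refine h7.trans ?_
        have h8 : X3 t = Real.sqrt (X3 t) ^ 2 := (Real.sq_sqrt (hX30 t)).symm
        set y := Real.sqrt (X3 t) with hy
        rw [h8]
        have h9 : C1 4 * (As (3 / 2) * (2 * (N k : ℝ)) * y) = 2 * (A * y * N k) := by
          rw [hA]; ring
        rw [h9]
        have h10 : ν * (N k : ℝ) ^ 2 + A ^ 2 / ν * y ^ 2 - 2 * (A * y * N k)
            = (ν * N k - A * y) ^ 2 / ν := by
          field_simp
          ring
        have h11 : 0 ≤ (ν * N k - A * y) ^ 2 / ν := by positivity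
        linarith
      calc C1 4 * ((N k : ℝ) ^ 4 * amp (c t) k ^ 2 * Sn (amp (c t)) (2 * N k))
          = (N k : ℝ) ^ 4 * amp (c t) k ^ 2 * (C1 4 * Sn (amp (c t)) (2 * N k)) := by ring
        _ ≤ (N k : ℝ) ^ 4 * amp (c t) k ^ 2 * (ν * (N k : ℝ) ^ 2 + A ^ 2 / ν * X3 t) := by gcongr
        _ = _ := by ring
    have hQ : C1 4 * QR (fun k => (N k : ℝ) ^ 4) (amp (c t)) ≤
        ν * XX (fun k => (N k : ℝ) ^ 4 * (N k : ℝ) ^ 2) (amp (c t)) + (A ^ 2 / ν * X3 t) * X4 t := by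
      unfold QR
      rw [← tsum_mul_left]
      refine ((s3.mul_left _).tsum_le_tsum key ((s2.mul_left ν).add
        (s1.mul_left (A ^ 2 / ν * X3 t)))).trans ?_
      rw [(s2.mul_left ν).tsum_add (s1.mul_left (A ^ 2 / ν * X3 t)), tsum_mul_left, tsum_mul_left]
      exact le_rfl
    have hY : 0 ≤ XX (fun k => (N k : ℝ) ^ 4 * (N k : ℝ) ^ 2) (amp (c t)) :=
      XX_nonneg fun k => by positivity
    nlinarith
  refine ⟨(X4 a + 1) * Real.exp (A ^ 2 / ν ^ 2 * (X1 a + B * Γ)), fun t ht => ?_⟩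
  refine log_gronwall (G := fun τ => A ^ 2 / ν * X3 τ)
    (D := fun t => -(2 * XX (fun k => (N k : ℝ) ^ 4 * m k) (amp (c t)))
      - 2 * Win.prod (fun k => (N k : ℝ) ^ 4) (c t)) ht.1 (fun τ _ => hX40 τ)
    (fun τ hτ => hd4 τ ⟨hτ.1, hτ.2.trans_lt ht.2⟩)
    (((hX3c.mono (hsub t ht)).integrableOn_Icc).const_mul _)
    (fun τ hτ => hle4 τ ⟨hτ.1, hτ.2.trans_lt ht.2⟩) (fun τ => ?_) ?_
  · have := hX30 τ
    positivity
  · rw [intervalIntegral.integral_const_mul]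
    have h1 := hint3 t ht
    calc A ^ 2 / ν * ∫ τ in a..t, X3 τ = A ^ 2 / ν ^ 2 * (ν * ∫ τ in a..t, X3 τ) := by
          field_simp
      _ ≤ A ^ 2 / ν ^ 2 * (X1 a + B * Γ) := by gcongr

end

variable {ν T : ℝ} {u : ℝ → V → V} {p : ℝ → V → ℝ}

/-- the weighted sums at the time `t` -/
noncomputable def Y1 (u : ℝ → V → V) (t : ℝ) : ℝ := XX (fun k => (N k : ℝ) ^ 1) (amp (cof (u t)))

noncomputable def Z3 (u : ℝ → V → V) (t : ℝ) : ℝ := XX (fun k => (N k : ℝ) ^ 3) (amp (cof (u t)))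

noncomputable def FF (u : ℝ → V → V) (t : ℝ) : ℝ := |2 * Win.prod len (cof (u t))|

theorem Y1_nonneg (u : ℝ → V → V) (t : ℝ) : 0 ≤ Y1 u t := XX_nonneg fun k => by positivity

theorem Z3_nonneg (u : ℝ → V → V) (t : ℝ) : 0 ≤ Z3 u t := XX_nonneg fun k => by positivity

theorem crit_gen (h : IsSol ν T u p) (hν : 0 < ν) {a : ℝ} (ha : 0 < a) (haT : a < T) {G : ℝ → ℝ}
    (hG0 : ∀ t, 0 ≤ G t) (hGi : IntegrableOn G (Ico a T))
    (hprod : ∀ t ∈ Ico a T, FF u t ≤ 70 * ν * Z3 u t + G t * Y1 u t) :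
    ∃ C, ∀ t ∈ Ico 0 T, ∀ x i, |u t x i| ≤ C := by
  have hf := fsol_of_isSol h
  have hm := msym_pol (ν := ν) hν.le
  have hmν := msym_ge (ν := ν) hν.le
  obtain ⟨C', hC'⟩ := hel_high70 (c := fun t => cof (u t)) hf hm hν hmν ha (G := G) hG0 hGi
    fun t ht => by
      refine (hprod t ht).trans ?_
      have htI : t ∈ Ioo 0 T := ⟨ha.trans_le ht.1, ht.2⟩
      have hR := (hf.rapV htI).rapR
      have h1 : XX (fun k => (N k : ℝ) ^ 1) (amp (cof (u t))) ≤ XX len (amp (cof (u t))) :=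
        XX_mono (pol_pow 1) pol_len hR fun k => by rw [pow_one]; exact len_ge k
      have hg := hG0 t
      unfold Y1 Z3
      gcongr
  exact bounded_of_XX h hν ha haT hC'

theorem meas_FF (h : IsSol ν T u p) (hν : 0 < ν) {a : ℝ} (ha : 0 < a) :
    AEMeasurable (FF u) (volume.restrict (Ico a T)) := by
  have hf := fsol_of_isSol h
  have hm := msym_pol (ν := ν) hν.le
  have hsub : Ico a T ⊆ Ioo 0 T := fun t ht => ⟨ha.trans_le ht.1, ht.2⟩
  set X1 : ℝ → ℝ := fun t => XX len (amp (cof (u t))) with hX1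
  set X2 : ℝ → ℝ := fun t => XX (fun k => len k * msym ν k) (amp (cof (u t))) with hX2
  have hc2 : ContinuousOn X2 (Ioo 0 T) := XX_cont hf hm (pol_mul pol_len hm)
  have h2 : AEMeasurable X2 (volume.restrict (Ico a T)) :=
    (hc2.mono hsub).aemeasurable measurableSet_Ico
  have h1 : AEMeasurable (deriv X1) (volume.restrict (Ico a T)) := (measurable_deriv X1).aemeasurable
  have h3 : AEMeasurable (fun t => ‖deriv X1 t + 2 * X2 t‖) (volume.restrict (Ico a T)) :=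
    (h1.add (h2.const_mul 2)).norm
  refine h3.congr ?_
  refine (ae_restrict_iff' measurableSet_Ico).2 (Eventually.of_forall fun t ht => ?_)
  have hd : deriv X1 t = -(2 * X2 t) - 2 * Win.prod len (cof (u t)) :=
    (hf.hasDerivAt_XX hm pol_len (hsub ht)).deriv
  simp only
  rw [hd, Real.norm_eq_abs]
  unfold FF
  rw [← abs_neg]
  congr 1
  ring

theorem cont_XX (h : IsSol ν T u p) (hν : 0 < ν) {φ : K3 → ℝ} (hφ : Pol φ) :
    ContinuousOn (fun t => XX φ (amp (cof (u t)))) (Ioo 0 T) :=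
  XX_cont (fsol_of_isSol h) (msym_pol (ν := ν) hν.le) hφ

theorem XX2_le_enst (h : IsSol ν T u p) {t : ℝ} (ht : t ∈ Ioo 0 T) :
    XX (fun k => (N k : ℝ) ^ 2) (amp (cof (u t))) ≤ enstrophy (u t) := by
  have hf := fsol_of_isSol h
  have hR := (hf.rapV ht).rapR
  have hv : ∀ i, SP (fun x => u t x i) := fun i => h.sp ⟨ht.1.le, ht.2⟩ i
  have hpi := Real.pi_pos
  set G := Real.sqrt (enstrophy (u t)) with hG
  have hG2 : enstrophy (u t) = G ^ 2 := (Real.sq_sqrt (enstrophy_nonneg _)).symm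
  have hG0 : 0 ≤ G := Real.sqrt_nonneg _
  have h1 := Q186.AM.e2_ww hv hG0 hG2
  have h2 : ∑' k, Q186.AM.ww (cf (u t)) k ^ 2 ≤ ENNReal.ofReal (enstrophy (u t)) := by
    rw [← Q186.AM.e2_sq, hG2, ENNReal.ofReal_pow hG0]
    gcongr
  have h3 : ENNReal.ofReal (XX (fun k => (N k : ℝ) ^ 2) (amp (cof (u t))))
      ≤ ENNReal.ofReal (enstrophy (u t)) := by
    refine le_trans ?_ h2
    unfold XX
    rw [ENNReal.ofReal_tsum_of_nonneg (fun k => by positivity) (XX_summable (pol_pow 2) hR)]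
    refine ENNReal.tsum_le_tsum fun k => ?_
    unfold Q186.AM.ww
    rw [← ENNReal.ofReal_pow (W_nonneg _ _)]
    apply ENNReal.ofReal_le_ofReal
    rw [amp_sq, Finset.mul_sum]
    have h4 : ∀ i, (2 * Real.pi) ^ 2 * ((N k : ℝ) ^ 2 * ‖cof (u t) k i‖ ^ 2)
        ≤ W (cf (u t)) k ^ 2 := fun i => Q186.AM.ww_ge (u t) i k
    have h5 : ∀ i, (N k : ℝ) ^ 2 * ‖cof (u t) k i‖ ^ 2 ≤ 1 / 3 * W (cf (u t)) k ^ 2 := by
      intro i
      have h6 := h4 i
      have h7 : (3 : ℝ) ≤ (2 * Real.pi) ^ 2 := by nlinarith [Real.pi_gt_three]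
      have h8 : 0 ≤ (N k : ℝ) ^ 2 * ‖cof (u t) k i‖ ^ 2 := by positivity
      nlinarith
    calc ∑ i, (N k : ℝ) ^ 2 * ‖cof (u t) k i‖ ^ 2 ≤ ∑ _i : Fin 3, 1 / 3 * W (cf (u t)) k ^ 2 :=
          Finset.sum_le_sum fun i _ => h5 i
      _ = W (cf (u t)) k ^ 2 := by
        simp only [Finset.sum_const, Finset.card_univ, Fintype.card_fin, nsmul_eq_mul]
        push_cast
        ring
  exact (ENNReal.ofReal_le_ofReal_iff (enstrophy_nonneg _)).1 h3

theorem Y1_sq_le {w : K3 → ℝ} (hr : RapR w) :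
    XX (fun k => (N k : ℝ) ^ 1) w ^ 2 ≤ XX (fun _ => 1) w * XX (fun k => (N k : ℝ) ^ 2) w := by
  have X2 : 0 ≤ XX (fun k => (N k : ℝ) ^ 2) w := XX_nonneg fun k => by positivity
  have X1 : 0 ≤ XX (fun k => (N k : ℝ) ^ 1) w := XX_nonneg fun k => by positivity
  have X0 : 0 ≤ XX (fun _ => 1) w := XX_nonneg fun k => by positivity
  have sm : Summable fun k => (1 : ℝ) * w k ^ 2 :=
    XX_summable (φ := fun _ => (1 : ℝ)) ⟨1, 0, zero_le_one, fun k => by simp⟩ hr
  have hint := tsum_interp (fun k => ENNReal.ofReal (1 * w k ^ 2))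
    (fun k => ENNReal.ofReal ((N k : ℝ) ^ 2 * w k ^ 2)) (θ := 1 / 2) (by norm_num) (by norm_num)
  rw [← ENNReal.ofReal_tsum_of_nonneg (fun k => by positivity) sm,
    ← ENNReal.ofReal_tsum_of_nonneg (fun k => by positivity) (XX_summable (pol_pow 2) hr)] at hint
  have h1 : ENNReal.ofReal (XX (fun k => (N k : ℝ) ^ 1) w)
      ≤ ENNReal.ofReal (XX (fun _ => 1) w ^ (1 - 1 / 2 : ℝ)
        * XX (fun k => (N k : ℝ) ^ 2) w ^ (1 / 2 : ℝ)) := by
    rw [ENNReal.ofReal_mul (by positivity), ← ENNReal.ofReal_rpow_of_nonneg X0 (by norm_num),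
      ← ENNReal.ofReal_rpow_of_nonneg X2 (by norm_num)]
    refine le_trans ?_ hint
    unfold XX
    rw [ENNReal.ofReal_tsum_of_nonneg (fun k => by positivity) (XX_summable (pol_pow 1) hr)]
    refine ENNReal.tsum_le_tsum fun k => ?_
    rw [ENNReal.ofReal_rpow_of_nonneg (by positivity) (by norm_num),
      ENNReal.ofReal_rpow_of_nonneg (by positivity) (by norm_num),
      ← ENNReal.ofReal_mul (by positivity)]
    apply ENNReal.ofReal_le_ofReal
    apply le_of_eq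
    rw [show (1 - 1 / 2 : ℝ) = 1 / 2 by norm_num, ← Real.sqrt_eq_rpow, ← Real.sqrt_eq_rpow, one_mul,
      ← Real.sqrt_mul (by positivity)]
    rw [show w k ^ 2 * ((N k : ℝ) ^ 2 * w k ^ 2) = ((N k : ℝ) * w k ^ 2) ^ 2 by ring,
      Real.sqrt_sq (by positivity)]
    ring
  rw [ENNReal.ofReal_le_ofReal_iff (by positivity), show (1 - 1 / 2 : ℝ) = 1 / 2 by norm_num,
    ← Real.sqrt_eq_rpow, ← Real.sqrt_eq_rpow, ← Real.sqrt_mul X0] at h1
  calc XX (fun k => (N k : ℝ) ^ 1) w ^ 2 ≤ Real.sqrt (XX (fun _ => 1) w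
        * XX (fun k => (N k : ℝ) ^ 2) w) ^ 2 := by gcongr
    _ = _ := Real.sq_sqrt (by positivity)

theorem energy_bd (h : IsSol ν T u p) (hν : 0 < ν) {a t : ℝ} (ha : 0 < a) (ht : t ∈ Ico a T) :
    XX (fun _ => 1) (amp (cof (u t))) ≤ Real.sqrt (XX (fun _ => 1) (amp (cof (u a)))) ^ 2 := by
  rw [Real.sq_sqrt (XX_nonneg fun _ => zero_le_one)]
  exact (fsol_of_isSol h).energy_anti (msym_pol (ν := ν) hν.le) hν.le (msym_ge (ν := ν) hν.le) ha ht

theorem int_Y2 (h : IsSol ν T u p) (hν : 0 < ν) {a : ℝ} (ha : 0 < a) :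
    IntegrableOn (fun t => Y1 u t ^ 2) (Ico a T) := by
  rcases le_or_gt T a with hTa | haT
  · rw [Ico_eq_empty (not_lt.2 hTa)]
    exact integrableOn_empty
  have hsub : Ico a T ⊆ Ioo 0 T := fun t ht => ⟨ha.trans_le ht.1, ht.2⟩
  set E := Real.sqrt (XX (fun _ => 1) (amp (cof (u a)))) with hE
  have hi : IntegrableOn (fun t => E ^ 2 * enstrophy (u t)) (Ico a T) :=
    ((Q186.AM.int_enst h hν (ha.trans haT)).mono_set hsub).const_mul _
  refine Integrable.mono' hi ?_ ?_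
  · exact (((cont_XX h hν (pol_pow 1)).mono hsub).pow 2).aestronglyMeasurable measurableSet_Ico
  · refine (ae_restrict_iff' measurableSet_Ico).2 (Eventually.of_forall fun t ht => ?_)
    have hR := ((fsol_of_isSol h).rapV (hsub ht)).rapR
    rw [Real.norm_eq_abs, abs_of_nonneg (by positivity)]
    have h2 : 0 ≤ XX (fun k => (N k : ℝ) ^ 2) (amp (cof (u t))) := XX_nonneg fun k => by positivity
    exact (Y1_sq_le hR).trans (mul_le_mul (energy_bd h hν ha ht) (XX2_le_enst h (hsub ht)) h2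
      (sq_nonneg _))

end Q186.HT
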