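import Pool.Agent.Q186.HT.H

/-!
The statements about blow-up.
-/

open MeasureTheory Set Filter Topology
open scoped ENNReal

namespace Q186.HT

open H459R3.NS hiding tt box
open Pool.Agent.Q63 Pool.Agent.Q63.Win
open Pool.Agent.Q63.Hel hiding PP
open Q186.AM (tsum_interp wsum norm_eq_N N_pos cf)

variable {ν T : ℝ} {u : ℝ → V → V} {p : ℝ → V → ℝ}

theorem low_const (h : IsSol ν T u p) (hν : 0 < ν) {a : ℝ} (ha : 0 < a) {θ : ℝ} (hθ0 : 0 ≤ θ)
    (hθ : θ < 4 / 5) : ∃ C, 0 ≤ C ∧ ∀ t ∈ Ico a T, ∀ n : ℕ,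
      Sn (amp (cof (u t))) ⌊(n : ℝ) ^ θ⌋₊ ≤ 1 / 5000 * ν * (n : ℝ) ^ 2 + C := by
  set E := Real.sqrt (XX (fun _ => 1) (amp (cof (u a)))) with hE
  have hE0 : 0 ≤ E := Real.sqrt_nonneg _
  have hA0 := As_nonneg 0
  set γ : ℝ := 5 / 2 * θ with hγ
  have hγ0 : 0 ≤ γ := by positivity
  have hγ2 : γ < 2 := by rw [hγ]; linarith
  refine ⟨(1 / 5000 * ν) ^ (-(γ / (2 - γ))) * (As 0 * E) ^ (2 / (2 - γ)), by positivity,
    fun t ht n => ?_⟩
  have hR := ((fsol_of_isSol h).rapV ⟨ha.trans_le ht.1, ht.2⟩).rapR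
  have h1 := Sn_low hR hE0 (energy_bd h hν ha ht) ⌊(n : ℝ) ^ θ⌋₊
  refine h1.trans ?_
  have h2 : (⌊(n : ℝ) ^ θ⌋₊ : ℝ) ≤ (n : ℝ) ^ θ := Nat.floor_le (by positivity)
  have h3 : (⌊(n : ℝ) ^ θ⌋₊ : ℝ) ^ (5 / 2 : ℝ) ≤ (n : ℝ) ^ γ := by
    calc (⌊(n : ℝ) ^ θ⌋₊ : ℝ) ^ (5 / 2 : ℝ) ≤ ((n : ℝ) ^ θ) ^ (5 / 2 : ℝ) := by gcongr
      _ = (n : ℝ) ^ γ := by
        rw [← Real.rpow_mul (Nat.cast_nonneg _), hγ]
        congr 1
        ring
  have h4 := young2 (γ := γ) (x := (n : ℝ)) (b := As 0 * E) (ν := 1 / 5000 * ν) hγ0 hγ2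
    (Nat.cast_nonneg _) (by positivity) (by positivity)
  refine le_trans ?_ h4
  calc As 0 * (⌊(n : ℝ) ^ θ⌋₊ : ℝ) ^ (5 / 2 : ℝ) * E ≤ As 0 * (n : ℝ) ^ γ * E := by gcongr
    _ = _ := by ring

theorem fixed_zero (hν : 0 < ν) {v : V → V} {S : Set K3} {θ : ℝ}
    (hS : Meets θ (1 / 30000 * ν) v S) (hRV : RapV (cof v))
    (hreal : ∀ k i, cof v (-k) i = (starRingEnd ℂ) (cof v k i))
    (hdiv : ∀ k, ∑ i, (k i : ℂ) * cof v k i = 0) (hθ0 : 0 ≤ θ) {C : ℝ} (hC : 0 ≤ C)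
    (hL : ∀ n : ℕ, Sn (amp (cof v)) ⌊(n : ℝ) ^ θ⌋₊ ≤ 1 / 5000 * ν * (n : ℝ) ^ 2 + C)
    (h0 : XX (fun k => (N k : ℝ) ^ 1) (amp (cof v)) = 0) :
    |2 * Win.prod len (cof v)| ≤ 60 * ν * XX (fun k => (N k : ℝ) ^ 3) (amp (cof v)) := by
  have hG := sum_GS (w := amp (cof v)) (amp_nonneg _) hRV.rapR (α := 0) le_rfl zero_le_one
  rw [h0, Real.zero_rpow (by norm_num), zero_mul, ENNReal.ofReal_zero, nonpos_iff_eq_zero] at hG
  have hm := fixed_le hν hS hRV hreal hdiv hθ0 hC hL (α := 0) le_rfl zero_le_one (Q := 0) le_rfl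
    (by rw [hG]; simp)
  rw [h0] at hm
  linarith

section

variable (h : IsSol ν T u p) (hν : 0 < ν) (hbl : ¬ ∃ C, ∀ t ∈ Ico 0 T, ∀ x i, |u t x i| ≤ C)
  {t₀ : ℝ} (ht₀ : t₀ ∈ Ico 0 T) {θ : ℝ} (hθ : θ < 4 / 5) {S : ℝ → Set K3}
  (hS : ∀ t ∈ Ioo t₀ T, Meets θ (1 / 30000 * ν) (u t) (S t))

include h hν hbl ht₀ hθ hS

theorem blow_int {s : ℝ} (hs1 : -2 ≤ s) (hs2 : s < 2) :
    ∫⁻ t in Ioo t₀ T, wsum s (S t) ^ (2 / (2 - s)) = ⊤ := by
  by_contra hne
  apply hbl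
  set a : ℝ := (t₀ + T) / 2 with hadef
  have ha : 0 < a := by rw [hadef]; linarith [ht₀.1, ht₀.2]
  have haT : a < T := by rw [hadef]; linarith [ht₀.2]
  have hta : t₀ < a := by rw [hadef]; linarith [ht₀.2]
  have hsub : Ico a T ⊆ Ioo 0 T := fun t ht => ⟨ha.trans_le ht.1, ht.2⟩
  have hsubJ : Ico a T ⊆ Ioo t₀ T := fun t ht => ⟨hta.trans_le ht.1, ht.2⟩
  set θ' : ℝ := max θ (1 / 2) with hθ'
  have hθ0 : 0 ≤ θ' := le_trans (by norm_num) (le_max_right _ _)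
  have hθ4 : θ' < 4 / 5 := max_lt hθ (by norm_num)
  have hS' : ∀ t ∈ Ico a T, Meets θ' (1 / 30000 * ν) (u t) (S t) := fun t ht =>
    (hS t (hsubJ ht)).mono (le_max_left _ _)
  obtain ⟨C, hC, hL⟩ := low_const h hν ha hθ0 hθ4
  set E := Real.sqrt (XX (fun _ => 1) (amp (cof (u a)))) with hE
  have hE0 : 0 ≤ E := Real.sqrt_nonneg _
  obtain ⟨α, ha0, ha1, hA0, hA1⟩ : ∃ α : ℝ, 0 ≤ α ∧ α ≤ 1 ∧ 0 ≤ 2 * α + s ∧ 2 * α + s ≤ 3 := by
    rcases le_or_gt s 0 with h0 | h0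
    · exact ⟨1, by norm_num, le_rfl, by linarith, by linarith⟩
    · exact ⟨1 / 2, by norm_num, by norm_num, by linarith, by linarith⟩
  have hd : 0 < 3 + α - s := by linarith
  have hf := fsol_of_isSol h
  set D₀ : ℝ := ν ^ (-((3 - α + s) / (3 + α - s))) *
        (5616 * E ^ ((3 - 2 * α - s) / 3)) ^ (6 / (3 + α - s)) with hD₀
  have hD₀0 : 0 ≤ D₀ := by positivity
  set D : ℝ := D₀ + 1 with hD
  have hD0 : 0 < D := by positivity
  -- the estimate with the weighted sum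
  have hest : ∀ t ∈ Ico a T, wsum s (S t) ≠ ⊤ → FF u t ≤ 61 * ν * Z3 u t
      + (1404 * C + D * ((wsum s (S t)).toReal ^ (2 / (2 - s)) + Y1 u t ^ 2)) * Y1 u t := by
    intro t ht hM
    have h1 := fixed_s hν (hS' t ht) (hf.rapV (hsub ht)) (hf.real t (hsub ht))
      (hf.div t (hsub ht)) hθ0 hC (hL t ht) ha0 ha1 hA0 hA1 hs2.le hE0 (energy_bd h hν ha ht) hM
    have hY := Y1_nonneg u t
    have hM0 : 0 ≤ (wsum s (S t)).toReal := ENNReal.toReal_nonneg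
    refine h1.trans ?_
    rw [← hD₀]
    change 61 * ν * Z3 u t + (1404 * C + D₀ * ((wsum s (S t)).toReal ^ (3 / (3 + α - s)) *
      Y1 u t ^ ((2 * α + s) / (3 + α - s)))) * Y1 u t ≤ _
    have h2 := Q186.AM.young (M := (wsum s (S t)).toReal) (y := Y1 u t ^ 2)
      (c := 3 / (3 + α - s)) (w1 := (6 - 3 * s) / (2 * (3 + α - s)))
      (w2 := (2 * α + s) / (2 * (3 + α - s))) hM0 (sq_nonneg _)
      (div_pos (by linarith) (by linarith)) (by positivity) (by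
        field_simp
        ring)
    have e1 : 3 / (3 + α - s) / ((6 - 3 * s) / (2 * (3 + α - s))) = 2 / (2 - s) := by
      have h3 : 6 - 3 * s ≠ 0 := by linarith
      have h4 : 2 - s ≠ 0 := by linarith
      field_simp
      ring
    have e2 : (Y1 u t ^ 2) ^ ((2 * α + s) / (2 * (3 + α - s)))
        = Y1 u t ^ ((2 * α + s) / (3 + α - s)) := by
      rw [← Real.rpow_natCast, ← Real.rpow_mul hY]
      congr 1
      push_cast
      field_simp
    rw [e1, e2] at h2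
    have h5 : D₀ * ((wsum s (S t)).toReal ^ (3 / (3 + α - s)) *
        Y1 u t ^ ((2 * α + s) / (3 + α - s)))
        ≤ D * ((wsum s (S t)).toReal ^ (2 / (2 - s)) + Y1 u t ^ 2) := by
      have h6 : D₀ ≤ D := by rw [hD]; linarith
      gcongr
    gcongr
  -- the measurable minorant
  set g : ℝ → ℝ := fun t => max 0 ((FF u t - 61 * ν * Z3 u t - 1404 * C * Y1 u t) / (D * Y1 u t)
    - Y1 u t ^ 2) with hg
  have hg0 : ∀ t, 0 ≤ g t := fun t => le_max_left _ _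
  have hgle : ∀ t ∈ Ico a T, ENNReal.ofReal (g t) ≤ wsum s (S t) ^ (2 / (2 - s)) := by
    intro t ht
    have h2s : 0 < 2 / (2 - s) := div_pos (by norm_num) (by linarith)
    by_cases hM : wsum s (S t) = ⊤
    · rw [hM, ENNReal.top_rpow_of_pos h2s]
      exact le_top
    · have hM0 : 0 ≤ (wsum s (S t)).toReal := ENNReal.toReal_nonneg
      rw [← ENNReal.ofReal_toReal hM, ENNReal.ofReal_rpow_of_nonneg hM0 h2s.le]
      apply ENNReal.ofReal_le_ofReal
      have hr0 : 0 ≤ (wsum s (S t)).toReal ^ (2 / (2 - s)) := by positivity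
      refine max_le hr0 ?_
      rcases (Y1_nonneg u t).eq_or_lt with hY | hY
      · rw [← hY]
        simp only [mul_zero, div_zero]
        linarith [sq_nonneg (0 : ℝ)]
      · have h1 := hest t ht hM
        rw [sub_le_iff_le_add, div_le_iff₀ (by positivity)]
        linarith
  have hcY : ContinuousOn (Y1 u) (Ioo 0 T) := cont_XX h hν (pol_pow 1)
  have hcZ : ContinuousOn (Z3 u) (Ioo 0 T) := cont_XX h hν (pol_pow 3)
  have mY : AEMeasurable (Y1 u) (volume.restrict (Ico a T)) :=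
    (hcY.mono hsub).aemeasurable measurableSet_Ico
  have mZ : AEMeasurable (Z3 u) (volume.restrict (Ico a T)) :=
    (hcZ.mono hsub).aemeasurable measurableSet_Ico
  have mF := meas_FF (u := u) h hν ha
  have mg : AEMeasurable g (volume.restrict (Ico a T)) :=
    aemeasurable_const.max (((((mF.sub (mZ.const_mul (61 * ν))).sub
      (mY.const_mul (1404 * C))).div (mY.const_mul D))).sub (mY.pow_const 2))
  have hgi : IntegrableOn g (Ico a T) := by
    rw [IntegrableOn, ← lintegral_ofReal_ne_top_iff_integrable mg.aestronglyMeasurable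
      (Eventually.of_forall hg0)]
    refine ne_top_of_le_ne_top hne ?_
    calc ∫⁻ t in Ico a T, ENNReal.ofReal (g t)
        ≤ ∫⁻ t in Ico a T, wsum s (S t) ^ (2 / (2 - s)) :=
          setLIntegral_mono' measurableSet_Ico hgle
      _ ≤ _ := lintegral_mono_set hsubJ
  have hGi : IntegrableOn (fun t => 1404 * C + D * (g t + Y1 u t ^ 2)) (Ico a T) := by
    refine Integrable.add ?_ ((hgi.add (int_Y2 h hν ha)).const_mul D)
    exact integrableOn_const (by simp) enorm_ne_top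
  refine crit_gen h hν ha haT (G := fun t => 1404 * C + D * (g t + Y1 u t ^ 2))
    (fun t => ?_) hGi fun t ht => ?_
  · have := hg0 t
    positivity
  · have hZ := Z3_nonneg u t
    have hνZ : 0 ≤ ν * Z3 u t := by positivity
    rcases (Y1_nonneg u t).eq_or_lt with hY | hY
    · have h1 := fixed_zero hν (hS' t ht) (hf.rapV (hsub ht)) (hf.real t (hsub ht))
        (hf.div t (hsub ht)) hθ0 hC (hL t ht) hY.symm
      rw [← hY, mul_zero, add_zero]
      refine h1.trans ?_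
      change 60 * ν * Z3 u t ≤ _
      linarith
    · have h1 : (FF u t - 61 * ν * Z3 u t - 1404 * C * Y1 u t) / (D * Y1 u t) - Y1 u t ^ 2 ≤ g t :=
        le_max_right _ _
      rw [sub_le_iff_le_add, div_le_iff₀ (by positivity)] at h1
      linarith

theorem blow_sum (B : ℝ) : ∃ t ∈ Ioo t₀ T, ENNReal.ofReal B < wsum 2 (S t) := by
  by_contra hcon
  push Not at hcon
  apply hbl
  set a : ℝ := (t₀ + T) / 2 with hadef
  have ha : 0 < a := by rw [hadef]; linarith [ht₀.1, ht₀.2]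
  have haT : a < T := by rw [hadef]; linarith [ht₀.2]
  have hta : t₀ < a := by rw [hadef]; linarith [ht₀.2]
  have hsub : Ico a T ⊆ Ioo 0 T := fun t ht => ⟨ha.trans_le ht.1, ht.2⟩
  have hsubJ : Ico a T ⊆ Ioo t₀ T := fun t ht => ⟨hta.trans_le ht.1, ht.2⟩
  set θ' : ℝ := max θ (1 / 2) with hθ'
  have hθ0 : 0 ≤ θ' := le_trans (by norm_num) (le_max_right _ _)
  have hθ4 : θ' < 4 / 5 := max_lt hθ (by norm_num)
  obtain ⟨C, hC, hL⟩ := low_const h hν ha hθ0 hθ4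
  set E := Real.sqrt (XX (fun _ => 1) (amp (cof (u a)))) with hE
  have hE0 : 0 ≤ E := Real.sqrt_nonneg _
  have hf := fsol_of_isSol h
  set D : ℝ := ν ^ (-((3 - 1 / 2 + 2) / (3 + 1 / 2 - 2) : ℝ)) *
        (5616 * E ^ ((3 - 2 * (1 / 2) - 2) / 3 : ℝ)) ^ (6 / (3 + 1 / 2 - 2) : ℝ) with hD
  have hD0 : 0 ≤ D := by positivity
  set B' : ℝ := max B 0 with hB'
  have hB0 : 0 ≤ B' := le_max_right _ _
  have hGi : IntegrableOn (fun t => 1404 * C + D * B' ^ 2 * Y1 u t ^ 2) (Ico a T) := by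
    refine Integrable.add ?_ ((int_Y2 h hν ha).const_mul _)
    exact integrableOn_const (by simp) enorm_ne_top
  refine crit_gen h hν ha haT (G := fun t => 1404 * C + D * B' ^ 2 * Y1 u t ^ 2)
    (fun t => by positivity) hGi fun t ht => ?_
  have hbd : wsum 2 (S t) ≤ ENNReal.ofReal B' :=
    (hcon t (hsubJ ht)).trans (ENNReal.ofReal_le_ofReal (le_max_left _ _))
  have hM : wsum 2 (S t) ≠ ⊤ := ne_top_of_le_ne_top ENNReal.ofReal_ne_top hbd
  have hM1 : (wsum 2 (S t)).toReal ≤ B' := ENNReal.toReal_le_of_le_ofReal hB0 hbd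
  have hM0 : 0 ≤ (wsum 2 (S t)).toReal := ENNReal.toReal_nonneg
  have h1 := fixed_s hν ((hS t (hsubJ ht)).mono (le_max_left θ (1 / 2))) (hf.rapV (hsub ht))
    (hf.real t (hsub ht)) (hf.div t (hsub ht)) hθ0 hC (hL t ht) (α := 1 / 2) (s := 2)
    (by norm_num) (by norm_num) (by norm_num) (by norm_num) le_rfl hE0 (energy_bd h hν ha ht) hM
  have hZ := Z3_nonneg u t
  have hY := Y1_nonneg u t
  refine h1.trans ?_
  rw [← hD]
  have e1 : (3 / (3 + 1 / 2 - 2) : ℝ) = ((2 : ℕ) : ℝ) := by norm_num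
  have e2 : ((2 * (1 / 2) + 2) / (3 + 1 / 2 - 2) : ℝ) = ((2 : ℕ) : ℝ) := by norm_num
  rw [e1, e2, Real.rpow_natCast, Real.rpow_natCast]
  change 61 * ν * Z3 u t + (1404 * C + D * ((wsum 2 (S t)).toReal ^ 2 * Y1 u t ^ 2)) * Y1 u t ≤ _
  have h2 : D * ((wsum 2 (S t)).toReal ^ 2 * Y1 u t ^ 2) ≤ D * B' ^ 2 * Y1 u t ^ 2 := by
    calc D * ((wsum 2 (S t)).toReal ^ 2 * Y1 u t ^ 2) ≤ D * (B' ^ 2 * Y1 u t ^ 2) := by gcongr
      _ = _ := by ring
  have h3 : 61 * ν * Z3 u t ≤ 70 * ν * Z3 u t := by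
    have : 0 ≤ ν * Z3 u t := by positivity
    linarith
  gcongr

theorem blow_count (B : ℝ) : ∃ t ∈ Ioo t₀ T, ∃ R : ℕ, 1 ≤ R ∧ B * (R : ℝ) ^ 2
    < (({l | l ∈ S t ∧ ‖l‖ ≤ R}).ncard : ℝ) := by
  by_contra hcon
  push Not at hcon
  apply hbl
  set a : ℝ := (t₀ + T) / 2 with hadef
  have ha : 0 < a := by rw [hadef]; linarith [ht₀.1, ht₀.2]
  have haT : a < T := by rw [hadef]; linarith [ht₀.2]
  have hta : t₀ < a := by rw [hadef]; linarith [ht₀.2]
  have hsub : Ico a T ⊆ Ioo 0 T := fun t ht => ⟨ha.trans_le ht.1, ht.2⟩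
  have hsubJ : Ico a T ⊆ Ioo t₀ T := fun t ht => ⟨hta.trans_le ht.1, ht.2⟩
  set θ' : ℝ := max θ (1 / 2) with hθ'
  have hθ0 : 0 ≤ θ' := le_trans (by norm_num) (le_max_right _ _)
  have hθ4 : θ' < 4 / 5 := max_lt hθ (by norm_num)
  obtain ⟨C, hC, hL⟩ := low_const h hν ha hθ0 hθ4
  set E := Real.sqrt (XX (fun _ => 1) (amp (cof (u a)))) with hE
  have hE0 : 0 ≤ E := Real.sqrt_nonneg _
  have hf := fsol_of_isSol h
  have hB : 0 ≤ B := by
    have h1 := hcon ((t₀ + T) / 2) ⟨by linarith [ht₀.2], by linarith [ht₀.2]⟩ 1 le_rfl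
    have h2 : (0 : ℝ) ≤ (({l | l ∈ S ((t₀ + T) / 2) ∧ ‖l‖ ≤ (1 : ℕ)}).ncard : ℝ) := by positivity
    simp only [Nat.cast_one, one_pow, mul_one] at h1 h2
    linarith
  have hGi : IntegrableOn (fun t => 1404 * C + 5616 ^ 2 * B * E ^ 2 / ν *
      ((16848 ^ 2 * B / ν ^ 2) ^ 2 * Y1 u t ^ 2 + 4)) (Ico a T) := by
    refine Integrable.add ?_ (Integrable.const_mul (Integrable.add
      ((int_Y2 h hν ha).const_mul _) ?_) _)
    · exact integrableOn_const (by simp) enorm_ne_top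
    · exact integrableOn_const (by simp) enorm_ne_top
  refine crit_gen h hν ha haT (G := fun t => 1404 * C + 5616 ^ 2 * B * E ^ 2 / ν *
      ((16848 ^ 2 * B / ν ^ 2) ^ 2 * Y1 u t ^ 2 + 4)) (fun t => by positivity) hGi fun t ht => ?_
  have h1 := fixed_count hν ((hS t (hsubJ ht)).mono (le_max_left θ (1 / 2))) (hf.rapV (hsub ht))
    (hf.real t (hsub ht)) (hf.div t (hsub ht)) hθ0 hC (hL t ht) hB hE0 (energy_bd h hν ha ht)
    (fun m hm => hcon t (hsubJ ht) m hm)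
  have hZ := Z3_nonneg u t
  refine h1.trans ?_
  change 62 * ν * Z3 u t + (1404 * C + 5616 ^ 2 * B * E ^ 2 / ν *
      ((16848 ^ 2 * B / ν ^ 2) ^ 2 * Y1 u t ^ 2 + 4)) * Y1 u t ≤ _
  have h3 : 62 * ν * Z3 u t ≤ 70 * ν * Z3 u t := by
    have : 0 ≤ ν * Z3 u t := by positivity
    linarith
  gcongr

end

/-- The helical modes which are active give active modes. -/
theorem active_of_hel {σ : ℤˣ} {a : ℝ} (ha : 0 < a) {v : V → V} {k : K3}
    (h : HelActive σ a v k) : Q186.AM.Active (1 / 2 * a) v k := by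
  by_contra hcon
  unfold Q186.AM.Active at hcon
  push Not at hcon
  obtain ⟨i, hi⟩ := h
  rw [norm_eq_N] at hi
  have hN : (0 : ℝ) < N k := by
    rcases Nat.eq_zero_or_pos (N k) with h0 | h0
    · rw [h0] at hi
      simp at hi
      linarith
    · exact_mod_cast h0
  have hσ : (((σ : ℤˣ) : ℤ) : ℝ) ^ 2 = 1 := by
    rcases Int.units_eq_one_or σ with rfl | rfl <;> simp
  have h1 : ∀ i, ‖cof v k i‖ ≤ (1 / 2 * a) / (N k : ℝ) ^ 2 := by
    intro i
    rw [le_div_iff₀ (by positivity), mul_comm]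
    have := hcon i
    rw [norm_eq_N] at this
    exact this
  have h2 : ‖hel ((σ : ℤ) : ℝ) (cof v) k i‖ ≤ a / (N k : ℝ) ^ 2 := by
    calc ‖hel ((σ : ℤ) : ℝ) (cof v) k i‖ ≤ amp (hel ((σ : ℤ) : ℝ) (cof v)) k := norm_le_amp _ _ _
      _ ≤ amp (cof v) k := amp_hel_le hσ _ _
      _ ≤ 2 * ((1 / 2 * a) / (N k : ℝ) ^ 2) := amp_le h1
      _ = _ := by ring
  have h3 : (N k : ℝ) ^ 2 * ‖hel ((σ : ℤ) : ℝ) (cof v) k i‖ ≤ a := by
    calc (N k : ℝ) ^ 2 * ‖hel ((σ : ℤ) : ℝ) (cof v) k i‖ ≤ (N k : ℝ) ^ 2 * (a / (N k : ℝ) ^ 2) := by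
          gcongr
      _ = a := by field_simp
  exact absurd hi (not_lt.2 h3)

/-- The energy bound for the active helical modes. -/
theorem energy_hel (h : IsSol ν T u p) (hν : 0 < ν) :
    ∫⁻ t in Ioo 0 T, wsum 2 {k | ∃ σ, HelActive σ (1 / 30000 * ν) (u t) k}
      ≤ ENNReal.ofReal (46000000 * energy (u 0) / ν ^ 3) := by
  rcases le_or_gt T 0 with hT | hT
  · rw [Ioo_eq_empty (by linarith)]
    simp
  have hpi := Real.pi_pos
  have ha : 0 < 1 / 30000 * ν := by positivity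
  have ha' : 0 < 1 / 2 * (1 / 30000 * ν) := by positivity
  have hi := Q186.AM.int_enst h hν hT
  set c : ℝ := ((2 * Real.pi) ^ 2 * (1 / 2 * (1 / 30000 * ν)) ^ 2)⁻¹ with hc
  have hc0 : 0 ≤ c := by positivity
  calc ∫⁻ t in Ioo 0 T, wsum 2 {k | ∃ σ, HelActive σ (1 / 30000 * ν) (u t) k}
      ≤ ∫⁻ t in Ioo 0 T, ENNReal.ofReal (c * enstrophy (u t)) := by
        refine setLIntegral_mono' measurableSet_Ioo fun t ht => ?_
        refine (Q186.AM.wsum_mono 2 (S' := {k | Q186.AM.Active (1 / 2 * (1 / 30000 * ν)) (u t) k})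
          fun k hk => ?_).trans ((Q186.AM.wsum_active_le (fun i => h.sp ⟨ht.1.le, ht.2⟩ i)
          ha').trans (le_of_eq ?_))
        · obtain ⟨σ, hσ⟩ := hk
          exact active_of_hel ha hσ
        · rw [hc, div_eq_inv_mul]
    _ = ENNReal.ofReal (∫ t in Ioo 0 T, c * enstrophy (u t)) := by
        rw [ofReal_integral_eq_lintegral_ofReal (hi.const_mul c)]
        exact Eventually.of_forall fun t => mul_nonneg hc0 (enstrophy_nonneg _)
    _ ≤ _ := by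
        refine ENNReal.ofReal_le_ofReal ?_
        rw [integral_const_mul]
        have h1 := Q186.AM.int_enst_le h hν hT
        have hE := energy_nonneg (u 0)
        calc c * ∫ t in Ioo 0 T, enstrophy (u t) ≤ c * (energy (u 0) / (2 * ν)) := by gcongr
          _ = (450000000 / Real.pi ^ 2) * (energy (u 0) / ν ^ 3) := by
            rw [hc]
            field_simp
            ring
          _ ≤ 46000000 * (energy (u 0) / ν ^ 3) := by
            gcongr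
            rw [div_le_iff₀ (by positivity)]
            nlinarith [Real.pi_gt_d2]
          _ = _ := by ring

end Q186.HT
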