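import Pool.Agent.Q186.HT.I

/-!
The active modes of one helicity meet all the triads.
-/

open MeasureTheory Set Filter Topology
open scoped ENNReal

namespace Q186.HT

open H459R3.NS hiding tt box
open Pool.Agent.Q63.Hel hiding PP
open Q186.AM (norm_eq_N N_pos)

theorem HelActive.mono {σ : ℤˣ} {a b : ℝ} (hab : a ≤ b) {v : V → V} {k : K3}
    (h : HelActive σ b v k) : HelActive σ a v k := by
  obtain ⟨i, hi⟩ := h
  exact ⟨i, hab.trans_lt hi⟩

/-- The active modes of one helicity meet all the triads. -/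
theorem meets_hel (θ : ℝ) {a : ℝ} (ha : 0 ≤ a) (v : V → V) (σ : ℤˣ) :
    Meets θ a v {k | HelActive σ a v k} := by
  intro l m n ht
  obtain ⟨σ₁, σ₂, σ₃, hne, h1, h2, h3⟩ := ht.active
  have hl : l ≠ 0 := (cross_ne ht.indep).1
  have hl0 : 0 < ‖l‖ := norm_pos_iff.2 hl
  have hL : a ≤ a * √(‖n‖ / ‖l‖) := by
    refine le_mul_of_one_le_right ha ?_
    rw [Real.one_le_sqrt, one_le_div hl0]
    exact ht.le₁.trans ht.le₂
  have key : σ₁ = σ ∨ σ₂ = σ ∨ σ₃ = σ := by
    rcases Int.units_eq_one_or σ with rfl | rfl <;> rcases Int.units_eq_one_or σ₁ with rfl | rfl <;>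
    rcases Int.units_eq_one_or σ₂ with rfl | rfl <;> rcases Int.units_eq_one_or σ₃ with rfl | rfl <;>
    simp_all
  rcases key with h | h | h
  · exact Or.inl (h ▸ h1.mono hL)
  · exact Or.inr (Or.inl (h ▸ h2.mono hL))
  · exact Or.inr (Or.inr (h ▸ h3.mono hL))

end Q186.HT
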